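import Pool.Statements.S00658
import Pool.Agent.Helper33.Schunck8

set_option autoImplicit false
open Pool Pool.MP_08b069_al

namespace Pool.Agent.S00658

/-- The negation of the preceding statement: Every Schunck class of finite soluble groups containing a nontrivial group has, below it in the projector-containment order, a Schunck class with a nontrivial group whose only smaller Schunck classes are the trivial class and itself. -/
theorem result :
    ¬ (∀ X : (G : Type) → [Group G] → Prop,
      ((∀ (G : Type) [Group G], X G → Finite G ∧ IsSolvable G) ∧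
        (∀ (G H : Type) [Group G] [Group H], Nonempty (G ≃* H) → X G → X H) ∧
        (∀ (G : Type) [Group G] (N : Subgroup G) [N.Normal], X G → X (G ⧸ N)) ∧
        (∀ (G : Type) [Group G] [Finite G], IsSolvable G →
          (∀ (N : Subgroup G) [N.Normal],
            (∃ M : Subgroup (G ⧸ N), IsCoatom M ∧ M.normalCore = ⊥) → X (G ⧸ N)) → X G)) →
      (∃ (G : Type) (_ : Group G), X G ∧ Nontrivial G) →
      ∃ A : (G : Type) → [Group G] → Prop,
        ((∀ (G : Type) [Group G], A G → Finite G ∧ IsSolvable G) ∧
          (∀ (G H : Type) [Group G] [Group H], Nonempty (G ≃* H) → A G → A H) ∧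
          (∀ (G : Type) [Group G] (N : Subgroup G) [N.Normal], A G → A (G ⧸ N)) ∧
          (∀ (G : Type) [Group G] [Finite G], IsSolvable G →
            (∀ (N : Subgroup G) [N.Normal],
              (∃ M : Subgroup (G ⧸ N), IsCoatom M ∧ M.normalCore = ⊥) → A (G ⧸ N)) → A G)) ∧
        (∃ (G : Type) (_ : Group G), A G ∧ Nontrivial G) ∧
        (∀ B : (G : Type) → [Group G] → Prop,
          ((∀ (G : Type) [Group G], B G → Finite G ∧ IsSolvable G) ∧
            (∀ (G H : Type) [Group G] [Group H], Nonempty (G ≃* H) → B G → B H) ∧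
            (∀ (G : Type) [Group G] (N : Subgroup G) [N.Normal], B G → B (G ⧸ N)) ∧
            (∀ (G : Type) [Group G] [Finite G], IsSolvable G →
              (∀ (N : Subgroup G) [N.Normal],
                (∃ M : Subgroup (G ⧸ N), IsCoatom M ∧ M.normalCore = ⊥) → B (G ⧸ N)) → B G)) →
          (∀ (G : Type) [Group G] [Finite G], IsSolvable G →
            ∃ E F : Subgroup G,
              (∀ (N : Subgroup G) [N.Normal],
                B ↥(E.map (QuotientGroup.mk' N)) ∧
                ∀ K : Subgroup (G ⧸ N), E.map (QuotientGroup.mk' N) ≤ K → B ↥K →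
                  K = E.map (QuotientGroup.mk' N)) ∧
              (∀ (N : Subgroup G) [N.Normal],
                A ↥(F.map (QuotientGroup.mk' N)) ∧
                ∀ K : Subgroup (G ⧸ N), F.map (QuotientGroup.mk' N) ≤ K → A ↥K →
                  K = F.map (QuotientGroup.mk' N)) ∧
              E ≤ F) →
          (∀ (G : Type) [Group G], B G → Subsingleton G) ∨
            (∀ (G : Type) [Group G], B G ↔ A G)) ∧
        (∀ (G : Type) [Group G] [Finite G], IsSolvable G →
          ∃ E F : Subgroup G,
            (∀ (N : Subgroup G) [N.Normal],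
              A ↥(E.map (QuotientGroup.mk' N)) ∧
              ∀ K : Subgroup (G ⧸ N), E.map (QuotientGroup.mk' N) ≤ K → A ↥K →
                K = E.map (QuotientGroup.mk' N)) ∧
            (∀ (N : Subgroup G) [N.Normal],
              X ↥(F.map (QuotientGroup.mk' N)) ∧
              ∀ K : Subgroup (G ⧸ N), F.map (QuotientGroup.mk' N) ≤ K → X ↥K →
                K = F.map (QuotientGroup.mk' N)) ∧
            E ≤ F)) := by
  intro h
  obtain ⟨A, ⟨a1, a2, a3, a4⟩, hAnt, hmin, hle⟩ := h Pool.Agent.Helper33.Schunck.T
    ⟨fun G _ hG => Pool.Agent.Helper33.Schunck.isSchunck_T.fs G hG,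
      fun G H _ _ e hG => Pool.Agent.Helper33.Schunck.isSchunck_T.iso G H e hG,
      fun G _ N _ hG => Pool.Agent.Helper33.Schunck.isSchunck_T.quot G N hG,
      fun G _ _ hs hp => Pool.Agent.Helper33.Schunck.isSchunck_T.prim G hs (fun N _ hN => hp N hN)⟩
    ⟨Multiplicative (ZMod 2), inferInstance, by
      have hc : Nat.card (Multiplicative (ZMod 2)) = 2 := by simp
      exact ⟨Pool.Agent.Helper33.Schunck.T.of_pGroup Nat.prime_two
        (IsPGroup.of_card (n := 1) (by rw [hc, pow_one])), inferInstance⟩⟩
  refine Pool.Agent.Helper33.Schunck.main A ⟨a1, a2, a3, a4⟩ hAnt (fun B hB hBA => ?_) hle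
  exact hmin B ⟨hB.fs, hB.iso, hB.quot, hB.prim⟩ hBA

end Pool.Agent.S00658
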