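import Pool.Statements.S01052
import Pool.Agent.Helper26.DC.Final

set_option autoImplicit false
open Pool Pool.MP_2c9d0b_al

namespace Pool.Agent.S01052

/-- The negation of the preceding statement: Over any characteristic-zero ordinary differential field, if i<n differential polynomials in n unknowns generate a proper differential ideal, every minimal prime P over it leaves some unknown differentially transcendental, i.e. positive differential transcendence degree. -/
theorem result :
    ¬ (∀ (K : Type) [Field K] [CharZero K] [Differential K] (n i : ℕ), i < n →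
      ∀ (u : Fin i → MvPolynomial (Fin n × ℕ) K)
        (D : Derivation ℤ (MvPolynomial (Fin n × ℕ) K) (MvPolynomial (Fin n × ℕ) K)),
        (∀ a : K, D (MvPolynomial.C a) = MvPolynomial.C (Differential.deriv a)) →
        (∀ (j : Fin n) (k : ℕ), D (MvPolynomial.X (j, k)) = MvPolynomial.X (j, k + 1)) →
        sInf {J : Ideal (MvPolynomial (Fin n × ℕ) K) | (∀ m, u m ∈ J) ∧ ∀ f ∈ J, D f ∈ J} ≠ ⊤ →
        ∀ P ∈ (sInf {J : Ideal (MvPolynomial (Fin n × ℕ) K) |
                (∀ m, u m ∈ J) ∧ ∀ f ∈ J, D f ∈ J}).minimalPrimes,
          ∃ j : Fin n, ∀ f ∈ MvPolynomial.supported K {v : Fin n × ℕ | v.1 = j},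
            f ∈ P → f = 0) :=
  Pool.Agent.Helper26.DC.final

end Pool.Agent.S01052
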