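import Pool.Statements.S01412
-- import your own Pool.Agent.* helpers here
import Pool.Agent.Helper32.NodeCase
import Pool.Agent.Helper32.PiIdentity
import Pool.Agent.Helper32.BandModule

set_option autoImplicit false
open Pool Pool.MP_4e4efc_al

namespace Pool.Agent.S01412

open Pool.Agent.Helper32 Pool.Agent.Helper32.NodeRing

lemma s_not_mem_mm {i j : ℕ} (h : i ≠ j) :
    algebraMap A NodeRing.k (s j) ∉ mm i := by
  intro hmem
  have h1 := res_eq_zero_of_mem hmem
  rw [res_algebraMap, coe_s, ev_sR_ne (Ne.symm h)] at h1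
  exact sR_ne_zero j ((IsFractionRing.injective R K) (by rw [h1, map_zero]))

lemma quot_not_iso {i j : ℕ} (h : i ≠ j) :
    ¬ Nonempty ((NodeRing.k ⧸ mm i) ≃ₗ[NodeRing.k] (NodeRing.k ⧸ mm j)) := by
  rintro ⟨e⟩
  have h1 := LinearEquiv.annihilator_eq e
  rw [Ideal.annihilator_quotient, Ideal.annihilator_quotient] at h1
  apply s_not_mem_mm h
  rw [h1]
  exact Ideal.subset_span (Set.mem_insert _ _)

lemma quot_indec (i : ℕ) (p q : Submodule NodeRing.k (NodeRing.k ⧸ mm i)) (h : IsCompl p q) :
    p = ⊥ ∨ q = ⊥ := by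
  have : IsSimpleModule NodeRing.k (NodeRing.k ⧸ mm i) :=
    isSimpleModule_iff_isCoatom.2 (mm_isMaximal i).out
  rcases eq_bot_or_eq_top p with hp | hp
  · exact Or.inl hp
  · right
    have := h.inf_eq_bot
    rwa [hp, top_inf_eq] at this

/-- The negation of the preceding statement: For every module-finite algebra over a commutative noetherian ring that has infinitely many finitely generated indecomposables up to isomorphism, exactly one holds: finitely many generic modules of each endolength, or some generic module has a non-PI endomorphism ring. -/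
theorem result :
    ¬ (∀ (k : Type) [CommRing k] [IsNoetherianRing k] (R : Type) [Ring R] [Algebra k R]
      [Module.Finite k R],
      (¬ ∃ n : ℕ, ∀ (M : Fin (n + 1) → Type) [∀ i, AddCommGroup (M i)] [∀ i, Module R (M i)],
          (∀ i, Nontrivial (M i) ∧
            (∀ p q : Submodule R (M i), IsCompl p q → p = ⊥ ∨ q = ⊥) ∧
            Module.Finite R (M i)) →
          ∃ i j, i ≠ j ∧ Nonempty (M i ≃ₗ[R] M j)) →
      Xor'
        (∀ d : ℕ, ∃ n : ℕ, ∀ (M : Fin (n + 1) → Type) [∀ i, AddCommGroup (M i)]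
            [∀ i, Module R (M i)],
            (∀ i, Nontrivial (M i) ∧
              (∀ p q : Submodule R (M i), IsCompl p q → p = ⊥ ∨ q = ⊥) ∧
              ¬ Module.Finite R (M i) ∧
              Module.length (Module.End R (M i)) (M i) = (d : ℕ∞)) →
            ∃ i j, i ≠ j ∧ Nonempty (M i ≃ₗ[R] M j))
        (∃ (G : Type) (_ : AddCommGroup G) (_ : Module R G),
          Nontrivial G ∧
          (∀ p q : Submodule R G, IsCompl p q → p = ⊥ ∨ q = ⊥) ∧
          ¬ Module.Finite R G ∧
          Module.length (Module.End R G) G < ⊤ ∧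
          ¬ ∃ n : ℕ, ∃ c : Equiv.Perm (Fin n) → ℤ, c 1 = 1 ∧
            ∀ x : Fin n → Module.End R G,
              ∑ σ : Equiv.Perm (Fin n), c σ • (List.ofFn (fun i => x (σ i))).prod = 0)) := by
  intro H
  have H1 := H NodeRing.k NodeRing.k ?_
  · have hA : ¬ (∀ d : ℕ, ∃ n : ℕ, ∀ (M : Fin (n + 1) → Type) [∀ i, AddCommGroup (M i)]
            [∀ i, Module NodeRing.k (M i)],
            (∀ i, Nontrivial (M i) ∧
              (∀ p q : Submodule NodeRing.k (M i), IsCompl p q → p = ⊥ ∨ q = ⊥) ∧
              ¬ Module.Finite NodeRing.k (M i) ∧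
              Module.length (Module.End NodeRing.k (M i)) (M i) = (d : ℕ∞)) →
            ∃ i j, i ≠ j ∧ Nonempty (M i ≃ₗ[NodeRing.k] M j)) := by
      intro h
      obtain ⟨n, hn⟩ := h 2
      obtain ⟨i, j, hij, he⟩ := hn (fun i => Band (i : ℕ)) (fun i =>
        ⟨inferInstance, band_indec i, band_not_finite i, by rw [band_length]; rfl⟩)
      exact band_not_iso (fun h => hij (Fin.ext h)) he
    have hB : ¬ (∃ (G : Type) (_ : AddCommGroup G) (_ : Module NodeRing.k G),
          Nontrivial G ∧
          (∀ p q : Submodule NodeRing.k G, IsCompl p q → p = ⊥ ∨ q = ⊥) ∧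
          ¬ Module.Finite NodeRing.k G ∧
          Module.length (Module.End NodeRing.k G) G < ⊤ ∧
          ¬ ∃ n : ℕ, ∃ c : Equiv.Perm (Fin n) → ℤ, c 1 = 1 ∧
            ∀ x : Fin n → Module.End NodeRing.k G,
              ∑ σ : Equiv.Perm (Fin n), c σ • (List.ofFn (fun i => x (σ i))).prod = 0) := by
      rintro ⟨G, _, _, hne, hind, hinf, hlen, hPI⟩
      apply hPI
      obtain ⟨r, hr⟩ := Red.commutators_vanish hind hinf hlen
      obtain ⟨n, c, hc1, hc⟩ := exists_multilinear (Module.End NodeRing.k G) r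
      refine ⟨n, c, hc1, fun x => ?_⟩
      obtain ⟨l, hl, hsum⟩ := hc x
      rw [hsum]
      exact hr l hl
    rcases H1 with ⟨h, _⟩ | ⟨h, _⟩
    · exact hA h
    · exact hB h
  · rintro ⟨n, hn⟩
    obtain ⟨i, j, hij, he⟩ := hn (fun i => NodeRing.k ⧸ mm (i : ℕ)) (fun i =>
      ⟨Ideal.Quotient.nontrivial_iff.2 (mm_ne_top i), quot_indec i, inferInstance⟩)
    exact quot_not_iso (fun h => hij (Fin.ext h)) he

end Pool.Agent.S01412
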