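import Pool.Statements.S01752
import Pool.Agent.Helper36.LeibFinal

set_option autoImplicit false
open Pool Pool.MP_675cf2_al

namespace Pool.Agent.S01752

/-- The negation of the preceding statement: For every n ≥ 2, every irreducible component (Zariski topology on structure constants) of the variety of n-dimensional complex left Leibniz algebras contains an algebra that is not nilpotent. -/
theorem result :
    ¬ (∀ n : ℕ, 2 ≤ n →
  ∀ μ : (Fin n × Fin n × Fin n → ℂ) → (Fin n → ℂ) → (Fin n → ℂ) → (Fin n → ℂ),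
    (∀ c u v, μ c u v = fun k => ∑ i : Fin n, ∑ j : Fin n, u i * v j * c (i, j, k)) →
  ∀ IsClosedZ : Set (Fin n × Fin n × Fin n → ℂ) → Prop,
    (∀ Z, IsClosedZ Z ↔ ∃ S : Set (MvPolynomial (Fin n × Fin n × Fin n) ℂ),
        Z = {c | ∀ p ∈ S, MvPolynomial.eval c p = 0}) →
  ∀ IsIrrZ : Set (Fin n × Fin n × Fin n → ℂ) → Prop,
    (∀ Z, IsIrrZ Z ↔ (IsClosedZ Z ∧ Z.Nonempty ∧
        ∀ A B : Set (Fin n × Fin n × Fin n → ℂ), IsClosedZ A → IsClosedZ B →
          Z ⊆ A ∪ B → (Z ⊆ A ∨ Z ⊆ B))) →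
  ∀ Z : Set (Fin n × Fin n × Fin n → ℂ), IsIrrZ Z →
    (∀ c ∈ Z, ∀ u v w : Fin n → ℂ,
        μ c u (μ c v w) = μ c (μ c u v) w + μ c v (μ c u w)) →
    (∀ Z' : Set (Fin n × Fin n × Fin n → ℂ), IsIrrZ Z' → Z ⊆ Z' →
        (∀ c ∈ Z', ∀ u v w : Fin n → ℂ,
          μ c u (μ c v w) = μ c (μ c u v) w + μ c v (μ c u w)) → Z' = Z) →
    ∃ c ∈ Z, ¬ ∃ V : ℕ → Submodule ℂ (Fin n → ℂ),
        Monotone V ∧ V 0 = ⊥ ∧ (∃ m : ℕ, V m = ⊤) ∧
        ∀ (k : ℕ) (u v : Fin n → ℂ), v ∈ V (k + 1) →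
          (μ c u v ∈ V k ∧ μ c v u ∈ V k)) := by
  intro H
  obtain ⟨Z, hirr, hsub, hmax, hnil⟩ := Pool.Agent.Helper36.LeibFinal.exists_nilpotent_component
  obtain ⟨c, hc, hno⟩ := H 6 (by norm_num) Pool.Agent.Helper36.LeibCore.mu (fun _ _ _ => rfl)
    Pool.Agent.Helper36.LeibFinal.ZCl (fun _ => Iff.rfl)
    Pool.Agent.Helper36.LeibFinal.ZIrr (fun _ => Iff.rfl) Z hirr
    (fun c hc => hsub hc) (fun Z' h1 h2 h3 => hmax Z' h1 h2 h3)
  apply hno
  have hn := hnil c hc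
  let m := Pool.Agent.Helper36.LeibCore.muL c
  let A : Submodule ℂ (Fin 6 → ℂ) :=
    { carrier := {x | ∀ y, m x y = 0 ∧ m y x = 0}
      add_mem' := by
        intro a b ha hb y
        refine ⟨?_, ?_⟩
        · rw [map_add, LinearMap.add_apply, (ha y).1, (hb y).1, add_zero]
        · rw [map_add, (ha y).2, (hb y).2, add_zero]
      zero_mem' := by
        intro y
        simp
      smul_mem' := by
        intro r a ha y
        refine ⟨?_, ?_⟩
        · rw [map_smul, LinearMap.smul_apply, (ha y).1, smul_zero]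
        · rw [map_smul, (ha y).2, smul_zero] }
  refine ⟨fun k => if k = 0 then ⊥ else if k = 1 then A else ⊤, ?_, ?_, ⟨2, ?_⟩, ?_⟩
  · apply monotone_nat_of_le_succ
    intro k
    rcases k with _ | _ | k
    · simp
    · simp
    · simp
  · simp
  · simp
  · intro k u v hv
    rcases k with _ | _ | k
    · have hv' : v ∈ A := by simpa using hv
      have h := hv' u
      simp only [if_true, Submodule.mem_bot]
      exact ⟨h.2, h.1⟩
    · simp only [zero_add, one_ne_zero, if_false, if_true]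
      refine ⟨fun y => ⟨(hn u v y).1, (hn u v y).2⟩, fun y => ⟨(hn v u y).1, (hn v u y).2⟩⟩
    · simp

end Pool.Agent.S01752
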