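import Pool.Statements.S01856
import Pool.Agent.Helper87.EX.Frozen
import Pool.Agent.Helper17.EXP.Pack

set_option autoImplicit false
open scoped Manifold ContDiff
open Pool Pool.MP_6f8b02_al

namespace Pool.Agent.S01856

/-- The negation of the preceding statement: For every connected non-compact semisimple Lie group with finite center, in every positive degree the map from continuous bounded to continuous real cohomology (homogeneous invariant cochains) is onto and one-to-one. -/
theorem result :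
    ¬ (∀ (n : ℕ) (G : Type) [TopologicalSpace G] [Group G]
    [ChartedSpace (EuclideanSpace ℝ (Fin n)) G]
    [LieGroup 𝓘(ℝ, EuclideanSpace ℝ (Fin n)) ∞ G],
    ConnectedSpace G → ¬ CompactSpace G → Finite (Subgroup.center G) →
    LieAlgebra.IsSemisimple ℝ (LeftInvariantDerivation 𝓘(ℝ, EuclideanSpace ℝ (Fin n)) G) →
    ∀ k : ℕ,
      (∀ f : (Fin (k + 2) → G) → ℝ, Continuous f →
        (∀ (g : G) (x : Fin (k + 2) → G), f (fun j => g * x j) = f x) →
        (∀ x : Fin (k + 3) → G,
          ∑ i : Fin (k + 3), (-1 : ℝ) ^ (i : ℕ) * f (fun j => x (Fin.succAbove i j)) = 0) →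
        ∃ b : (Fin (k + 2) → G) → ℝ, Continuous b ∧
          (∀ (g : G) (x : Fin (k + 2) → G), b (fun j => g * x j) = b x) ∧
          (∃ C : ℝ, ∀ x : Fin (k + 2) → G, |b x| ≤ C) ∧
          ∃ h : (Fin (k + 1) → G) → ℝ, Continuous h ∧
            (∀ (g : G) (x : Fin (k + 1) → G), h (fun j => g * x j) = h x) ∧
            ∀ x : Fin (k + 2) → G,
              f x = b x + ∑ i : Fin (k + 2), (-1 : ℝ) ^ (i : ℕ) * h (fun j => x (Fin.succAbove i j))) ∧
      (∀ b : (Fin (k + 2) → G) → ℝ, Continuous b →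
        (∀ (g : G) (x : Fin (k + 2) → G), b (fun j => g * x j) = b x) →
        (∃ C : ℝ, ∀ x : Fin (k + 2) → G, |b x| ≤ C) →
        (∃ h : (Fin (k + 1) → G) → ℝ, Continuous h ∧
            (∀ (g : G) (x : Fin (k + 1) → G), h (fun j => g * x j) = h x) ∧
            ∀ x : Fin (k + 2) → G,
              b x = ∑ i : Fin (k + 2), (-1 : ℝ) ^ (i : ℕ) * h (fun j => x (Fin.succAbove i j))) →
        ∃ h' : (Fin (k + 1) → G) → ℝ, Continuous h' ∧
            (∀ (g : G) (x : Fin (k + 1) → G), h' (fun j => g * x j) = h' x) ∧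
            (∃ C : ℝ, ∀ x : Fin (k + 1) → G, |h' x| ≤ C) ∧
            ∀ x : Fin (k + 2) → G,
              b x = ∑ i : Fin (k + 2), (-1 : ℝ) ^ (i : ℕ) * h' (fun j => x (Fin.succAbove i j)))) := by
  exact Pool.Agent.Helper87.EX.frozen_of_pack Pool.Agent.Helper17.EXP.chartedG3
    Pool.Agent.Helper17.EXP.lieGroupG3 Pool.Agent.Helper17.EXP.connectedSpace_G3
    Pool.Agent.Helper17.EXP.not_compactSpace_G3 Pool.Agent.Helper17.EXP.finite_center_G3
    Pool.Agent.Helper17.EXP.isSemisimple_LD

end Pool.Agent.S01856
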