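import Pool.Statements.S01974
import Pool.Agent.Helper33.Tree9

set_option autoImplicit false
open Pool Pool.MP_77f213_al

namespace Pool.Agent.S01974

/-- The negation of the preceding statement: Whenever a group acts geometrically on two nonempty proper geodesic Gromov-hyperbolic spaces, among all (L,c)-quasi-isometries between them (L ≥ 1, not necessarily equivariant) some map attains the least possible multiplicative constant L. -/
theorem result :
    ¬ (∀ (G X₀ X₁ : Type) [Group G] [MetricSpace X₀] [MetricSpace X₁]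
      [ProperSpace X₀] [ProperSpace X₁] [Nonempty X₀] [Nonempty X₁]
      [MulAction G X₀] [MulAction G X₁] [IsIsometricSMul G X₀] [IsIsometricSMul G X₁]
      [ProperlyDiscontinuousSMul G X₀] [ProperlyDiscontinuousSMul G X₁],
      (∀ x y : X₀, ∃ γ : ℝ → X₀, γ 0 = x ∧ γ (dist x y) = y ∧
        ∀ s ∈ Set.Icc (0:ℝ) (dist x y), ∀ t ∈ Set.Icc (0:ℝ) (dist x y),
          dist (γ s) (γ t) = |s - t|) →
      (∀ x y : X₁, ∃ γ : ℝ → X₁, γ 0 = x ∧ γ (dist x y) = y ∧
        ∀ s ∈ Set.Icc (0:ℝ) (dist x y), ∀ t ∈ Set.Icc (0:ℝ) (dist x y),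
          dist (γ s) (γ t) = |s - t|) →
      (∃ K : Set X₀, IsCompact K ∧ ∀ x : X₀, ∃ g : G, g • x ∈ K) →
      (∃ K : Set X₁, IsCompact K ∧ ∀ x : X₁, ∃ g : G, g • x ∈ K) →
      (∃ δ : ℝ, ∀ x y z w : X₀,
        min ((dist x w + dist y w - dist x y) / 2) ((dist y w + dist z w - dist y z) / 2) - δ
          ≤ (dist x w + dist z w - dist x z) / 2) →
      (∃ δ : ℝ, ∀ x y z w : X₁,
        min ((dist x w + dist y w - dist x y) / 2) ((dist y w + dist z w - dist y z) / 2) - δ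
          ≤ (dist x w + dist z w - dist x z) / 2) →
      ∃ L : ℝ, 1 ≤ L ∧
        (∃ f : X₀ → X₁, ∃ c : ℝ,
          (∀ x y : X₀, dist x y / L - c ≤ dist (f x) (f y) ∧
              dist (f x) (f y) ≤ L * dist x y + c) ∧
          ∀ z : X₁, ∃ x : X₀, dist (f x) z ≤ c) ∧
        ∀ L' : ℝ, 1 ≤ L' →
          (∃ f : X₀ → X₁, ∃ c : ℝ,
            (∀ x y : X₀, dist x y / L' - c ≤ dist (f x) (f y) ∧
                dist (f x) (f y) ≤ L' * dist x y + c) ∧
            ∀ z : X₁, ∃ x : X₀, dist (f x) z ≤ c) →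
          L ≤ L') := by
  intro h
  have i4 : Nonempty (Pool.Agent.Helper33.Tree.Tr 4 Pool.Agent.Helper33.Tree.L3) :=
    ⟨Pool.Agent.Helper33.Tree.Tr.root _ _⟩
  have i3 : Nonempty (Pool.Agent.Helper33.Tree.Tr 3 Pool.Agent.Helper33.Tree.L2) :=
    ⟨Pool.Agent.Helper33.Tree.Tr.root _ _⟩
  obtain ⟨L, hL1, ⟨f, c, hf, -⟩, hmin⟩ :=
    h (Pool.Agent.Helper33.Tree.G Pool.Agent.Helper33.Tree.L3 Pool.Agent.Helper33.Tree.L2)
      (Pool.Agent.Helper33.Tree.Tr 4 Pool.Agent.Helper33.Tree.L3)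
      (Pool.Agent.Helper33.Tree.Tr 3 Pool.Agent.Helper33.Tree.L2)
      Pool.Agent.Helper33.Tree.Tr.geodesic Pool.Agent.Helper33.Tree.Tr.geodesic
      (Pool.Agent.Helper33.Tree.cocompact4 _ _) (Pool.Agent.Helper33.Tree.cocompact3 _ _)
      ⟨0, Pool.Agent.Helper33.Tree.Tr.hyperbolic⟩ ⟨0, Pool.Agent.Helper33.Tree.Tr.hyperbolic⟩
  rcases hL1.eq_or_lt with h1 | h1
  · subst h1
    apply Pool.Agent.Helper33.Tree.no_rough_isometry f c
    intro x y
    have := hf x y
    rwa [div_one, one_mul] at this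
  · have h2 := hmin ((1 + L) / 2) (by linarith)
      (Pool.Agent.Helper33.Tree.claimA ((1 + L) / 2) (by linarith))
    linarith

end Pool.Agent.S01974
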