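import Pool.Statements.S02505
import Pool.Agent.Helper80.KrMain

set_option autoImplicit false
open Pool Pool.MP_9fa67c_al

namespace Pool.Agent.S02505

/-- There is a group G with a finite resolution of trivial ℤ by finitely generated projective ℤG-modules such that H^i(G,ℤG) vanishes except in one positive degree n, where it is torsion-free but not a free abelian group. -/
theorem result :
    ∃ (G : Type) (_ : Group G) (m : ℕ)
      (P : ℕ → ModuleCat.{0} (MonoidAlgebra ℤ G))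
      (d : ∀ i : ℕ, P (i + 1) →ₗ[MonoidAlgebra ℤ G] P i)
      (ε : P 0 →+ ℤ),
      (∀ i : ℕ, Module.Finite (MonoidAlgebra ℤ G) (P i) ∧
          Module.Projective (MonoidAlgebra ℤ G) (P i)) ∧
      (∃ N : ℕ, ∀ i : ℕ, N < i → ∀ x : P i, x = 0) ∧
      (∀ g : G, ∀ x : P 0, ε (MonoidAlgebra.of ℤ G g • x) = ε x) ∧
      Function.Surjective ε ∧
      (∀ x : P 0, ε x = 0 ↔ ∃ y : P (0 + 1), d 0 y = x) ∧
      (∀ i : ℕ, ∀ x : P (i + 1), d i x = 0 ↔ ∃ y : P (i + 1 + 1), d (i + 1) y = x) ∧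
      (∀ φ : P 0 →ₗ[MonoidAlgebra ℤ G] MonoidAlgebra ℤ G, φ ∘ₗ d 0 = 0 → φ = 0) ∧
      (∀ i : ℕ, i ≠ m → ∀ φ : P (i + 1) →ₗ[MonoidAlgebra ℤ G] MonoidAlgebra ℤ G,
          φ ∘ₗ d (i + 1) = 0 →
            ∃ ψ : P i →ₗ[MonoidAlgebra ℤ G] MonoidAlgebra ℤ G, ψ ∘ₗ d i = φ) ∧
      (∀ φ : P (m + 1) →ₗ[MonoidAlgebra ℤ G] MonoidAlgebra ℤ G,
          φ ∘ₗ d (m + 1) = 0 → ∀ k : ℕ, 0 < k →
            (∃ ψ : P m →ₗ[MonoidAlgebra ℤ G] MonoidAlgebra ℤ G, ψ ∘ₗ d m = k • φ) →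
            ∃ ψ : P m →ₗ[MonoidAlgebra ℤ G] MonoidAlgebra ℤ G, ψ ∘ₗ d m = φ) ∧
      ¬ Module.Free ℤ
          (↥(AddSubgroup.closure
              {φ : P (m + 1) →ₗ[MonoidAlgebra ℤ G] MonoidAlgebra ℤ G | φ ∘ₗ d (m + 1) = 0}) ⧸
            (AddSubgroup.closure
              {φ : P (m + 1) →ₗ[MonoidAlgebra ℤ G] MonoidAlgebra ℤ G |
                ∃ ψ : P m →ₗ[MonoidAlgebra ℤ G] MonoidAlgebra ℤ G, ψ ∘ₗ d m = φ}).addSubgroupOf
              (AddSubgroup.closure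
                {φ : P (m + 1) →ₗ[MonoidAlgebra ℤ G] MonoidAlgebra ℤ G |
                  φ ∘ₗ d (m + 1) = 0})) := by
  refine ⟨Helper80.Kr.GG, inferInstance, 2, fun i => ModuleCat.of _ (Helper80.Kr.Ix i → Helper80.Kr.LL),
    Helper80.Kr.dd, (Helper80.Kr.aug : Helper80.Kr.LL →+ ℤ).comp
      (Pi.evalAddMonoidHom (fun _ : Helper80.Kr.Ix 0 => Helper80.Kr.LL) ()),
    fun i => ⟨?_, ?_⟩, ⟨3, ?_⟩, ?_, ?_, Helper80.Kr.r5, Helper80.Kr.r6, Helper80.Kr.r7,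
    Helper80.Kr.r8, fun φ _ k hk h => Helper80.Kr.r9 φ k hk h, Helper80.Kr.r10⟩
  · show Module.Finite Helper80.Kr.LL (Helper80.Kr.Ix i → Helper80.Kr.LL)
    infer_instance
  · show Module.Projective Helper80.Kr.LL (Helper80.Kr.Ix i → Helper80.Kr.LL)
    infer_instance
  · intro i hi x
    obtain ⟨n, rfl⟩ := Nat.exists_eq_add_of_lt hi
    have e : 3 + n + 1 = n + 4 := by ring
    revert x
    rw [e]
    intro x
    exact funext fun e => Empty.elim e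
  · intro g x
    show Helper80.Kr.aug (MonoidAlgebra.of ℤ Helper80.Kr.GG g * x ()) = Helper80.Kr.aug (x ())
    rw [map_mul]
    have h1 : Helper80.Kr.aug (MonoidAlgebra.of ℤ Helper80.Kr.GG g) = 1 :=
      Helper80.Kr.aug_single g 1
    rw [h1, one_mul]
  · intro n
    exact ⟨fun _ => MonoidAlgebra.single 1 n, Helper80.Kr.aug_single 1 n⟩

end Pool.Agent.S02505
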