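import Pool.Statements.S02578
import Pool.Agent.Helper30.GS11

set_option autoImplicit false
open Pool Pool.MP_a4a6a3_al

namespace Pool.Agent.S02578

/-- The negation of the preceding statement: If every element of a group G has finite order, G has an element of order 2, and each such element's centralizer is locally finite, then G has a nontrivial normal subgroup in which every finitely generated subgroup is finite. -/
theorem result :
    ¬ (∀ (G : Type) [Group G],
      Monoid.IsTorsion G →
      (∃ x : G, orderOf x = 2) →
      (∀ x : G, orderOf x = 2 →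
        ∀ s : Finset G, (↑s : Set G) ⊆ ↑(Subgroup.centralizer ({x} : Set G)) →
          Finite (Subgroup.closure (↑s : Set G))) →
      ∃ N : Subgroup G, N.Normal ∧ N ≠ ⊥ ∧
        ∀ s : Finset G, (↑s : Set G) ⊆ ↑N → Finite (Subgroup.closure (↑s : Set G))) := by
  intro H
  obtain ⟨Γ, hΓ, hJI⟩ := Pool.Agent.Helper30.exists_JI
  have hinf := hJI.inf
  have hfg := hJI.fg
  obtain ⟨N, hN, hne, hlf⟩ := H Γ hJI.isTorsion hJI.exists_involution (by
    intro x hx s hs
    rcases hJI.dich s with h | h
    · exact h
    · exfalso
      have hx1 : x ≠ 1 := by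
        rintro rfl
        rw [orderOf_one] at hx
        exact absurd hx (by norm_num)
      apply hJI.centralizer hx1
      exact Subgroup.finiteIndex_of_le ((Subgroup.closure_le _).2 hs))
  have hfi := hJI.normal N hN hne
  have h1 : Group.FG N := inferInstance
  obtain ⟨S, hS⟩ := (Group.fg_iff_subgroup_fg _).1 h1
  have h2 : Finite (Subgroup.closure (S : Set Γ)) :=
    hlf S (by rw [← hS]; exact Subgroup.subset_closure)
  rw [hS] at h2
  have h3 : Finite (Γ ⧸ N) := inferInstance
  have h4 : Finite Γ :=
    Finite.of_equiv _ (Subgroup.groupEquivQuotientProdSubgroup (s := N)).symm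
  exact not_finite Γ

end Pool.Agent.S02578
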