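import Pool.Statements.S03348
import Pool.Agent.Helper8.StarReg.Ore

set_option autoImplicit false
open Pool Pool.MP_e2c23f_al

namespace Pool.Agent.S03348

open Pool.Agent.Helper8.StarReg

/-- The negation of the preceding statement: If a ring with involution is regular with proper involution and has a nonzero ideal inside every nonzero ideal, and each corner eRe is unit-regular for projections e in it, then the ring is unit-regular. -/
theorem result :
    ¬ (∀ (R : Type) [Ring R] [StarRing R],
      (∀ a : R, ∃ x : R, a = a * x * a) →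
      (∀ x : R, star x * x = 0 → x = 0) →
      ∀ M : TwoSidedIdeal R, M ≠ ⊥ →
        (∀ I : TwoSidedIdeal R, I ≠ ⊥ → M ≤ I) →
        (∀ e : R, e ∈ M → star e = e → e * e = e →
          ∀ a : R, e * a * e = a →
            ∃ u v : R, e * u * e = u ∧ e * v * e = v ∧ u * v = e ∧ v * u = e ∧
              a = a * u * a) →
        ∀ a : R, ∃ u : Rˣ, a = a * (u : R) * a) := by
  intro H
  let inst : StarRing RR := starRingOf RR RR_star
  have hreg : ∀ a : RR, ∃ x : RR, a = a * x * a := by
    intro a
    obtain ⟨x, hx, h⟩ := R_regular RR RR_fr RR_div a.1 a.2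
    exact ⟨⟨x, hx⟩, Subtype.ext h⟩
  have hprop : ∀ x : RR, star x * x = 0 → x = 0 := by
    intro x hx
    refine Subtype.ext (proper x.1 ?_)
    exact congrArg Subtype.val hx
  have hM0 : M RR ≠ ⊥ := by
    intro h
    obtain ⟨a, ha0, ha⟩ := exists_ne_zero_M RR RR_fr
    rw [h] at ha
    exact ha0 ((TwoSidedIdeal.mem_bot RR).1 ha)
  have hmin : ∀ I : TwoSidedIdeal RR, I ≠ ⊥ → M RR ≤ I := by
    intro I hI
    refine M_min RR RR_fr I ?_
    by_contra hcon
    push Not at hcon
    apply hI
    rw [eq_bot_iff]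
    intro x hx
    rw [TwoSidedIdeal.mem_bot]
    exact hcon x hx
  have hcorner : ∀ e : RR, e ∈ M RR → star e = e → e * e = e →
      ∀ a : RR, e * a * e = a →
        ∃ u v : RR, e * u * e = u ∧ e * v * e = v ∧ u * v = e ∧ v * u = e ∧ a = a * u * a := by
    intro e he hes hee a hae
    obtain ⟨u, v, hu, hv, h1, h2, h3, h4, h5⟩ := corner (mem_M.1 he) (congrArg Subtype.val hes)
      (congrArg Subtype.val hee) (congrArg Subtype.val hae)
    exact ⟨⟨u, RR_fr u hu⟩, ⟨v, RR_fr v hv⟩, Subtype.ext h1, Subtype.ext h2, Subtype.ext h3,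
      Subtype.ext h4, Subtype.ext h5⟩
  obtain ⟨u, hu⟩ := H RR hreg hprop (M RR) hM0 hmin hcorner (⟨xx, xx_mem⟩ : RR)
  exact not_unitRegular_xx u hu

end Pool.Agent.S03348
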