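import Pool.Statements.S03949
import Pool.Agent.Helper58.Bil.Final
import Pool.Agent.Helper76.Caustic.Geom

set_option autoImplicit false
open Pool Pool.MP_190632_an

namespace Pool.Agent.S03949

/-- There is a smooth strictly convex plane billiard table, mirror-symmetric about some line, with a convex caustic (boundary of a convex body inside it whose tangent chords reflect to tangent chords) that is not symmetric about that line. -/
theorem result :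
    ∃ (K D : Set (EuclideanSpace ℝ (Fin 2))) (γ : ℝ → EuclideanSpace ℝ (Fin 2))
      (a u : EuclideanSpace ℝ (Fin 2)),
      IsCompact K ∧ StrictConvex ℝ K ∧ (interior K).Nonempty ∧
      ContDiff ℝ ((⊤ : ℕ∞) : WithTop ℕ∞) γ ∧ Function.Periodic γ 1 ∧
      Set.InjOn γ (Set.Ico 0 1) ∧ (∀ t : ℝ, deriv γ t ≠ 0) ∧
      Set.range γ = frontier K ∧
      IsCompact D ∧ Convex ℝ D ∧ (interior D).Nonempty ∧ D ⊆ interior K ∧
      (∀ p ∈ frontier K, ∀ t : ℝ, p ≠ γ t →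
        ((∃ s : ℝ, p + s • (γ t - p) ∈ D) ∧
          ∃ n : EuclideanSpace ℝ (Fin 2), n ≠ 0 ∧ inner ℝ n (γ t - p) = 0 ∧
            ∀ y ∈ D, inner ℝ n (y - p) ≤ 0) →
        ((∃ s : ℝ, γ t + s • ((2 * inner ℝ (γ t - p) (deriv γ t) /
              inner ℝ (deriv γ t) (deriv γ t)) • deriv γ t - (γ t - p)) ∈ D) ∧
          ∃ n : EuclideanSpace ℝ (Fin 2), n ≠ 0 ∧
            inner ℝ n ((2 * inner ℝ (γ t - p) (deriv γ t) /
              inner ℝ (deriv γ t) (deriv γ t)) • deriv γ t - (γ t - p)) = 0 ∧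
            ∀ y ∈ D, inner ℝ n (y - γ t) ≤ 0)) ∧
      u ≠ 0 ∧
      (fun x => a + (2 * inner ℝ (x - a) u / inner ℝ u u) • u - (x - a)) '' frontier K
        = frontier K ∧
      (fun x => a + (2 * inner ℝ (x - a) u / inner ℝ u u) • u - (x - a)) '' frontier D
        ≠ frontier D := by
  obtain ⟨H, h, d, G⟩ := Pool.Agent.Helper58.Bil.exists_geomHyp
  have htop : ((⊤ : ℕ∞) : WithTop ℕ∞) ≠ 0 := by simp
  have D1 : ∀ f : ℝ → ℝ, ContDiff ℝ ((⊤ : ℕ∞) : WithTop ℕ∞) f →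
      ∀ x, HasDerivAt f (deriv f x) x := fun f hf x =>
    (hf.differentiable htop x).hasDerivAt
  have D2 : ∀ f : ℝ → ℝ, ContDiff ℝ ((⊤ : ℕ∞) : WithTop ℕ∞) f →
      ContDiff ℝ ((⊤ : ℕ∞) : WithTop ℕ∞) (deriv f) := fun f hf => by
    have h1 : ContDiff ℝ (((⊤ : ℕ∞) : WithTop ℕ∞) + 1) f := by simpa using hf
    exact ((contDiff_succ_iff_deriv (n := ((⊤ : ℕ∞) : WithTop ℕ∞))).1 h1).2.2
  exact Pool.Agent.Helper76.Caustic.geom G.sH
    (H1 := deriv H) (H2 := deriv (deriv H)) (h1 := deriv h) (h2 := deriv (deriv h))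
    ⟨D1 _ G.sH, D1 _ (D2 _ G.sH), G.pH, G.cH⟩ ⟨D1 _ G.sh, D1 _ (D2 _ G.sh), G.ph, G.ch⟩
    G.hpos G.hH d G.d0 G.d1 G.law2 G.law1 G.eH G.ne

end Pool.Agent.S03949
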