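-- Proof of the frozen statement S04283 (Classical Balian-Low theorem for every lattice).
import Pool.Statements.S04283
import Pool.Agent.Helper49.BLTMain

set_option autoImplicit false
open MeasureTheory
open Pool Pool.MP_32c791_an

namespace Pool.Agent.S04283

/-- For every dimension d and every lattice M·Z^{2d} in R^{2d}, if the Gabor system of g in L^2(R^d) over that lattice is a Riesz basis, then ∣x∣g is not in L^2 or g is not in H^1, i.e. ∣ξ∣ĝ is not in L^2. -/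
theorem result :
  ∀ (d : ℕ), 0 < d →
  ∀ (M : Matrix (Fin d ⊕ Fin d) (Fin d ⊕ Fin d) ℝ), M.det ≠ 0 →
  ∀ (g : (Fin d → ℝ) → ℂ), MemLp g 2 volume →
  ((∀ h : (Fin d → ℝ) → ℂ, MemLp h 2 volume →
      (∀ k : Fin d ⊕ Fin d → ℤ,
        ∫ x, (starRingEnd ℂ) (h x) *
          (Complex.exp (2 * (Real.pi : ℂ) * Complex.I *
              ((∑ j, Matrix.mulVec M (fun i => ((k i : ℤ) : ℝ)) (Sum.inr j) * x j : ℝ) : ℂ)) *
            g (x - fun j => Matrix.mulVec M (fun i => ((k i : ℤ) : ℝ)) (Sum.inl j))) = 0) →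
      h =ᵐ[volume] 0) ∧
    ∃ A B : ℝ, 0 < A ∧ 0 < B ∧
      ∀ (s : Finset (Fin d ⊕ Fin d → ℤ)) (c : (Fin d ⊕ Fin d → ℤ) → ℂ),
        A * ∑ k ∈ s, ‖c k‖ ^ 2 ≤
          ∫ x, ‖∑ k ∈ s, c k *
            (Complex.exp (2 * (Real.pi : ℂ) * Complex.I *
                ((∑ j, Matrix.mulVec M (fun i => ((k i : ℤ) : ℝ)) (Sum.inr j) * x j : ℝ) : ℂ)) *
              g (x - fun j => Matrix.mulVec M (fun i => ((k i : ℤ) : ℝ)) (Sum.inl j)))‖ ^ 2 ∧
        ∫ x, ‖∑ k ∈ s, c k *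
            (Complex.exp (2 * (Real.pi : ℂ) * Complex.I *
                ((∑ j, Matrix.mulVec M (fun i => ((k i : ℤ) : ℝ)) (Sum.inr j) * x j : ℝ) : ℂ)) *
              g (x - fun j => Matrix.mulVec M (fun i => ((k i : ℤ) : ℝ)) (Sum.inl j)))‖ ^ 2
          ≤ B * ∑ k ∈ s, ‖c k‖ ^ 2) →
  ¬ (Integrable (fun x : Fin d → ℝ => (∑ j, x j ^ 2) * ‖g x‖ ^ 2) volume ∧
     ∀ j : Fin d, ∃ h : (Fin d → ℝ) → ℂ, MemLp h 2 volume ∧
       ∀ φ : (Fin d → ℝ) → ℂ, ContDiff ℝ ((⊤ : ℕ∞) : WithTop ℕ∞) φ → HasCompactSupport φ →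
         ∫ x, g x * fderiv ℝ φ x (Pi.single j (1 : ℝ) : Fin d → ℝ) = - ∫ x, h x * φ x) := by
  rintro d hd M - g hg ⟨hcomp, hbd⟩ ⟨hint, hder⟩
  let j : Fin d := ⟨0, hd⟩
  obtain ⟨h, hh, hw⟩ := hder j
  -- multiplication by `2πi x_j`
  set h' : (Fin d → ℝ) → ℂ := fun x => 2 * (Real.pi : ℂ) * Complex.I * ((x j : ℝ) : ℂ) * g x
    with hh'def
  have hh' : MemLp h' 2 volume := by
    have hmeas : AEStronglyMeasurable h' volume := by
      apply AEStronglyMeasurable.mul _ hg.1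
      apply Continuous.aestronglyMeasurable
      fun_prop
    rw [memLp_two_iff_integrable_sq_norm hmeas]
    refine (hint.const_mul ((2 * Real.pi) ^ 2)).mono' ((hmeas.norm).pow 2) (ae_of_all _ fun x => ?_)
    have h1 : ‖h' x‖ = 2 * Real.pi * |x j| * ‖g x‖ := by
      rw [hh'def]
      simp only [norm_mul, Complex.norm_real, Complex.norm_I, Complex.norm_ofNat, mul_one,
        Real.norm_eq_abs, abs_of_pos Real.pi_pos]
    have h2 : x j ^ 2 ≤ ∑ i, x i ^ 2 :=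
      Finset.single_le_sum (f := fun i => x i ^ 2) (fun i _ => sq_nonneg _) (Finset.mem_univ j)
    rw [Real.norm_of_nonneg (by positivity), h1]
    calc (2 * Real.pi * |x j| * ‖g x‖) ^ 2 = (2 * Real.pi) ^ 2 * (x j ^ 2 * ‖g x‖ ^ 2) := by
          rw [← sq_abs (x j)]; ring
      _ ≤ (2 * Real.pi) ^ 2 * ((∑ i, x i ^ 2) * ‖g x‖ ^ 2) := by gcongr
  refine Pool.Agent.Helper49.BLT.balian_low_directional M hg hcomp hbd
    (Pi.single j 1) 0 0 (Pi.single j 1) ?_ (h := fun x => - h x) (h' := h') hh.neg hh' ?_ ?_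
  · simp [Pi.single_apply]
  · intro φ hφ hs
    have h1 := hw φ hφ hs
    have h2 : ∫ x, -h x * φ x = - ∫ x, h x * φ x := by
      rw [← integral_neg]
      apply integral_congr_ae
      exact ae_of_all _ fun x => by ring
    rw [h2, ← h1]
    apply integral_congr_ae
    apply ae_of_all
    intro x
    simp [Pool.Agent.Helper49.BLT.gen]
  · intro φ hφ hs
    apply integral_congr_ae
    apply ae_of_all
    intro x
    simp [Pool.Agent.Helper49.BLT.gen, hh'def, Pi.single_apply]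
    ring

end Pool.Agent.S04283
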