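-- Proof of frozen statement S04844 (negative answer to Snoha's question).
import Pool.Statements.S04844
import Pool.Agent.Helper43.SnohaPlane

set_option autoImplicit false
open Filter Topology
open Pool Pool.MP_613746_an

namespace Pool.Agent.S04844

/-- The negation of the preceding statement: For any nonempty compact metric space and commuting continuous maps f, g on it, some point x is uniformly recurrent for both: for each neighbourhood U of x, the times n with f^n(x) in U (resp. g^n(x) in U) have bounded gaps. -/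
theorem result :
    ¬ (∀ (X : Type) [MetricSpace X] [CompactSpace X] [Nonempty X]
      (f g : X → X), Continuous f → Continuous g → f ∘ g = g ∘ f →
      ∃ x : X,
        (∀ U ∈ 𝓝 x, ∃ N : ℕ, ∀ m : ℕ, ∃ k : ℕ, m ≤ k ∧ k ≤ m + N ∧ f^[k] x ∈ U) ∧
        (∀ U ∈ 𝓝 x, ∃ N : ℕ, ∀ m : ℕ, ∃ k : ℕ, m ≤ k ∧ k ≤ m + N ∧ g^[k] x ∈ U)) := by
  intro h
  obtain ⟨X, iT, iC, iM, iN, f, g, hf, hg, hfg, hno⟩ :=
    Pool.Agent.Helper43.Snoha.counterexample
  exact hno (@h X (TopologicalSpace.metrizableSpaceMetric X) iC iN f g hf hg hfg)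

end Pool.Agent.S04844
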