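import Pool.Statements.S05276
import Pool.Agent.Helper4.Voic.Main

set_option autoImplicit false
open Pool Pool.MP_85a523_an

namespace Pool.Agent.S05276

/-- The negation of the preceding statement: On a separable complex Hilbert space, every operator with trace-class self-commutator has a partner S, also with trace-class self-commutator, such that T⊕S equals a normal block operator plus a Hilbert–Schmidt operator. -/
theorem result :
    ¬ (∀ (H : Type) [NormedAddCommGroup H] [InnerProductSpace ℂ H] [CompleteSpace H]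
      [TopologicalSpace.SeparableSpace H]
      (HS TC : (H →L[ℂ] H) → Prop),
      (∀ A : H →L[ℂ] H, HS A ↔
        ∃ (ι : Type) (b : HilbertBasis ι ℂ H), Summable (fun i => ‖A (b i)‖ ^ 2)) →
      (∀ A : H →L[ℂ] H, TC A ↔
        ∃ B C : H →L[ℂ] H, HS B ∧ HS C ∧ A = B * C) →
      ∀ T : H →L[ℂ] H, TC (star T * T - T * star T) →
        ∃ S : H →L[ℂ] H, TC (star S * S - S * star S) ∧
          ∃ N11 N12 N21 N22 : H →L[ℂ] H,
            star N11 * N11 + star N21 * N21 = N11 * star N11 + N12 * star N12 ∧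
            star N11 * N12 + star N21 * N22 = N11 * star N21 + N12 * star N22 ∧
            star N12 * N11 + star N22 * N21 = N21 * star N11 + N22 * star N12 ∧
            star N12 * N12 + star N22 * N22 = N21 * star N21 + N22 * star N22 ∧
            HS (T - N11) ∧ HS N12 ∧ HS N21 ∧ HS (S - N22)) := by
  intro hall
  obtain ⟨S, _, N11, N12, N21, N22, h11, h12, h21, h22, ⟨ι1, b1, k1⟩, ⟨ι2, b2, k2⟩, ⟨ι3, b3, k3⟩, _⟩ :=
    hall Pool.Agent.Helper4.Voic.HH
      (fun A => ∃ (ι : Type) (b : HilbertBasis ι ℂ Pool.Agent.Helper4.Voic.HH),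
        Summable (fun i => ‖A (b i)‖ ^ 2))
      (fun A => ∃ B C : Pool.Agent.Helper4.Voic.HH →L[ℂ] Pool.Agent.Helper4.Voic.HH,
        (∃ (ι : Type) (b : HilbertBasis ι ℂ Pool.Agent.Helper4.Voic.HH),
          Summable (fun i => ‖B (b i)‖ ^ 2)) ∧
        (∃ (ι : Type) (b : HilbertBasis ι ℂ Pool.Agent.Helper4.Voic.HH),
          Summable (fun i => ‖C (b i)‖ ^ 2)) ∧ A = B * C)
      (fun _ => Iff.rfl) (fun _ => Iff.rfl) Pool.Agent.Helper4.Voic.T
      ⟨_, Pool.Agent.Helper4.Voic.PF,
        ⟨_, Pool.Agent.Helper4.Voic.bb, Pool.Agent.Helper4.Voic.summable_of_zero_off _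
          (fun p hp => Pool.Agent.Helper4.Voic.selfcomm_apply p hp)⟩,
        ⟨_, Pool.Agent.Helper4.Voic.bb, Pool.Agent.Helper4.Voic.summable_of_zero_off _
          (fun p hp => by rw [Pool.Agent.Helper4.Voic.PF_apply, if_neg hp])⟩,
        Pool.Agent.Helper4.Voic.selfcomm_factor⟩
  exact Pool.Agent.Helper4.Voic.no_partner N11 N12 N21 N22 h11 h12 h21 h22
    (Pool.Agent.Helper4.Voic.hs_basis b1 _ _ k1)
    (Pool.Agent.Helper4.Voic.hs_adj b1 _ _ k1)
    (Pool.Agent.Helper4.Voic.hs_basis b3 _ _ k3)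
    (Pool.Agent.Helper4.Voic.hs_adj b2 _ _ k2)

end Pool.Agent.S05276
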