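import Pool.Statements.S05855

set_option autoImplicit false
open Pool Pool.MP_b17c32_an

namespace Pool.Agent.S05855

open Filter Topology

/-- If a bounded operator `T` on a Banach space satisfies `‖z‖ = ‖T z‖ + ‖z - T z‖` for all `z`,
then its iterates converge strongly to an L-projection onto its fixed space. -/
theorem exists_Lproj_fixed {𝕜 Z : Type*} [RCLike 𝕜] [NormedAddCommGroup Z] [NormedSpace 𝕜 Z]
    [CompleteSpace Z] (T : Z →L[𝕜] Z) (hT : ∀ z, ‖z‖ = ‖T z‖ + ‖z - T z‖) :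
    ∃ P : Z →L[𝕜] Z, P.comp P = P ∧ (∀ z, T z = z ↔ P z = z) ∧
      ∀ z, ‖z‖ = ‖P z‖ + ‖z - P z‖ := by
  have hstep : ∀ (n : ℕ) (z : Z), (T ^ (n + 1)) z = T ((T ^ n) z) := by
    intro n z
    rw [pow_succ']
    rfl
  have hstep' : ∀ (n : ℕ) (z : Z), (T ^ (n + 1)) z = (T ^ n) (T z) := by
    intro n z
    rw [pow_succ]
    rfl
  have hsplit : ∀ (n : ℕ) (z : Z), ‖(T ^ n) z‖ + ‖z - (T ^ n) z‖ ≤ ‖z‖ := by
    intro n z
    induction n with
    | zero => simp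
    | succ n ih =>
      have h1 := hT ((T ^ n) z)
      rw [hstep]
      have h2 : ‖z - T ((T ^ n) z)‖ ≤ ‖z - (T ^ n) z‖ + ‖(T ^ n) z - T ((T ^ n) z)‖ := by
        have := norm_add_le (z - (T ^ n) z) ((T ^ n) z - T ((T ^ n) z))
        simpa using this
      linarith
  have hsum : ∀ (z : Z) (n : ℕ),
      ∑ i ∈ Finset.range n, dist ((T ^ i) z) ((T ^ (i + 1)) z) ≤ ‖z‖ := by
    intro z n
    have h : ∑ i ∈ Finset.range n, dist ((T ^ i) z) ((T ^ (i + 1)) z) = ‖z‖ - ‖(T ^ n) z‖ := by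
      induction n with
      | zero => simp
      | succ n ih =>
        rw [Finset.sum_range_succ, ih, dist_eq_norm, hstep]
        have := hT ((T ^ n) z)
        linarith
    rw [h]
    have := norm_nonneg ((T ^ n) z)
    linarith
  have hcau : ∀ z : Z, CauchySeq (fun n => (T ^ n) z) := by
    intro z
    refine cauchySeq_of_summable_dist ?_
    exact summable_of_sum_range_le (fun n => dist_nonneg) (hsum z)
  have hlim : ∀ z : Z, ∃ y, Tendsto (fun n => (T ^ n) z) atTop (𝓝 y) := fun z =>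
    cauchySeq_tendsto_of_complete (hcau z)
  choose p hp using hlim
  have hpadd : ∀ x y, p (x + y) = p x + p y := by
    intro x y
    refine tendsto_nhds_unique (hp (x + y)) ?_
    have := (hp x).add (hp y)
    simpa using this
  have hpsmul : ∀ (c : 𝕜) x, p (c • x) = c • p x := by
    intro c x
    refine tendsto_nhds_unique (hp (c • x)) ?_
    have := (hp x).const_smul c
    simpa using this
  have hpsplit : ∀ z, ‖p z‖ + ‖z - p z‖ ≤ ‖z‖ := by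
    intro z
    have h1 : Tendsto (fun n => ‖(T ^ n) z‖ + ‖z - (T ^ n) z‖) atTop
        (𝓝 (‖p z‖ + ‖z - p z‖)) :=
      (hp z).norm.add ((tendsto_const_nhds.sub (hp z)).norm)
    exact le_of_tendsto' h1 (fun n => hsplit n z)
  have hpbound : ∀ z, ‖p z‖ ≤ 1 * ‖z‖ := by
    intro z
    have := hpsplit z
    have := norm_nonneg (z - p z)
    linarith
  let P0 : Z →ₗ[𝕜] Z :=
    { toFun := p
      map_add' := hpadd
      map_smul' := hpsmul }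
  let P : Z →L[𝕜] Z := P0.mkContinuous 1 hpbound
  have hPp : ∀ z, P z = p z := fun z => rfl
  have hTp : ∀ z, T (p z) = p z := by
    intro z
    refine tendsto_nhds_unique ?_ ((tendsto_add_atTop_iff_nat 1).2 (hp z))
    have := (T.continuous.tendsto (p z)).comp (hp z)
    refine this.congr ?_
    intro n
    simp [hstep]
  have hfix : ∀ z, T z = z → p z = z := by
    intro z hz
    refine tendsto_nhds_unique (hp z) ?_
    have hn : ∀ n : ℕ, (T ^ n) z = z := by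
      intro n
      induction n with
      | zero => simp
      | succ n ih => rw [hstep, ih, hz]
    simp [hn]
  refine ⟨P, ?_, ?_, ?_⟩
  · ext z
    change p (p z) = p z
    exact hfix _ (hTp z)
  · intro z
    constructor
    · intro h
      exact hfix z h
    · intro h
      have h' : p z = z := h
      rw [← h']
      exact hTp z
  · intro z
    rw [hPp]
    refine le_antisymm ?_ (hpsplit z)
    have := norm_add_le (p z) (z - p z)
    simpa using this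

/-- Separation of a point from a closed subspace. -/
theorem exists_separating {𝕜 X : Type*} [RCLike 𝕜] [NormedAddCommGroup X] [NormedSpace 𝕜 X]
    (W : Submodule 𝕜 X) (hW : IsClosed (W : Set X)) (x : X) (hx : x ∉ W) :
    ∃ f : X →L[𝕜] 𝕜, f x ≠ 0 ∧ ∀ w ∈ W, f w = 0 := by
  have := hW
  have hx0 : (Submodule.Quotient.mk x : X ⧸ W) ≠ 0 := by
    intro h
    exact hx ((Submodule.Quotient.mk_eq_zero W).1 h)
  obtain ⟨g, -, hg⟩ := exists_dual_vector 𝕜 (Submodule.Quotient.mk x : X ⧸ W)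
    (norm_ne_zero_iff.2 hx0)
  refine ⟨g.comp W.mkQL, ?_, ?_⟩
  · intro h0
    have h1 : g (Submodule.Quotient.mk x : X ⧸ W) = 0 := h0
    rw [hg] at h1
    have h2 : ‖(Submodule.Quotient.mk x : X ⧸ W)‖ = 0 := by exact_mod_cast h1
    exact hx0 (norm_eq_zero.1 h2)
  · intro w hw
    change g (Submodule.Quotient.mk w : X ⧸ W) = 0
    rw [(Submodule.Quotient.mk_eq_zero W).2 hw, map_zero]

/-- Over ℝ or ℂ, if a Banach space X is L-embedded (an L-summand in its bidual) and a closed subspace W is an ideal (its annihilator is the kernel of a norm-at-most-one projection on the dual), then W is L-embedded. -/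
theorem result :
    ∀ (𝕜 : Type) [RCLike 𝕜] (X : Type) [NormedAddCommGroup X] [NormedSpace 𝕜 X]
      [CompleteSpace X] (W : Submodule 𝕜 X),
      (∃ Q : ((X →L[𝕜] 𝕜) →L[𝕜] 𝕜) →L[𝕜] ((X →L[𝕜] 𝕜) →L[𝕜] 𝕜),
          Q.comp Q = Q ∧
          (∀ Φ : (X →L[𝕜] 𝕜) →L[𝕜] 𝕜, (∃ x : X, ∀ f : X →L[𝕜] 𝕜, Φ f = f x) ↔ Q Φ = Φ) ∧
          (∀ Φ : (X →L[𝕜] 𝕜) →L[𝕜] 𝕜, ‖Φ‖ = ‖Q Φ‖ + ‖Φ - Q Φ‖)) →
      IsClosed (W : Set X) →
      (∃ P : (X →L[𝕜] 𝕜) →L[𝕜] (X →L[𝕜] 𝕜),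
          P.comp P = P ∧ ‖P‖ ≤ 1 ∧
          (∀ f : X →L[𝕜] 𝕜, P f = 0 ↔ ∀ w ∈ W, f w = 0)) →
      (∃ Q : ((W →L[𝕜] 𝕜) →L[𝕜] 𝕜) →L[𝕜] ((W →L[𝕜] 𝕜) →L[𝕜] 𝕜),
          Q.comp Q = Q ∧
          (∀ Φ : (W →L[𝕜] 𝕜) →L[𝕜] 𝕜, (∃ y : W, ∀ f : W →L[𝕜] 𝕜, Φ f = f y) ↔ Q Φ = Φ) ∧
          (∀ Φ : (W →L[𝕜] 𝕜) →L[𝕜] 𝕜, ‖Φ‖ = ‖Q Φ‖ + ‖Φ - Q Φ‖)) := by
  intro 𝕜 _ X _ _ _ W ⟨Q, hQQ, hQX, hQL⟩ hW ⟨P, hPP, hP1, hPker⟩
  classical
  -- Hahn–Banach extensions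
  have hext : ∀ g : W →L[𝕜] 𝕜, ∃ f : X →L[𝕜] 𝕜, (∀ w : W, f w = g w) ∧ ‖f‖ = ‖g‖ := by
    intro g
    exact exists_extension_norm_eq W g
  choose ext hext1 hext2 using hext
  have hPcongr : ∀ f f' : X →L[𝕜] 𝕜, (∀ w : W, f w = f' w) → P f = P f' := by
    intro f f' h
    have h0 : P (f - f') = 0 := by
      rw [hPker]
      intro w hw
      have := h ⟨w, hw⟩
      change f w - f' w = 0
      rw [sub_eq_zero]
      exact this
    rw [map_sub, sub_eq_zero] at h0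
    exact h0
  have hPres : ∀ (f : X →L[𝕜] 𝕜) (w : W), P f w = f w := by
    intro f w
    have h0 : P (P f - f) = 0 := by
      rw [map_sub]
      have : P (P f) = P f := by
        have := congrArg (fun L => L f) hPP
        simpa using this
      rw [this, sub_self]
    rw [hPker] at h0
    have := h0 w w.2
    simpa [sub_eq_zero] using this
  -- the extension operator
  let φ0 : (W →L[𝕜] 𝕜) →ₗ[𝕜] (X →L[𝕜] 𝕜) :=
    { toFun := fun g => P (ext g)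
      map_add' := by
        intro g h
        rw [← map_add]
        refine hPcongr _ _ ?_
        intro w
        simp [hext1]
      map_smul' := by
        intro c g
        rw [RingHom.id_apply, ← map_smul]
        refine hPcongr _ _ ?_
        intro w
        simp [hext1] }
  have hφ0 : ∀ g, ‖φ0 g‖ ≤ 1 * ‖g‖ := by
    intro g
    change ‖P (ext g)‖ ≤ 1 * ‖g‖
    calc ‖P (ext g)‖ ≤ ‖P‖ * ‖ext g‖ := P.le_opNorm _
      _ ≤ 1 * ‖ext g‖ := by gcongr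
      _ = 1 * ‖g‖ := by rw [hext2]
  let φ : (W →L[𝕜] 𝕜) →L[𝕜] (X →L[𝕜] 𝕜) := φ0.mkContinuous 1 hφ0
  have hφnorm : ‖φ‖ ≤ 1 := LinearMap.mkContinuous_norm_le _ zero_le_one _
  have hφres : ∀ (g : W →L[𝕜] 𝕜) (w : W), φ g w = g w := by
    intro g w
    change P (ext g) w = g w
    rw [hPres, hext1]
  -- restriction
  let res : (X →L[𝕜] 𝕜) →L[𝕜] (W →L[𝕜] 𝕜) :=
    (ContinuousLinearMap.compL 𝕜 W X 𝕜).flip W.subtypeL
  have hres : ∀ (f : X →L[𝕜] 𝕜) (w : W), res f w = f w := fun f w => rfl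
  have hresnorm : ∀ f, ‖res f‖ ≤ ‖f‖ := by
    intro f
    refine ContinuousLinearMap.opNorm_le_bound _ (norm_nonneg _) ?_
    intro w
    rw [hres]
    exact f.le_opNorm _
  have hresφ : ∀ g, res (φ g) = g := by
    intro g
    ext w
    rw [hres, hφres]
  -- J : W** → X**, pre-composition with res; ψ : X** → W**, pre-composition with φ
  let J : ((W →L[𝕜] 𝕜) →L[𝕜] 𝕜) →L[𝕜] ((X →L[𝕜] 𝕜) →L[𝕜] 𝕜) :=
    (ContinuousLinearMap.compL 𝕜 (X →L[𝕜] 𝕜) (W →L[𝕜] 𝕜) 𝕜).flip res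
  have hJ : ∀ Φ f, J Φ f = Φ (res f) := fun Φ f => rfl
  let ψ : ((X →L[𝕜] 𝕜) →L[𝕜] 𝕜) →L[𝕜] ((W →L[𝕜] 𝕜) →L[𝕜] 𝕜) :=
    (ContinuousLinearMap.compL 𝕜 (W →L[𝕜] 𝕜) (X →L[𝕜] 𝕜) 𝕜).flip φ
  have hψ : ∀ Φ g, ψ Φ g = Φ (φ g) := fun Φ g => rfl
  have hJnorm : ∀ Φ, ‖J Φ‖ ≤ ‖Φ‖ := by
    intro Φ
    refine ContinuousLinearMap.opNorm_le_bound _ (norm_nonneg Φ) ?_
    intro f
    rw [hJ]
    calc ‖Φ (res f)‖ ≤ ‖Φ‖ * ‖res f‖ := Φ.le_opNorm _
      _ ≤ ‖Φ‖ * ‖f‖ := by gcongr; exact hresnorm f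
  have hψnorm : ∀ Φ, ‖ψ Φ‖ ≤ ‖Φ‖ := by
    intro Φ
    refine ContinuousLinearMap.opNorm_le_bound _ (norm_nonneg Φ) ?_
    intro g
    rw [hψ]
    calc ‖Φ (φ g)‖ ≤ ‖Φ‖ * ‖φ g‖ := Φ.le_opNorm _
      _ ≤ ‖Φ‖ * ‖g‖ := by
        gcongr
        calc ‖φ g‖ ≤ ‖φ‖ * ‖g‖ := φ.le_opNorm _
          _ ≤ 1 * ‖g‖ := by gcongr
          _ = ‖g‖ := one_mul _
  have hψJ : ∀ Φ, ψ (J Φ) = Φ := by
    intro Φ
    ext g
    rw [hψ, hJ, hresφ]
  -- the operator Pi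
  let T : ((W →L[𝕜] 𝕜) →L[𝕜] 𝕜) →L[𝕜] ((W →L[𝕜] 𝕜) →L[𝕜] 𝕜) := ψ.comp (Q.comp J)
  have hTdef : ∀ Φ, T Φ = ψ (Q (J Φ)) := fun Φ => rfl
  have hTsub : ∀ Φ, Φ - T Φ = ψ (J Φ - Q (J Φ)) := by
    intro Φ
    rw [hTdef]
    have h := map_sub ψ (J Φ) (Q (J Φ))
    rw [h, hψJ]
  have hT1 : ∀ Φ, ‖T Φ‖ ≤ ‖Q (J Φ)‖ := fun Φ => hψnorm _
  have hT2 : ∀ Φ, ‖Φ - T Φ‖ ≤ ‖J Φ - Q (J Φ)‖ := by
    intro Φ
    rw [hTsub]
    exact hψnorm _
  have htri : ∀ Φ, ‖Φ‖ ≤ ‖T Φ‖ + ‖Φ - T Φ‖ := by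
    intro Φ
    have h := norm_add_le (T Φ) (Φ - T Φ)
    have h' : T Φ + (Φ - T Φ) = Φ := add_sub_cancel (T Φ) Φ
    rw [h'] at h
    exact h
  have hTL : ∀ Φ, ‖Φ‖ = ‖T Φ‖ + ‖Φ - T Φ‖ := by
    intro Φ
    have h1 := hT1 Φ
    have h2 := hT2 Φ
    have h3 := htri Φ
    have h4 := hQL (J Φ)
    have h5 := hJnorm Φ
    linarith
  have hTeq : ∀ Φ, ‖Φ - T Φ‖ = ‖J Φ - Q (J Φ)‖ := by
    intro Φ
    have h1 := hT1 Φ
    have h2 := hT2 Φ
    have h3 := htri Φ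
    have h4 := hQL (J Φ)
    have h5 := hJnorm Φ
    linarith
  -- the fixed points of Pi are the elements of W
  have hfix : ∀ Φ : (W →L[𝕜] 𝕜) →L[𝕜] 𝕜, (∃ y : W, ∀ f : W →L[𝕜] 𝕜, Φ f = f y) ↔ T Φ = Φ := by
    intro Φ
    have key : T Φ = Φ ↔ Q (J Φ) = J Φ := by
      have h := hTeq Φ
      constructor
      · intro h1
        have h2 : ‖Φ - T Φ‖ = 0 := by
          rw [h1]
          exact (norm_sub_eq_zero_iff (a := Φ) (b := Φ)).2 rfl
        rw [h2] at h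
        exact ((norm_sub_eq_zero_iff (a := J Φ) (b := Q (J Φ))).1 h.symm).symm
      · intro h1
        have h2 : ‖J Φ - Q (J Φ)‖ = 0 := by
          rw [h1]
          exact (norm_sub_eq_zero_iff (a := J Φ) (b := J Φ)).2 rfl
        rw [h2] at h
        exact ((norm_sub_eq_zero_iff (a := Φ) (b := T Φ)).1 h).symm
    rw [key, ← hQX]
    constructor
    · rintro ⟨y, hy⟩
      refine ⟨(y : X), ?_⟩
      intro f
      rw [hJ, hy, hres]
    · rintro ⟨x, hx⟩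
      have hxW : x ∈ W := by
        by_contra hxn
        obtain ⟨f, hf1, hf2⟩ : ∃ f : X →L[𝕜] 𝕜, f x ≠ 0 ∧ ∀ w ∈ W, f w = 0 :=
          exists_separating W hW x hxn
        have h1 := hx f
        rw [hJ] at h1
        have h2 : res f = 0 := by
          ext w
          rw [hres]
          exact hf2 w w.2
        rw [h2, map_zero] at h1
        exact hf1 h1.symm
      refine ⟨⟨x, hxW⟩, ?_⟩
      intro g
      have h1 := hx (φ g)
      rw [hJ, hresφ] at h1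
      rw [h1]
      exact hφres g ⟨x, hxW⟩
  obtain ⟨R, hR1, hR2, hR3⟩ :=
    exists_Lproj_fixed (𝕜 := 𝕜) (Z := (W →L[𝕜] 𝕜) →L[𝕜] 𝕜) T hTL
  refine ⟨R, hR1, ?_, hR3⟩
  intro Φ
  rw [hfix Φ]
  exact hR2 Φ

end Pool.Agent.S05855
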