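import Pool.Statements.S06121

set_option autoImplicit false
open Pool Pool.MP_c8dc36_an

namespace Pool.Agent.S06121

open CStarAlgebra Unitization CFC Filter Topology

section Unital
variable {B : Type*} [CStarAlgebra B] [PartialOrder B] [StarOrderedRing B] [Nontrivial B]

theorem norm_le_of_le {q : B} {R : ℝ} (hq : 0 ≤ q) (h : q ≤ R • (1 : B)) : ‖q‖ ≤ R := by
  have hR : 0 ≤ R := by
    by_contra hneg
    push Not at hneg
    have h1 : (0 : B) ≤ R • (1 : B) := hq.trans h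
    have h2 : R • (1 : B) ≤ 0 := by
      have : (0 : B) ≤ (-R) • (1 : B) := smul_nonneg (by linarith) zero_le_one
      rw [neg_smul] at this
      exact neg_nonneg.1 this
    have h3 : R • (1 : B) = 0 := le_antisymm h2 h1
    rcases smul_eq_zero.1 h3 with h4 | h4
    · linarith
    · exact one_ne_zero h4
  rw [norm_le_iff_le_algebraMap q hR hq, Algebra.algebraMap_eq_smul_one]
  exact h

omit [Nontrivial B] in
theorem le_norm_smul {q : B} (hq : 0 ≤ q) : q ≤ ‖q‖ • (1 : B) := by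
  have := (norm_le_iff_le_algebraMap q (norm_nonneg _) hq).1 le_rfl
  rwa [Algebra.algebraMap_eq_smul_one] at this

/-- upper estimate -/
theorem upper {x G e : B} {lam C r t : ℝ} (hx0 : 0 ≤ x) (hG0 : 0 ≤ G) (ht : 0 < t) (hC : 0 ≤ C)
    (hCt : C ≤ t) (hGt : t ≤ ‖G‖)
    (hx : x ≤ lam • (1 : B) + C • (1 - e)) (hG : G ≤ t • e + r • (1 : B)) :
    ‖x + G‖ ≤ lam + ‖G‖ + C * r / t := by
  have h1 : 0 ≤ (C / t) • (t • e + r • (1 : B) - G) :=
    smul_nonneg (by positivity) (sub_nonneg.2 hG)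
  have h2 : 0 ≤ (1 - C / t) • (‖G‖ • (1 : B) - G) := by
    refine smul_nonneg ?_ (sub_nonneg.2 (le_norm_smul hG0))
    rw [sub_nonneg, div_le_one ht]
    exact hCt
  have h3 : 0 ≤ lam • (1 : B) + C • (1 - e) - x := sub_nonneg.2 hx
  have h4 : x + G ≤ (lam + C + C * r / t + (1 - C / t) * ‖G‖) • (1 : B) := by
    rw [← sub_nonneg]
    have h5 : (lam + C + C * r / t + (1 - C / t) * ‖G‖) • (1 : B) - (x + G)
        = (lam • (1 : B) + C • (1 - e) - x) + (C / t) • (t • e + r • (1 : B) - G)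
          + (1 - C / t) • (‖G‖ • (1 : B) - G) := by
      have h6 : C = (C / t) * t := by field_simp
      have h7 : C • e = ((C / t) * t) • e := by rw [← h6]
      have h8 : C * r / t = (C / t) * r := by ring
      rw [smul_sub C, h7, h8]
      module
    rw [h5]
    exact add_nonneg (add_nonneg h3 h1) h2
  have h9 := norm_le_of_le (add_nonneg hx0 hG0) h4
  refine h9.trans ?_
  have h10 : C ≤ (C / t) * ‖G‖ := by
    calc C = (C / t) * t := by field_simp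
      _ ≤ (C / t) * ‖G‖ := by gcongr
  nlinarith

/-- lower estimate -/
theorem lower {p q e : B} {m C r t : ℝ} (hp0 : 0 ≤ p) (hq0 : 0 ≤ q) (ht : 0 < t) (hC : 0 ≤ C)
    (hqt : t ≤ ‖q‖) (hp : q + m • (1 : B) - C • (1 - e) ≤ p) (hq : q ≤ t • e + r • (1 : B)) :
    ‖q‖ + m - C * r / t ≤ ‖p‖ := by
  have h1 : 0 ≤ (C / t) • (t • e + r • (1 : B) - q) :=
    smul_nonneg (by positivity) (sub_nonneg.2 hq)
  have h2 : 0 ≤ ‖p‖ • (1 : B) - p := sub_nonneg.2 (le_norm_smul hp0)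
  have h3 : 0 ≤ p - (q + m • (1 : B) - C • (1 - e)) := sub_nonneg.2 hp
  have h4 : (1 + C / t) • q ≤ (‖p‖ - m + C + C * r / t) • (1 : B) := by
    rw [← sub_nonneg]
    have h5 : (‖p‖ - m + C + C * r / t) • (1 : B) - (1 + C / t) • q
        = (p - (q + m • (1 : B) - C • (1 - e))) + (C / t) • (t • e + r • (1 : B) - q)
          + (‖p‖ • (1 : B) - p) := by
      have h6 : C = (C / t) * t := by field_simp
      have h7 : C • e = ((C / t) * t) • e := by rw [← h6]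
      have h8 : C * r / t = (C / t) * r := by ring
      rw [smul_sub C, h7, h8]
      module
    rw [h5]
    exact add_nonneg (add_nonneg h3 h1) h2
  have h0 : 0 ≤ 1 + C / t := by positivity
  have h9 := norm_le_of_le (smul_nonneg h0 hq0) h4
  rw [norm_smul, Real.norm_of_nonneg h0] at h9
  have h10 : C ≤ (C / t) * ‖q‖ := by
    calc C = (C / t) * t := by field_simp
      _ ≤ (C / t) * ‖q‖ := by gcongr
  nlinarith

end Unital


section NonUnital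
variable {A : Type*} [NonUnitalCStarAlgebra A] [PartialOrder A] [StarOrderedRing A]

omit [NonUnitalCStarAlgebra A] [PartialOrder A] [StarOrderedRing A] in
/-- an element of the unitization with vanishing scalar part comes from the algebra -/
theorem inr_snd_of_fst {d : A⁺¹} (h : d.fst = 0) : ((d.snd : A) : A⁺¹) = d := by
  ext <;> simp [h]

theorem fst_nonneg {d : A⁺¹} (h : 0 ≤ d) : ∃ s : ℝ, 0 ≤ s ∧ d.fst = (s : ℂ) := by
  obtain ⟨b, hb⟩ := CStarAlgebra.nonneg_iff_eq_star_mul_self.1 h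
  refine ⟨‖b.fst‖ ^ 2, by positivity, ?_⟩
  rw [hb, fst_mul, fst_star]
  have := RCLike.conj_mul b.fst
  simpa using this

/-- the key limiting argument in the non-unital case -/
theorem le_of_approx {G e : A} {t r : ℝ} (hG0 : 0 ≤ G) (he0 : 0 ≤ e) (he1 : ‖e‖ ≤ 1)
    (ht : 0 ≤ t) (hr : 0 ≤ r)
    (H : ∀ z : A, 0 ≤ z → ‖t • e + z‖ ≤ t → ‖G + z‖ ≤ t + r) :
    (G : A⁺¹) ≤ t • (e : A⁺¹) + r • (1 : A⁺¹) := by
  have he : (e : A⁺¹) ≤ 1 := by
    have := (inr_mem_Icc_iff_norm_le (x := e)).2 ⟨he0, he1⟩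
    exact this.2
  have h1e : (0 : A⁺¹) ≤ 1 - (e : A⁺¹) := sub_nonneg.2 he
  set s : A⁺¹ := CFC.sqrt (1 - (e : A⁺¹)) with hs
  have hss : s * s = 1 - (e : A⁺¹) := CFC.sqrt_mul_sqrt_self _ h1e
  have hs0 : 0 ≤ s := CFC.sqrt_nonneg _
  have hssa : IsSelfAdjoint s := .of_nonneg hs0
  -- the estimate for each contraction `u`
  have key : ∀ u : A, 0 ≤ u → ‖u‖ ≤ 1 →
      (G : A⁺¹) - t • (e : A⁺¹) - r • (1 : A⁺¹) ≤ t • (s * (1 - (u : A⁺¹)) * s) := by
    intro u hu0 hu1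
    have hu : (u : A⁺¹) ≤ 1 := ((inr_mem_Icc_iff_norm_le (x := u)).2 ⟨hu0, hu1⟩).2
    have hu0' : (0 : A⁺¹) ≤ (u : A⁺¹) := inr_nonneg_iff.2 hu0
    have hz : (((s * (u : A⁺¹) * s).snd : A) : A⁺¹) = s * (u : A⁺¹) * s := by
      apply inr_snd_of_fst
      simp
    set z : A := t • (s * (u : A⁺¹) * s).snd with hzdef
    have hz' : (z : A⁺¹) = t • (s * (u : A⁺¹) * s) := by
      rw [hzdef, inr_smul, hz]
    have hz0 : 0 ≤ z := by
      rw [← inr_nonneg_iff, hz']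
      exact smul_nonneg ht (hssa.conjugate_nonneg hu0')
    have hle : ‖t • e + z‖ ≤ t := by
      rw [← norm_inr (𝕜 := ℂ)]
      apply norm_le_of_le
      · rw [inr_nonneg_iff]
        exact add_nonneg (smul_nonneg ht he0) hz0
      · rw [inr_add, inr_smul, hz']
        have h2 : s * (u : A⁺¹) * s ≤ s * 1 * s := hssa.conjugate_le_conjugate hu
        rw [mul_one, hss] at h2
        calc t • (e : A⁺¹) + t • (s * (u : A⁺¹) * s) ≤ t • (e : A⁺¹) + t • (1 - (e : A⁺¹)) := by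
              gcongr
          _ = t • (1 : A⁺¹) := by module
    have h3 := H z hz0 hle
    have h4 : ((G + z : A) : A⁺¹) ≤ (t + r) • (1 : A⁺¹) := by
      have h5 : (0 : A⁺¹) ≤ ((G + z : A) : A⁺¹) := inr_nonneg_iff.2 (add_nonneg hG0 hz0)
      have h6 := le_norm_smul h5
      rw [norm_inr] at h6
      refine h6.trans ?_
      exact smul_le_smul_of_nonneg_right h3 zero_le_one
    rw [inr_add, hz'] at h4
    rw [← sub_nonneg] at h4 ⊢
    have h7 : t • (s * (1 - (u : A⁺¹)) * s) - ((G : A⁺¹) - t • (e : A⁺¹) - r • (1 : A⁺¹))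
        = (t + r) • (1 : A⁺¹) - ((G : A⁺¹) + t • (s * (u : A⁺¹) * s)) := by
      have h8 : s * (1 - (u : A⁺¹)) * s = (1 - (e : A⁺¹)) - s * (u : A⁺¹) * s := by
        rw [mul_sub, sub_mul, mul_one, hss]
      rw [h8]
      module
    rw [h7]
    exact h4
  -- negative part of the difference
  set D : A⁺¹ := t • (e : A⁺¹) + r • (1 : A⁺¹) - (G : A⁺¹) with hD
  have hDsa : IsSelfAdjoint D := by
    have h1 : IsSelfAdjoint (e : A⁺¹) := .of_nonneg (inr_nonneg_iff.2 he0)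
    have h2 : IsSelfAdjoint (G : A⁺¹) := .of_nonneg (inr_nonneg_iff.2 hG0)
    exact (((IsSelfAdjoint.all t).smul h1).add
      ((IsSelfAdjoint.all r).smul (IsSelfAdjoint.one _))).sub h2
  suffices h : D⁻ = 0 by
    have := (CFC.negPart_eq_zero_iff D hDsa).1 h
    rw [hD] at this
    exact sub_nonneg.1 this
  have hd0 : (0 : A⁺¹) ≤ D⁻ := CFC.negPart_nonneg D
  have hdsa : IsSelfAdjoint (D⁻) := .of_nonneg hd0
  have hfst : (D⁻).fst = 0 := by
    obtain ⟨a, ha0, ha⟩ := fst_nonneg (CFC.posPart_nonneg D)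
    obtain ⟨b, hb0, hb⟩ := fst_nonneg hd0
    have h1 : (D⁺ * D⁻).fst = 0 := by rw [CFC.posPart_mul_negPart]; simp
    have h2 : (D⁺ - D⁻).fst = (r : ℂ) := by
      rw [CFC.posPart_sub_negPart D hDsa, hD, sub_eq_add_neg, fst_add, fst_add, fst_neg, fst_smul,
        fst_smul, fst_inr, fst_inr, fst_one]
      simp
    rw [fst_mul, ha, hb] at h1
    rw [sub_eq_add_neg, fst_add, fst_neg, ha, hb] at h2
    have h1' : a * b = 0 := by exact_mod_cast h1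
    have h2' : a + -b = r := by exact_mod_cast h2
    rcases mul_eq_zero.1 h1' with h3 | h3
    · rw [hb]
      have : b = 0 := by linarith
      simp [this]
    · rw [hb]
      simp [h3]
  set d : A := (D⁻).snd with hd
  have hdD : (d : A⁺¹) = D⁻ := inr_snd_of_fst hfst
  -- conjugate
  have hcube : (d : A⁺¹) * (d : A⁺¹) * (d : A⁺¹) = (d : A⁺¹) * (-D) * (d : A⁺¹) := by
    have h1 : D = D⁺ - D⁻ := (CFC.posPart_sub_negPart D hDsa).symm
    rw [hdD]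
    have h2 : -D = D⁻ - D⁺ := by
      nth_rewrite 1 [h1]
      abel
    rw [h2, mul_sub, CFC.negPart_mul_posPart, sub_zero]
  have hnorm : ∀ u : A, 0 ≤ u → ‖u‖ ≤ 1 →
      ‖(d : A⁺¹) * (d : A⁺¹) * (d : A⁺¹)‖ ≤
        ‖(d : A⁺¹) * (t • (s * (1 - (u : A⁺¹)) * s)) * (d : A⁺¹)‖ := by
    intro u hu0 hu1
    apply norm_le_norm_of_nonneg_of_le
    · rw [hdD]
      exact hdsa.conjugate_nonneg hd0
    · rw [hcube]
      have h1 := key u hu0 hu1
      have h2 : (G : A⁺¹) - t • (e : A⁺¹) - r • (1 : A⁺¹) = -D := by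
        rw [hD]; abel
      rw [h2] at h1
      rw [hdD]
      exact hdsa.conjugate_le_conjugate h1
  have hlim : Tendsto (fun u : A => ‖(d : A⁺¹) * (t • (s * (1 - (u : A⁺¹)) * s)) * (d : A⁺¹)‖)
      (approximateUnit A) (𝓝 0) := by
    have hsd : (((s * (d : A⁺¹)).snd : A) : A⁺¹) = s * (d : A⁺¹) := by
      apply inr_snd_of_fst
      simp
    set q : A := (s * (d : A⁺¹)).snd with hq
    have h1 : Tendsto (fun u : A => u * q) (approximateUnit A) (𝓝 q) :=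
      (increasingApproximateUnit A).tendsto_mul_right q
    have h2 : Tendsto (fun u : A => ((q - u * q : A) : A⁺¹)) (approximateUnit A) (𝓝 0) := by
      have h3 : Tendsto (fun u : A => q - u * q) (approximateUnit A) (𝓝 (q - q)) :=
        tendsto_const_nhds.sub h1
      rw [sub_self] at h3
      have h4 := ((isometry_inr (𝕜 := ℂ) (A := A)).continuous.tendsto (0 : A)).comp h3
      simpa [Function.comp_def] using h4
    have h5 : ∀ u : A, (d : A⁺¹) * (t • (s * (1 - (u : A⁺¹)) * s)) * (d : A⁺¹)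
        = t • ((d : A⁺¹) * s * ((q - u * q : A) : A⁺¹)) := by
      intro u
      have h6 : ((q - u * q : A) : A⁺¹) = (1 - (u : A⁺¹)) * (s * (d : A⁺¹)) := by
        rw [inr_sub, inr_mul, hsd, sub_mul, one_mul]
      rw [h6]
      simp only [mul_smul_comm, smul_mul_assoc, mul_assoc]
    simp_rw [h5]
    have h7 : Tendsto (fun u : A => t • ((d : A⁺¹) * s * ((q - u * q : A) : A⁺¹)))
        (approximateUnit A) (𝓝 (t • ((d : A⁺¹) * s * 0))) :=
      (tendsto_const_nhds.mul h2).const_smul t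
    have h8 := h7.norm
    simpa using h8
  have hzero : ‖(d : A⁺¹) * (d : A⁺¹) * (d : A⁺¹)‖ ≤ 0 := by
    have hne : (approximateUnit A).NeBot := (increasingApproximateUnit A).neBot
    refine ge_of_tendsto hlim ?_
    filter_upwards [(increasingApproximateUnit A).eventually_nonneg,
      (increasingApproximateUnit A).eventually_norm] with u hu0 hu1
    exact hnorm u hu0 hu1
  have h1 : (d : A⁺¹) * (d : A⁺¹) * (d : A⁺¹) = 0 := by
    rw [← norm_le_zero_iff]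
    exact hzero
  rw [hdD] at h1
  have h2 : (D⁻ : A⁺¹) * D⁻ = 0 := by
    have h3 : star ((D⁻ : A⁺¹) * D⁻) * ((D⁻ : A⁺¹) * D⁻) = 0 := by
      rw [star_mul, hdsa.star_eq, ← mul_assoc, h1, zero_mul]
    exact (CStarRing.star_mul_self_eq_zero_iff _).1 h3
  have h4 : star (D⁻ : A⁺¹) * D⁻ = 0 := by rw [hdsa.star_eq, h2]
  exact (CStarRing.star_mul_self_eq_zero_iff _).1 h4

end NonUnital

section Peak
variable {A : Type*} [NonUnitalCStarAlgebra A] [PartialOrder A] [StarOrderedRing A]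

/-- if a self-adjoint `h` is at most the scalar `s ≥ 0` then its positive part has norm at most `s` -/
theorem norm_posPart_le_of_le {h : A} (hh : IsSelfAdjoint h) {s : ℝ} (hs : 0 ≤ s)
    (hle : (h : A⁺¹) ≤ s • (1 : A⁺¹)) : ‖h⁺‖ ≤ s := by
  have hh' : IsSelfAdjoint (h : A⁺¹) := hh.inr ℂ
  have h1 : ((h⁺ : A) : A⁺¹) = cfc (·⁺ : ℝ → ℝ) (h : A⁺¹) := by
    rw [CFC.posPart_def, real_cfcₙ_eq_cfc_inr h (·⁺ : ℝ → ℝ) (by simp)]
  rw [← norm_inr (𝕜 := ℂ)]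
  apply norm_le_of_le
  · exact inr_nonneg_iff.2 (CFC.posPart_nonneg h)
  · rw [h1, ← Algebra.algebraMap_eq_smul_one]
    refine cfc_le_algebraMap _ _ _ ?_
    intro x hx
    rw [← Algebra.algebraMap_eq_smul_one] at hle
    have := (le_algebraMap_iff_spectrum_le hh').1 hle x hx
    exact sup_le this hs

theorem inr_mono {a b : A} (ha : IsSelfAdjoint a) (hb : IsSelfAdjoint b) (h : a ≤ b) :
    (a : A⁺¹) ≤ (b : A⁺¹) := (inr_le_iff a b ha hb).2 h

theorem inr_le_norm_smul {q : A} (hq : 0 ≤ q) : (q : A⁺¹) ≤ ‖q‖ • (1 : A⁺¹) := by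
  have := le_norm_smul (inr_nonneg_iff.2 hq)
  rwa [norm_inr] at this

theorem exists_peak {h x : A} (hh : IsSelfAdjoint h) (hx : 0 ≤ x) (hpos : 0 < ‖h‖)
    (htop : ‖h⁺‖ = ‖h‖) {ε : ℝ} (hε : 0 < ε) :
    ∃ (e : A) (C lam : ℝ), 0 ≤ e ∧ ‖e‖ = 1 ∧ 0 ≤ C ∧
      (‖h‖ - ε) • (1 : A⁺¹) - C • (1 - (e : A⁺¹)) ≤ (h : A⁺¹) ∧
      lam • (1 : A⁺¹) - C • (1 - (e : A⁺¹)) ≤ (x : A⁺¹) ∧
      (x : A⁺¹) ≤ (lam + 2 * ε) • (1 : A⁺¹) + C • (1 - (e : A⁺¹)) := by
  set μ : ℝ := ‖h‖ with hμ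
  have hxsa : IsSelfAdjoint x := .of_nonneg hx
  have hx' : (0 : A⁺¹) ≤ (x : A⁺¹) := inr_nonneg_iff.2 hx
  have hhμ : (h : A⁺¹) ≤ μ • (1 : A⁺¹) := by
    have := (hh.inr ℂ).le_algebraMap_norm_self
    rwa [norm_inr, Algebra.algebraMap_eq_smul_one] at this
  have hhμ' : -(μ • (1 : A⁺¹)) ≤ (h : A⁺¹) := by
    have := (hh.inr ℂ).neg_algebraMap_norm_le_self
    rwa [norm_inr, Algebra.algebraMap_eq_smul_one] at this
  -- the elements `k m = m h + x`
  let k : ℝ → A := fun m => m • h + x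
  have hksa : ∀ m, IsSelfAdjoint (k m) := fun m => ((IsSelfAdjoint.all m).smul hh).add hxsa
  have hk : ∀ m, ((k m : A) : A⁺¹) = m • (h : A⁺¹) + (x : A⁺¹) := by
    intro m
    simp [k]
  have hpos_ge : ∀ m, 0 < m → m * μ ≤ ‖(k m)⁺‖ := by
    intro m hm
    have h1 : (h : A⁺¹) ≤ (‖(k m)⁺‖ / m) • (1 : A⁺¹) := by
      have h2 : (k m : A⁺¹) ≤ ((k m)⁺ : A) :=
        inr_mono (hksa m) (.of_nonneg (CFC.posPart_nonneg _)) (CFC.le_posPart (hksa m))
      have h3 := h2.trans (inr_le_norm_smul (CFC.posPart_nonneg (k m)))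
      rw [hk] at h3
      have h4 : m • (h : A⁺¹) ≤ ‖(k m)⁺‖ • (1 : A⁺¹) := by
        refine le_trans ?_ h3
        exact le_add_of_nonneg_right hx'
      have h5 : (1 / m) • (m • (h : A⁺¹)) ≤ (1 / m) • (‖(k m)⁺‖ • (1 : A⁺¹)) :=
        smul_le_smul_of_nonneg_left h4 (by positivity)
      rw [smul_smul, smul_smul, one_div_mul_cancel hm.ne', one_smul] at h5
      rwa [one_div, inv_mul_eq_div] at h5
    have h6 := norm_posPart_le_of_le hh (by positivity) h1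
    rw [htop, le_div_iff₀ hm] at h6
    linarith
  have hneg_le : ∀ m, 0 < m → ‖(k m)⁻‖ ≤ m * μ := by
    intro m hm
    rw [← CFC.posPart_neg]
    refine norm_posPart_le_of_le (hksa m).neg (by positivity) ?_
    rw [inr_neg, hk, ← sub_nonneg]
    have h1 : (0 : A⁺¹) ≤ m • ((h : A⁺¹) + μ • (1 : A⁺¹)) := by
      refine smul_nonneg hm.le ?_
      have := sub_nonneg.2 hhμ'
      rwa [sub_neg_eq_add] at this
    have h2 : (m * μ) • (1 : A⁺¹) - -(m • (h : A⁺¹) + (x : A⁺¹))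
        = m • ((h : A⁺¹) + μ • (1 : A⁺¹)) + (x : A⁺¹) := by module
    rw [h2]
    exact add_nonneg h1 hx'
  have hnorm : ∀ m, 0 < m → ‖(k m)⁺‖ = ‖k m‖ := by
    intro m hm
    have h1 := (hksa m).norm_eq_max_norm_posPart_negPart
    rw [h1, max_eq_left ((hneg_le m hm).trans (hpos_ge m hm))]
  have hge : ∀ m, 0 < m → m * μ ≤ ‖k m‖ := fun m hm => hnorm m hm ▸ hpos_ge m hm
  -- choice of `n`
  obtain ⟨n, hn⟩ : ∃ n : ℕ, ‖k (2 ^ n)‖ - 2 ^ n * μ ≤
      ‖k (2 ^ (n + 1))‖ - 2 ^ (n + 1) * μ + ε := by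
    by_contra hcon
    push Not at hcon
    have h1 : ∀ n : ℕ, ‖k (2 ^ n)‖ - 2 ^ n * μ ≤ ‖k (2 ^ 0)‖ - 2 ^ 0 * μ - n * ε := by
      intro n
      induction n with
      | zero => simp
      | succ n ih =>
        have := hcon n
        push_cast
        linarith
    obtain ⟨N, hN⟩ := exists_nat_gt ((‖k (2 ^ 0)‖ - 2 ^ 0 * μ) / ε)
    rw [div_lt_iff₀ hε] at hN
    have h2 := h1 N
    have h3 := hge (2 ^ N) (by positivity)
    linarith
  set m : ℝ := 2 ^ n with hm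
  have hm1 : 1 ≤ m := one_le_pow₀ (by norm_num)
  have hm0 : 0 < m := by linarith
  have h2m : (2 : ℝ) ^ (n + 1) = 2 * m := by rw [hm]; ring
  rw [h2m] at hn
  have h2m0 : 0 < 2 * m := by linarith
  set κ : ℝ := ‖k (2 * m)‖ with hκ
  have hκge : 2 * m * μ ≤ κ := hge (2 * m) h2m0
  have hκpos : 0 < κ := lt_of_lt_of_le (by positivity) hκge
  set e : A := κ⁻¹ • (k (2 * m))⁺ with he
  have he0 : 0 ≤ e := smul_nonneg (by positivity) (CFC.posPart_nonneg _)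
  have henorm : ‖e‖ = 1 := by
    rw [he, norm_smul, hnorm _ h2m0, ← hκ, Real.norm_of_nonneg (by positivity)]
    exact inv_mul_cancel₀ hκpos.ne'
  have he1 : (0 : A⁺¹) ≤ 1 - (e : A⁺¹) := by
    rw [sub_nonneg]
    exact ((inr_mem_Icc_iff_norm_le (x := e)).2 ⟨he0, henorm.le⟩).2
  -- `k ≥ κ - 2κ(1-e)`
  have hkey : κ • (1 : A⁺¹) - (2 * κ) • (1 - (e : A⁺¹)) ≤ (k (2 * m) : A⁺¹) := by
    have h1 : (0 : A) ≤ CFC.abs (k (2 * m)) := CFC.abs_nonneg _
    have h2 := inr_le_norm_smul h1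
    rw [CFC.norm_abs, ← hκ, ← CFC.posPart_add_negPart _ (hksa (2 * m)), inr_add] at h2
    have h3 : (k (2 * m) : A⁺¹) = (((k (2 * m))⁺ : A) : A⁺¹) - (((k (2 * m))⁻ : A) : A⁺¹) := by
      rw [← inr_sub, CFC.posPart_sub_negPart _ (hksa (2 * m))]
    have h4 : (e : A⁺¹) = κ⁻¹ • (((k (2 * m))⁺ : A) : A⁺¹) := by rw [he, inr_smul]
    have h5 : (2 * κ) • (e : A⁺¹) = (2 : ℝ) • (((k (2 * m))⁺ : A) : A⁺¹) := by
      rw [h4, smul_smul]
      congr 1
      field_simp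
    rw [← sub_nonneg] at h2 ⊢
    have h6 : (k (2 * m) : A⁺¹) - (κ • (1 : A⁺¹) - (2 * κ) • (1 - (e : A⁺¹)))
        = κ • (1 : A⁺¹) - ((((k (2 * m))⁺ : A) : A⁺¹) + (((k (2 * m))⁻ : A) : A⁺¹)) := by
      rw [h3, smul_sub (2 * κ), h5]
      module
    rw [h6]
    exact h2
  set κ₀ : ℝ := ‖k m‖ with hκ₀
  have hk0 : (k m : A⁺¹) ≤ κ₀ • (1 : A⁺¹) := by
    have := ((hksa m).inr ℂ).le_algebraMap_norm_self
    rwa [norm_inr, Algebra.algebraMap_eq_smul_one] at this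
  refine ⟨e, 2 * κ, κ - 2 * m * μ, he0, henorm, by positivity, ?_, ?_, ?_⟩
  · -- lower bound for `h`
    have h1 : (0 : A⁺¹) ≤ (k (2 * m) : A⁺¹) - (κ • (1 : A⁺¹) - (2 * κ) • (1 - (e : A⁺¹))) :=
      sub_nonneg.2 hkey
    have h2 : (0 : A⁺¹) ≤ κ₀ • (1 : A⁺¹) - (k m : A⁺¹) := sub_nonneg.2 hk0
    have h3 : (0 : A⁺¹) ≤ (κ - κ₀ - m * (μ - ε)) • (1 : A⁺¹) := by
      refine smul_nonneg ?_ zero_le_one
      nlinarith
    have h4 : (0 : A⁺¹) ≤ ((m - 1) * (2 * κ)) • (1 - (e : A⁺¹)) :=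
      smul_nonneg (by nlinarith) he1
    have h5 : (0 : A⁺¹) ≤ m • ((h : A⁺¹) - ((μ - ε) • (1 : A⁺¹) - (2 * κ) • (1 - (e : A⁺¹)))) := by
      have h6 : m • ((h : A⁺¹) - ((μ - ε) • (1 : A⁺¹) - (2 * κ) • (1 - (e : A⁺¹))))
          = ((k (2 * m) : A⁺¹) - (κ • (1 : A⁺¹) - (2 * κ) • (1 - (e : A⁺¹))))
            + (κ₀ • (1 : A⁺¹) - (k m : A⁺¹)) + (κ - κ₀ - m * (μ - ε)) • (1 : A⁺¹)
            + ((m - 1) * (2 * κ)) • (1 - (e : A⁺¹)) := by
        rw [hk, hk]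
        module
      rw [h6]
      exact add_nonneg (add_nonneg (add_nonneg h1 h2) h3) h4
    have h7 : (0 : A⁺¹) ≤ (1 / m) •
        (m • ((h : A⁺¹) - ((μ - ε) • (1 : A⁺¹) - (2 * κ) • (1 - (e : A⁺¹))))) :=
      smul_nonneg (by positivity) h5
    rw [smul_smul, one_div_mul_cancel hm0.ne', one_smul] at h7
    exact sub_nonneg.1 h7
  · -- lower bound for `x`
    have h1 : (0 : A⁺¹) ≤ (k (2 * m) : A⁺¹) - (κ • (1 : A⁺¹) - (2 * κ) • (1 - (e : A⁺¹))) :=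
      sub_nonneg.2 hkey
    have h2 : (0 : A⁺¹) ≤ (2 * m) • (μ • (1 : A⁺¹) - (h : A⁺¹)) :=
      smul_nonneg h2m0.le (sub_nonneg.2 hhμ)
    rw [← sub_nonneg]
    have h3 : (x : A⁺¹) - ((κ - 2 * m * μ) • (1 : A⁺¹) - (2 * κ) • (1 - (e : A⁺¹)))
        = ((k (2 * m) : A⁺¹) - (κ • (1 : A⁺¹) - (2 * κ) • (1 - (e : A⁺¹))))
          + (2 * m) • (μ • (1 : A⁺¹) - (h : A⁺¹)) := by
      rw [hk]
      module
    rw [h3]
    exact add_nonneg h1 h2
  · -- upper bound for `x`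
    have h1 : (0 : A⁺¹) ≤ (k (2 * m) : A⁺¹) - (κ • (1 : A⁺¹) - (2 * κ) • (1 - (e : A⁺¹))) :=
      sub_nonneg.2 hkey
    have h2 : (0 : A⁺¹) ≤ (2 : ℝ) • (κ₀ • (1 : A⁺¹) - (k m : A⁺¹)) :=
      smul_nonneg zero_le_two (sub_nonneg.2 hk0)
    have h3 : (0 : A⁺¹) ≤ (2 * (κ - m * μ + ε - κ₀)) • (1 : A⁺¹) := by
      refine smul_nonneg ?_ zero_le_one
      nlinarith
    rw [← sub_nonneg]
    have h4 : (κ - 2 * m * μ + 2 * ε) • (1 : A⁺¹) + (2 * κ) • (1 - (e : A⁺¹)) - (x : A⁺¹)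
        = ((k (2 * m) : A⁺¹) - (κ • (1 : A⁺¹) - (2 * κ) • (1 - (e : A⁺¹))))
          + (2 : ℝ) • (κ₀ • (1 : A⁺¹) - (k m : A⁺¹)) + (2 * (κ - m * μ + ε - κ₀)) • (1 : A⁺¹) := by
      rw [hk, hk]
      module
    rw [h4]
    exact add_nonneg (add_nonneg h1 h2) h3

end Peak


section Main
variable {A₁ A : Type*} [NonUnitalCStarAlgebra A₁] [PartialOrder A₁] [StarOrderedRing A₁]
  [NonUnitalCStarAlgebra A] [PartialOrder A] [StarOrderedRing A]

/-- the heart of the matter -/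
theorem no_gap (T : A₁ → A) (hT0 : ∀ a : A₁, 0 ≤ a → 0 ≤ T a)
    (hsurj : ∀ b : A, 0 ≤ b → ∃ a : A₁, 0 ≤ a ∧ T a = b)
    (hadd : ∀ f g : A₁, 0 ≤ f → 0 ≤ g → ‖T f + T g‖ = ‖T (f + g)‖)
    {f g : A₁} (hf : 0 ≤ f) (hg : 0 ≤ g) {h : A} (hh : IsSelfAdjoint h) (hpos : 0 < ‖h‖)
    (htop : ‖h⁺‖ = ‖h‖)
    (hcase : T f + T g = h + T (f + g) ∨ T (f + g) = h + (T f + T g)) : False := by
  set x : A := T f with hx
  set y : A := T g with hy
  set w : A := T (f + g) with hw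
  have hx0 : 0 ≤ x := hT0 f hf
  have hy0 : 0 ≤ y := hT0 g hg
  have hw0 : 0 ≤ w := hT0 _ (add_nonneg hf hg)
  set μ : ℝ := ‖h‖ with hμ
  obtain ⟨e, C, lam, he0, he1, hC, hph, hpx1, hpx2⟩ :=
    exists_peak hh hx0 hpos htop (ε := μ / 4) (by positivity)
  rw [← hμ] at hph
  -- a large parameter
  obtain ⟨t, htC, ht0, htbig⟩ : ∃ t : ℝ, C ≤ t ∧ 0 < t ∧
      C * ‖w‖ / t + C * ‖x + y‖ / t + 2 * (C * ‖y‖ / t) < μ / 4 := by
    set K : ℝ := C * ‖w‖ + C * ‖x + y‖ + 2 * (C * ‖y‖) with hK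
    have hK0 : 0 ≤ K := by positivity
    refine ⟨C + 1 + 5 * K / μ, ?_, by positivity, ?_⟩
    · have : 0 ≤ 5 * K / μ := by positivity
      linarith
    · have h1 : C * ‖w‖ / (C + 1 + 5 * K / μ) + C * ‖x + y‖ / (C + 1 + 5 * K / μ)
          + 2 * (C * ‖y‖ / (C + 1 + 5 * K / μ)) = K / (C + 1 + 5 * K / μ) := by
        rw [hK]; ring
      rw [h1, div_lt_iff₀ (by positivity)]
      have h2 : μ / 4 * (C + 1 + 5 * K / μ) = μ / 4 * (C + 1) + 5 / 4 * K := by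
        field_simp
      rw [h2]
      have h3 : 0 < μ / 4 * (C + 1) := by positivity
      linarith
  have hte0 : 0 ≤ t • e := smul_nonneg ht0.le he0
  obtain ⟨c, hc0, hc⟩ := hsurj (t • e) hte0
  have hnte : ‖t • e‖ = t := by
    rw [norm_smul, he1, mul_one, Real.norm_of_nonneg ht0.le]
  set G : A := T (g + c) with hG
  have hG0 : 0 ≤ G := hT0 _ (add_nonneg hg hc0)
  have hGnorm : ‖G‖ = ‖y + t • e‖ := by
    rw [hG, ← hadd g c hg hc0, hc]
  have hGx : ‖x + G‖ = ‖w + t • e‖ := by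
    rw [hx, hG, hadd f (g + c) hf (add_nonneg hg hc0), hw, ← hc,
      hadd (f + g) c (add_nonneg hf hg) hc0, add_assoc]
  have hnge : ∀ v : A, 0 ≤ v → t ≤ ‖v + t • e‖ := by
    intro v hv
    calc t = ‖t • e‖ := hnte.symm
      _ ≤ ‖v + t • e‖ := norm_le_norm_of_nonneg_of_le hte0 (le_add_of_nonneg_left hv)
  have hGle : (G : A⁺¹) ≤ t • (e : A⁺¹) + ‖y‖ • (1 : A⁺¹) := by
    refine le_of_approx hG0 he0 he1.le ht0.le (norm_nonneg _) ?_
    intro z hz hzt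
    obtain ⟨d, hd0, hd⟩ := hsurj z hz
    rw [hG, ← hd, hadd (g + c) d (add_nonneg hg hc0) hd0, add_assoc,
      ← hadd g (c + d) hg (add_nonneg hc0 hd0)]
    refine (norm_add_le _ _).trans ?_
    rw [← hadd c d hc0 hd0, hc, hd, add_comm t]
    gcongr
  have hle : ∀ v : A, 0 ≤ v → ((v + t • e : A) : A⁺¹) ≤ t • (e : A⁺¹) + ‖v‖ • (1 : A⁺¹) := by
    intro v hv
    rw [inr_add, inr_smul, add_comm]
    gcongr
    exact inr_le_norm_smul hv
  have hx0' : (0 : A⁺¹) ≤ (x : A⁺¹) := inr_nonneg_iff.2 hx0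
  have hG0' : (0 : A⁺¹) ≤ (G : A⁺¹) := inr_nonneg_iff.2 hG0
  -- comparison of `‖w + te‖` and `‖x + y + te‖`
  have hG'0 : 0 ≤ y + t • e := add_nonneg hy0 hte0
  have hup : ∀ G' : A, 0 ≤ G' → t ≤ ‖G'‖ → (G' : A⁺¹) ≤ t • (e : A⁺¹) + ‖y‖ • (1 : A⁺¹) →
      ‖x + G'‖ ≤ (lam + 2 * (μ / 4)) + ‖G'‖ + C * ‖y‖ / t := by
    intro G' h0 h1 h2
    have h3 := upper hx0' (inr_nonneg_iff.2 h0) ht0 hC htC (by rw [norm_inr]; exact h1) hpx2 h2
    rwa [← inr_add, norm_inr, norm_inr] at h3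
  have hlow : ∀ G' : A, 0 ≤ G' → t ≤ ‖G'‖ → (G' : A⁺¹) ≤ t • (e : A⁺¹) + ‖y‖ • (1 : A⁺¹) →
      ‖G'‖ + lam - C * ‖y‖ / t ≤ ‖x + G'‖ := by
    intro G' h0 h1 h2
    have h3 := lower (p := ((x + G' : A) : A⁺¹)) (q := (G' : A⁺¹)) (e := (e : A⁺¹)) (m := lam)
      (inr_nonneg_iff.2 (add_nonneg hx0 h0)) (inr_nonneg_iff.2 h0) ht0 hC
      (by rw [norm_inr]; exact h1) (by
        rw [inr_add, add_sub_assoc, add_comm]
        gcongr) h2
    rwa [norm_inr, norm_inr] at h3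
  have hG'le : ((y + t • e : A) : A⁺¹) ≤ t • (e : A⁺¹) + ‖y‖ • (1 : A⁺¹) := hle y hy0
  have hGt : t ≤ ‖G‖ := by rw [hGnorm]; exact hnge y hy0
  have hA1 := hup G hG0 hGt hGle
  have hA2 := hlow G hG0 hGt hGle
  have hA3 := hup (y + t • e) hG'0 (hnge y hy0) hG'le
  have hA4 := hlow (y + t • e) hG'0 (hnge y hy0) hG'le
  rw [hGx, hGnorm] at hA1 hA2
  rw [← add_assoc] at hA3 hA4
  have hxy0 : 0 ≤ x + y := add_nonneg hx0 hy0
  have hCw : 0 ≤ C * ‖w‖ / t := by positivity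
  have hCxy : 0 ≤ C * ‖x + y‖ / t := by positivity
  -- the gap
  have hgap : ∀ p q : A, 0 ≤ p → 0 ≤ q → p = h + q →
      ‖q + t • e‖ + (μ - μ / 4) - C * ‖q‖ / t ≤ ‖p + t • e‖ := by
    intro p q hp hq hpq
    have h3 := lower (p := ((p + t • e : A) : A⁺¹)) (q := ((q + t • e : A) : A⁺¹))
      (e := (e : A⁺¹)) (m := μ - μ / 4) (r := ‖q‖)
      (inr_nonneg_iff.2 (add_nonneg hp hte0)) (inr_nonneg_iff.2 (add_nonneg hq hte0)) ht0 hC
      (by rw [norm_inr]; exact hnge q hq) (by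
        have h4 : ((p + t • e : A) : A⁺¹) = (h : A⁺¹) + ((q + t • e : A) : A⁺¹) := by
          rw [hpq, add_assoc h, inr_add ℂ h]
        rw [h4, add_sub_assoc, add_comm]
        gcongr) (hle q hq)
    rwa [norm_inr, norm_inr] at h3
  rcases hcase with hcase | hcase
  · have h1 := hgap (x + y) w hxy0 hw0 hcase
    linarith
  · have h1 := hgap w (x + y) hw0 hxy0 hcase
    linarith

end Main

/-- For any two C*-algebras, a map from the positive cone of the first onto the positive cone of the second with ‖T f + T g‖ = ‖T(f+g)‖ for all positive f, g must satisfy T(f+g) = T f + T g on positive elements. -/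
theorem result :
    ∀ (A₁ A₂ : Type) [NonUnitalCStarAlgebra A₁] [PartialOrder A₁] [StarOrderedRing A₁]
      [NonUnitalCStarAlgebra A₂] [PartialOrder A₂] [StarOrderedRing A₂] (T : A₁ → A₂),
      (∀ a : A₁, 0 ≤ a → 0 ≤ T a) →
      (∀ b : A₂, 0 ≤ b → ∃ a : A₁, 0 ≤ a ∧ T a = b) →
      (∀ f g : A₁, 0 ≤ f → 0 ≤ g → ‖T f + T g‖ = ‖T (f + g)‖) →
      ∀ f g : A₁, 0 ≤ f → 0 ≤ g → T (f + g) = T f + T g := by
  intro A₁ A₂ _ _ _ _ _ _ T hT0 hsurj hadd f g hf hg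
  by_contra hne
  have hsum0 : 0 ≤ T f + T g := add_nonneg (hT0 f hf) (hT0 g hg)
  have hw0 : 0 ≤ T (f + g) := hT0 _ (add_nonneg hf hg)
  set h : A₂ := T f + T g - T (f + g) with hh
  have hhsa : IsSelfAdjoint h := (IsSelfAdjoint.of_nonneg hsum0).sub (.of_nonneg hw0)
  have hpos : 0 < ‖h‖ := by
    rw [norm_pos_iff]
    intro h0
    exact hne (sub_eq_zero.1 h0).symm
  have hmax := hhsa.norm_eq_max_norm_posPart_negPart
  rcases max_choice ‖h⁺‖ ‖h⁻‖ with hm | hm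
  · rw [hm] at hmax
    exact no_gap T hT0 hsurj hadd hf hg hhsa hpos hmax.symm (Or.inl (by rw [hh]; abel))
  · rw [hm] at hmax
    refine no_gap T hT0 hsurj hadd hf hg (h := -h) hhsa.neg (by rwa [norm_neg]) ?_
      (Or.inr (by rw [hh]; abel))
    rw [CFC.posPart_neg, norm_neg]
    exact hmax.symm

end Pool.Agent.S06121
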