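-- Proof of frozen statement S06442 (negative answer).
import Pool.Statements.S06442
import Pool.Agent.Helper43.MBasis

set_option autoImplicit false
open Pool Pool.MP_e07177_an

namespace Pool.Agent.S06442

/-- The negation of the preceding statement: For every real or complex Banach space and every M-basis (x_n) of it, ℕ splits into two infinite complementary increasing index sequences so that each subsequence is a basis with parentheses of its closed linear span. -/
theorem result :
    ¬ (∀ (𝕜 : Type) [RCLike 𝕜] (E : Type) [NormedAddCommGroup E] [NormedSpace 𝕜 E]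
      [CompleteSpace E] (x : ℕ → E),
      ((∃ f : ℕ → (E →L[𝕜] 𝕜),
          (∀ i j : ℕ, f i (x j) = if i = j then (1 : 𝕜) else 0) ∧
          (∀ v : E, (∀ n : ℕ, f n v = 0) → v = 0)) ∧
        Dense ((Submodule.span 𝕜 (Set.range x) : Submodule 𝕜 E) : Set E)) →
      ∃ a b : ℕ → ℕ, StrictMono a ∧ StrictMono b ∧
        (∀ n : ℕ, (∃ k, a k = n) ↔ ¬ ∃ k, b k = n) ∧
        ∀ c : ℕ → ℕ, (c = a ∨ c = b) →
          ∃ p : ℕ → ℕ, StrictMono p ∧
            ∀ v ∈ (Submodule.span 𝕜 (Set.range (fun i => x (c i)))).topologicalClosure,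
              ∃! t : ℕ → 𝕜,
                Filter.Tendsto
                  (fun k => ∑ i ∈ Finset.range (p k), t i • x (c i))
                  Filter.atTop (nhds v)) := by
  intro h
  obtain ⟨a, b, ha, hb, hab, hc⟩ := h ℝ Pool.Agent.Helper43.MBasis.E
    Pool.Agent.Helper43.MBasis.X
    ⟨⟨Pool.Agent.Helper43.MBasis.Fn, Pool.Agent.Helper43.MBasis.Fn_X,
      Pool.Agent.Helper43.MBasis.Fn_total⟩, Pool.Agent.Helper43.MBasis.dense_span⟩
  -- for each row k, one of the two sequences meets row k infinitely often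
  have hrow : ∀ k : ℕ, (∀ N, ∃ i, N ≤ i ∧ (a i).unpair.1 = k) ∨
      (∀ N, ∃ i, N ≤ i ∧ (b i).unpair.1 = k) := by
    intro k
    by_contra hcon
    push Not at hcon
    obtain ⟨⟨N1, hN1⟩, ⟨N2, hN2⟩⟩ := hcon
    -- the element `pair k j` with large j
    set j := a N1 + b N2 with hj
    have hle : j ≤ Nat.pair k j := Nat.right_le_pair k j
    by_cases hex : ∃ i, a i = Nat.pair k j
    · obtain ⟨i, hi⟩ := hex
      have h1 : N1 ≤ i := by
        rw [← ha.le_iff_le, hi]
        omega
      exact hN1 i h1 (by rw [hi, Nat.unpair_pair])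
    · have hex' : ∃ i, b i = Nat.pair k j := by
        by_contra hb'
        exact hex ((hab _).mpr hb')
      obtain ⟨i, hi⟩ := hex'
      have h1 : N2 ≤ i := by
        rw [← hb.le_iff_le, hi]
        omega
      exact hN2 i h1 (by rw [hi, Nat.unpair_pair])
  -- one of the two sequences does it for arbitrarily large rows
  have hmain : (∀ K : ℕ, ∃ k, K ≤ k ∧ ∀ N, ∃ i, N ≤ i ∧ (a i).unpair.1 = k) ∨
      (∀ K : ℕ, ∃ k, K ≤ k ∧ ∀ N, ∃ i, N ≤ i ∧ (b i).unpair.1 = k) := by
    by_contra hcon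
    push Not at hcon
    obtain ⟨⟨K1, hK1⟩, ⟨K2, hK2⟩⟩ := hcon
    rcases hrow (K1 + K2) with h1 | h1
    · obtain ⟨N, hN⟩ := hK1 (K1 + K2) (by omega)
      obtain ⟨i, hi, hi'⟩ := h1 N
      exact hN i hi hi'
    · obtain ⟨N, hN⟩ := hK2 (K1 + K2) (by omega)
      obtain ⟨i, hi, hi'⟩ := h1 N
      exact hN i hi hi'
  rcases hmain with h1 | h1
  · exact Pool.Agent.Helper43.MBasis.not_basis a ha h1 (hc a (Or.inl rfl))
  · exact Pool.Agent.Helper43.MBasis.not_basis b hb h1 (hc b (Or.inr rfl))

end Pool.Agent.S06442
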