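import Pool.Statements.S06470

set_option autoImplicit false
open Pool Pool.MP_e29dfb_an

namespace Pool.Agent.S06470

/-- Local convexity of the complement: if every small distance `α ∈ (0,u]` is realised from every
point of the closed set `K`, then the complement of `K` is convex at scale `2u`. -/
lemma compl_convex (K : Set ℝ) (hK : IsCompact K) (u : ℝ) (hu : 0 < u)
    (hC : ∀ α : ℝ, 0 < α → α ≤ u → ∀ x ∈ K, x + α ∈ K ∨ x - α ∈ K)
    (h h' : ℝ) (hh : h ∉ K) (hh' : h' ∉ K) (hd : h' - h ≤ 2 * u)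
    (z : ℝ) (hz1 : h ≤ z) (hz2 : z ≤ h') : z ∉ K := by
  intro hzK
  have hcomp : IsCompact (K ∩ Set.Icc h h') := hK.inter_right isClosed_Icc
  obtain ⟨a, ⟨haK, ha1, ha2⟩, hleast⟩ := hcomp.exists_isLeast ⟨z, hzK, hz1, hz2⟩
  have hha : h < a := lt_of_le_of_ne ha1 (fun e => hh (e ▸ haK))
  have hah' : a < h' := lt_of_le_of_ne ha2 (fun e => hh' (e ▸ haK))
  -- points slightly to the left of `a` are not in `K`
  have hleft : ∀ s : ℝ, 0 < s → s ≤ a - h → a - s ∉ K := by
    intro s hs hs' hmem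
    have := hleast ⟨hmem, by linarith, by linarith⟩
    linarith
  set δ : ℝ := min (a - h) u with hδ
  have hδpos : 0 < δ := lt_min (by linarith) hu
  have hδ1 : δ ≤ a - h := min_le_left _ _
  have hδ2 : δ ≤ u := min_le_right _ _
  have hright : ∀ s : ℝ, 0 ≤ s → s ≤ δ → a + s ∈ K := by
    intro s hs hs'
    rcases hs.eq_or_lt with h0 | h0
    · simpa [← h0] using haK
    · rcases hC s h0 (hs'.trans hδ2) a haK with h1 | h1
      · exact h1
      · exact absurd h1 (hleft s h0 (hs'.trans hδ1))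
  -- the infimum of the points of `[a,h']` outside `K`
  set T : Set ℝ := {t | a ≤ t ∧ t ∉ K} with hT
  have hTne : T.Nonempty := ⟨h', hah'.le, hh'⟩
  have hTbdd : BddBelow T := ⟨a, fun t ht => ht.1⟩
  have hTlow : ∀ t ∈ T, a + δ ≤ t := by
    intro t ht
    by_contra hcon
    push Not at hcon
    have := hright (t - a) (by linarith [ht.1]) (by linarith)
    exact ht.2 (by simpa using this)
  set b := sInf T with hb
  have hb1 : a + δ ≤ b := le_csInf hTne hTlow
  have hb2 : b ≤ h' := csInf_le hTbdd ⟨hah'.le, hh'⟩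
  have hin : ∀ t, a ≤ t → t < b → t ∈ K := by
    intro t h1 h2
    by_contra hcon
    have := csInf_le hTbdd (show t ∈ T from ⟨h1, hcon⟩)
    linarith
  obtain ⟨t, htT, htb⟩ := exists_lt_of_csInf_lt hTne (show sInf T < b + δ / 2 by rw [← hb]; linarith)
  have hbt : b ≤ t := csInf_le hTbdd htT
  -- choose `t' ∈ T`, `t' ≤ h'`
  have : ∃ t' ∈ T, t' < b + δ / 2 ∧ t' ≤ h' := by
    rcases le_total t h' with h1 | h1
    · exact ⟨t, htT, htb, h1⟩
    · exact ⟨h', ⟨hah'.le, hh'⟩, by linarith, le_rfl⟩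
  obtain ⟨t', ht'T, ht'b, ht'h⟩ := this
  have hbt' : b ≤ t' := csInf_le hTbdd ht'T
  have hmid : (t' + (a - δ / 2)) / 2 ∈ K := hin _ (by linarith) (by linarith)
  rcases hC ((t' - (a - δ / 2)) / 2) (by linarith) (by linarith) _ hmid with h1 | h1
  · have e : (t' + (a - δ / 2)) / 2 + (t' - (a - δ / 2)) / 2 = t' := by ring
    rw [e] at h1
    exact ht'T.2 h1
  · have e : (t' + (a - δ / 2)) / 2 - (t' - (a - δ / 2)) / 2 = a - δ / 2 := by ring
    rw [e] at h1
    exact hleft (δ / 2) (by linarith) (by linarith) h1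

/-- Between two bad pairs `(x,β)`, `(x',β')` with an admissible distance `γ` between `β` and `β'`,
there is a point outside `K` between `x` and `x'`. -/
lemma hole_between (K : Set ℝ) (hK : IsCompact K) (u : ℝ) (hu : 0 < u)
    (hC : ∀ α : ℝ, 0 < α → α ≤ u → ∀ x ∈ K, x + α ∈ K ∨ x - α ∈ K)
    (x x' β β' γ : ℝ) (h1 : x + β ∉ K) (h2 : x - β ∉ K) (h1' : x' + β' ∉ K) (h2' : x' - β' ∉ K)
    (hx : x ≤ x') (hclose : x' - x + |β' - β| ≤ 2 * u)
    (hγ : γ ∈ Set.uIcc β β') (hβ : β ≠ β')
    (hγC : ∀ y ∈ K, y + γ ∈ K ∨ y - γ ∈ K) : ∃ z, x ≤ z ∧ z ≤ x' ∧ z ∉ K := by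
  have hne : β' - β ≠ 0 := sub_ne_zero.mpr hβ.symm
  set t : ℝ := (γ - β) / (β' - β) with ht
  have ht01 : 0 ≤ t ∧ t ≤ 1 := by
    rcases lt_or_gt_of_ne hβ with hlt | hlt
    · rw [Set.uIcc_of_le hlt.le] at hγ
      refine ⟨div_nonneg (by linarith [hγ.1]) (by linarith), ?_⟩
      rw [ht, div_le_one (by linarith)]
      linarith [hγ.2]
    · rw [Set.uIcc_of_ge hlt.le] at hγ
      refine ⟨div_nonneg_of_nonpos (by linarith [hγ.2]) (by linarith), ?_⟩
      rw [ht, div_le_one_of_neg (by linarith)]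
      linarith [hγ.1]
  obtain ⟨ht0, ht1⟩ := ht01
  have hγt : γ = β + t * (β' - β) := by
    rw [ht]; field_simp; ring
  set z : ℝ := x + t * (x' - x) with hz
  have hxz : x ≤ z := by
    have := mul_nonneg ht0 (sub_nonneg.mpr hx); linarith
  have hzx : z ≤ x' := by
    have := mul_nonneg (sub_nonneg.mpr ht1) (sub_nonneg.mpr hx); nlinarith
  refine ⟨z, hxz, hzx, ?_⟩
  -- `z + γ` and `z - γ` are outside `K`
  have key : ∀ p q : ℝ, p ∉ K → q ∉ K → |q - p| ≤ 2 * u → p + t * (q - p) ∉ K := by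
    intro p q hp hq hpq
    rcases le_total p q with hle | hle
    · refine compl_convex K hK u hu hC p q hp hq ?_ _ ?_ ?_
      · exact (le_abs_self _).trans hpq
      · have := mul_nonneg ht0 (sub_nonneg.mpr hle); linarith
      · have := mul_nonneg (sub_nonneg.mpr ht1) (sub_nonneg.mpr hle); nlinarith
    · refine compl_convex K hK u hu hC q p hq hp ?_ _ ?_ ?_
      · rw [abs_sub_comm] at hpq; exact (le_abs_self _).trans hpq
      · have := mul_nonneg (sub_nonneg.mpr ht1) (sub_nonneg.mpr hle); nlinarith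
      · have := mul_nonneg ht0 (sub_nonneg.mpr hle); nlinarith
  have hp : z + γ ∉ K := by
    have := key (x + β) (x' + β') h1 h1' (by
      have e : x' + β' - (x + β) = (x' - x) + (β' - β) := by ring
      rw [e]
      refine (abs_add_le _ _).trans ?_
      rwa [abs_of_nonneg (sub_nonneg.mpr hx)])
    have e : z + γ = (x + β) + t * (x' + β' - (x + β)) := by rw [hz, hγt]; ring
    rwa [e]
  have hm : z - γ ∉ K := by
    have := key (x - β) (x' - β') h2 h2' (by
      have e : x' - β' - (x - β) = (x' - x) + (-(β' - β)) := by ring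
      rw [e]
      refine (abs_add_le _ _).trans ?_
      rwa [abs_of_nonneg (sub_nonneg.mpr hx), abs_neg])
    have e : z - γ = (x - β) + t * (x' - β' - (x - β)) := by rw [hz, hγt]; ring
    rwa [e]
  intro hzK
  rcases hγC z hzK with h | h
  · exact hp h
  · exact hm h

/-- The compact set of the counterexample. -/
def badC : Set ℝ := Set.Icc 0 1 ∪ insert 2 (Set.range (fun n : ℕ => (2 : ℝ) + 1 / ((n : ℝ) + 1)))

lemma badC_compact : IsCompact badC := by
  refine isCompact_Icc.union ?_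
  have h : Filter.Tendsto (fun n : ℕ => (2 : ℝ) + 1 / ((n : ℝ) + 1)) Filter.atTop (nhds 2) := by
    simpa using tendsto_one_div_add_atTop_nhds_zero_nat.const_add (2 : ℝ)
  exact h.isCompact_insert_range

/-- midpoints of the gaps -/
noncomputable def bt (n : ℕ) : ℝ := 2 + (1 / ((n : ℝ) + 1) + 1 / ((n : ℝ) + 2)) / 2

lemma one_div_lt (n : ℕ) : 1 / ((n : ℝ) + 2) < 1 / ((n : ℝ) + 1) := by
  apply one_div_lt_one_div_of_lt <;> [positivity; linarith]

lemma bt_notMem (n : ℕ) : bt n ∉ badC := by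
  have hpos : (0 : ℝ) < 1 / ((n : ℝ) + 2) := by positivity
  have hlt := one_div_lt n
  intro hmem
  rcases hmem with h | h | ⟨m, hm⟩
  · have := h.2
    unfold bt at this
    linarith
  · unfold bt at h
    linarith
  · unfold bt at hm
    simp only at hm
    rcases Nat.lt_or_ge n m with hnm | hnm
    · have h1 : (n : ℝ) + 2 ≤ (m : ℝ) + 1 := by
        have : (n : ℝ) + 1 ≤ m := by exact_mod_cast hnm
        linarith
      have h2 : 1 / ((m : ℝ) + 1) ≤ 1 / ((n : ℝ) + 2) :=
        one_div_le_one_div_of_le (by positivity) h1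
      linarith
    · have h1 : (m : ℝ) + 1 ≤ (n : ℝ) + 1 := by
        have : (m : ℝ) ≤ n := by exact_mod_cast hnm
        linarith
      have h2 : 1 / ((n : ℝ) + 1) ≤ 1 / ((m : ℝ) + 1) :=
        one_div_le_one_div_of_le (by positivity) h1
      linarith

lemma bt_lt (m n : ℕ) (h : m < n) : bt n < 2 + 1 / ((m : ℝ) + 2) ∧ 2 + 1 / ((m : ℝ) + 2) < bt m := by
  have hlt := one_div_lt m
  have hlt' := one_div_lt n
  have h1 : (m : ℝ) + 2 ≤ (n : ℝ) + 1 := by
    have : (m : ℝ) + 1 ≤ n := by exact_mod_cast h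
    linarith
  have h2 : 1 / ((n : ℝ) + 1) ≤ 1 / ((m : ℝ) + 2) :=
    one_div_le_one_div_of_le (by positivity) h1
  unfold bt
  constructor <;> linarith

lemma bt_range (n : ℕ) : 2 < bt n ∧ bt n < 3 := by
  have hpos : (0 : ℝ) < 1 / ((n : ℝ) + 2) := by positivity
  have hlt := one_div_lt n
  have h1 : 1 / ((n : ℝ) + 1) ≤ 1 := by
    rw [div_le_one (by positivity)]
    have : (0 : ℝ) ≤ n := by positivity
    linarith
  unfold bt
  constructor <;> linarith

lemma gap_mem (m : ℕ) : 2 + 1 / ((m : ℝ) + 2) ∈ badC := by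
  right; right
  refine ⟨m + 1, ?_⟩
  simp only
  push_cast
  ring_nf

/-- The negation of the preceding statement: For every compact set C of nonnegative reals containing 0, there is a compact K ⊆ ℝ whose center of distances (the α ≥ 0 such that every x in K has some y in K with ∣x−y∣ = α) is exactly C. -/
theorem result :
    ¬ (∀ C : Set ℝ, IsCompact C → (0 : ℝ) ∈ C → C ⊆ Set.Ici (0 : ℝ) →
      ∃ K : Set ℝ, IsCompact K ∧
        {α : ℝ | 0 ≤ α ∧ ∀ x ∈ K, ∃ y ∈ K, |x - y| = α} = C) := by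
  intro H
  obtain ⟨K, hK, hKC⟩ := H badC badC_compact (Or.inl ⟨le_rfl, zero_le_one⟩) (by
    intro α hα
    rcases hα with h | h | ⟨m, hm⟩
    · exact h.1
    · rw [h]; simp
    · have : (0 : ℝ) ≤ 1 / ((m : ℝ) + 1) := by positivity
      show (0 : ℝ) ≤ α
      rw [← hm]
      simp only
      linarith)
  -- reformulation of membership
  have hmem : ∀ α ∈ badC, ∀ x ∈ K, x + α ∈ K ∨ x - α ∈ K := by
    intro α hα x hx
    rw [← hKC] at hα
    obtain ⟨h0, h1⟩ := hα
    obtain ⟨y, hy, hxy⟩ := h1 x hx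
    rcases le_total x y with hle | hle
    · left
      rw [abs_of_nonpos (by linarith)] at hxy
      have : x + α = y := by linarith
      rwa [this]
    · right
      rw [abs_of_nonneg (by linarith)] at hxy
      have : x - α = y := by linarith
      rwa [this]
  have hC1 : ∀ α : ℝ, 0 < α → α ≤ 1 → ∀ x ∈ K, x + α ∈ K ∨ x - α ∈ K :=
    fun α h0 h1 => hmem α (Or.inl ⟨h0.le, h1⟩)
  have hbad : ∀ n : ℕ, ∃ x ∈ K, x + bt n ∉ K ∧ x - bt n ∉ K := by
    intro n
    by_contra hcon
    push Not at hcon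
    apply bt_notMem n
    rw [← hKC]
    have hpos := (bt_range n).1
    refine ⟨by linarith, fun x hx => ?_⟩
    by_cases hxp : x + bt n ∈ K
    · exact ⟨_, hxp, by rw [show x - (x + bt n) = -bt n by ring, abs_neg, abs_of_pos (by linarith)]⟩
    · exact ⟨_, hcon x hx hxp, by rw [show x - (x - bt n) = bt n by ring, abs_of_pos (by linarith)]⟩
  choose x hxK hxp hxm using hbad
  obtain ⟨l, -, φ, hφ, hlim⟩ := hK.tendsto_subseq hxK
  have hev : ∀ᶠ n in Filter.atTop, dist ((x ∘ φ) n) l < 1 / 2 :=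
    hlim (Metric.ball_mem_nhds l (by norm_num))
  obtain ⟨N, hN⟩ := Filter.eventually_atTop.mp hev
  -- any two indices
  have hole : ∀ i j : ℕ, i ≠ j → |x i - x j| ≤ 1 → x i ≤ x j →
      ∃ z, x i ≤ z ∧ z ≤ x j ∧ z ∉ K := by
    intro i j hij hxij hle
    have hβne : bt i ≠ bt j := by
      rcases lt_or_gt_of_ne hij with h | h
      · have := bt_lt i j h; intro e; linarith [this.1, this.2]
      · have := bt_lt j i h; intro e; linarith [this.1, this.2]
    obtain ⟨γ, hγC, hγ⟩ : ∃ γ ∈ badC, γ ∈ Set.uIcc (bt i) (bt j) := by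
      rcases lt_or_gt_of_ne hij with h | h
      · refine ⟨_, gap_mem i, ?_⟩
        have := bt_lt i j h
        rw [Set.uIcc_of_ge (by linarith [this.1, this.2])]
        exact ⟨this.1.le, this.2.le⟩
      · refine ⟨_, gap_mem j, ?_⟩
        have := bt_lt j i h
        rw [Set.uIcc_of_le (by linarith [this.1, this.2])]
        exact ⟨this.1.le, this.2.le⟩
    refine hole_between K hK 1 one_pos hC1 (x i) (x j) (bt i) (bt j) γ (hxp i) (hxm i) (hxp j)
      (hxm j) hle ?_ hγ hβne (hmem γ hγC)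
    have h1 : x j - x i ≤ 1 := by
      rw [abs_sub_comm] at hxij; exact (le_abs_self _).trans hxij
    have h2 : |bt j - bt i| ≤ 1 := by
      rw [abs_le]
      have := bt_range i
      have := bt_range j
      constructor <;> linarith [(bt_range i).1, (bt_range i).2, (bt_range j).1, (bt_range j).2]
    linarith
  -- three sorted indices give a contradiction
  have three : ∀ i j k : ℕ, i ≠ j → j ≠ k → |x i - x j| ≤ 1 → |x j - x k| ≤ 1 →
      |x i - x k| ≤ 1 → x i ≤ x j → x j ≤ x k → False := by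
    intro i j k hij hjk h1 h2 h3 h4 h5
    obtain ⟨z, hz1, hz2, hz⟩ := hole i j hij h1 h4
    obtain ⟨w, hw1, hw2, hw⟩ := hole j k hjk h2 h5
    refine compl_convex K hK 1 one_pos hC1 z w hz hw ?_ (x j) hz2 hw1 (hxK j)
    have h6 : x k - x i ≤ 1 := by
      rw [abs_sub_comm] at h3; exact (le_abs_self _).trans h3
    linarith
  have hclose : ∀ p q : ℕ, N ≤ p → N ≤ q → |x (φ p) - x (φ q)| ≤ 1 := by
    intro p q hp hq
    have h1 := hN p hp
    have h2 := hN q hq
    simp only [Function.comp_apply] at h1 h2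
    have h3 := dist_triangle_right (x (φ p)) (x (φ q)) l
    rw [Real.dist_eq] at h3
    linarith
  have n01 : φ N ≠ φ (N + 1) := fun e => by have := hφ.injective e; omega
  have n12 : φ (N + 1) ≠ φ (N + 2) := fun e => by have := hφ.injective e; omega
  have n02 : φ N ≠ φ (N + 2) := fun e => by have := hφ.injective e; omega
  have c01 := hclose N (N + 1) le_rfl (by omega)
  have c10 := hclose (N + 1) N (by omega) le_rfl
  have c12 := hclose (N + 1) (N + 2) (by omega) (by omega)
  have c21 := hclose (N + 2) (N + 1) (by omega) (by omega)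
  have c02 := hclose N (N + 2) le_rfl (by omega)
  have c20 := hclose (N + 2) N (by omega) le_rfl
  rcases le_total (x (φ N)) (x (φ (N + 1))) with h1 | h1 <;>
  rcases le_total (x (φ (N + 1))) (x (φ (N + 2))) with h2 | h2 <;>
  rcases le_total (x (φ N)) (x (φ (N + 2))) with h3 | h3
  · exact three _ _ _ n01 n12 c01 c12 c02 h1 h2
  · exact three _ _ _ n01 n12 c01 c12 c02 h1 h2
  · exact three _ _ _ n02 n12.symm c02 c21 c01 h3 h2
  · exact three _ _ _ n02.symm n01 c20 c01 c21 h3 h1
  · exact three _ _ _ n01.symm n02 c10 c02 c12 h1 h3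
  · exact three _ _ _ n12 n02.symm c12 c20 c10 h2 h3
  · exact three _ _ _ n12.symm n01.symm c21 c10 c20 h2 h1
  · exact three _ _ _ n12.symm n01.symm c21 c10 c20 h2 h1

end Pool.Agent.S06470
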