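import Pool.Statements.S06492
import Pool.Agent.Helper47.PK.Main
import Pool.Agent.Helper23.PZ.NoSmooth

set_option autoImplicit false
open Pool Pool.MP_e464cf_an

namespace Pool.Agent.S06492

/-- The negation of the preceding statement: Every separable real Banach space which, for each k, has an equivalent norm that is k times continuously differentiable away from 0, also has an equivalent norm that is infinitely differentiable away from 0. -/
theorem result :
    ¬ (∀ (X : Type) [NormedAddCommGroup X] [NormedSpace ℝ X] [CompleteSpace X]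
      [TopologicalSpace.SeparableSpace X],
      (∀ k : ℕ, ∃ N : X → ℝ,
        (∀ x y : X, N (x + y) ≤ N x + N y) ∧
        (∀ (t : ℝ) (x : X), N (t • x) = |t| * N x) ∧
        (∃ c C : ℝ, 0 < c ∧ ∀ x : X, c * ‖x‖ ≤ N x ∧ N x ≤ C * ‖x‖) ∧
        ContDiffOn ℝ (k : WithTop ℕ∞) N {x : X | x ≠ 0}) →
      ∃ N : X → ℝ,
        (∀ x y : X, N (x + y) ≤ N x + N y) ∧
        (∀ (t : ℝ) (x : X), N (t • x) = |t| * N x) ∧
        (∃ c C : ℝ, 0 < c ∧ ∀ x : X, c * ‖x‖ ≤ N x ∧ N x ≤ C * ‖x‖) ∧
        ContDiffOn ℝ ((⊤ : ℕ∞) : WithTop ℕ∞) N {x : X | x ≠ 0}) := by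
  exact Pool.Agent.Helper47.PK.main_of
    (fun E _ _ h => Pool.Agent.Helper23.PZ.no_smooth h)

end Pool.Agent.S06492
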