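import Pool.Statements.S06808
import Pool.Agent.Helper41.DautovMain

set_option autoImplicit false
open Pool Pool.MP_fc26cf_an

namespace Pool.Agent.S06808

/-- The negation of the preceding statement: For coprime A,B in two variables whose B-zeros in the closed bidisc lie on the torus and are zeros of A, the Taylor coefficients of A/B are absolutely summable iff A/B extends continuously from the open to the closed bidisc. -/
theorem result :
    ¬ (∀ A B : MvPolynomial (Fin 2) ℂ,
      IsRelPrime A B →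
      (∀ z : Fin 2 → ℂ, (∀ i, ‖z i‖ ≤ 1) → MvPolynomial.eval z B = 0 →
        (∀ i, ‖z i‖ = 1) ∧ MvPolynomial.eval z A = 0) →
      ∀ h : ℕ → ℕ → ℂ,
        (∀ z : Fin 2 → ℂ, (∀ i, ‖z i‖ < 1) →
          HasSum (fun p : ℕ × ℕ => h p.1 p.2 * z 0 ^ p.1 * z 1 ^ p.2)
            (MvPolynomial.eval z A / MvPolynomial.eval z B)) →
        (Summable (fun p : ℕ × ℕ => ‖h p.1 p.2‖) ↔
          ∃ F : (Fin 2 → ℂ) → ℂ,
            ContinuousOn F {z : Fin 2 → ℂ | ∀ i, ‖z i‖ ≤ 1} ∧
            ∀ z : Fin 2 → ℂ, (∀ i, ‖z i‖ < 1) →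
              F z = MvPolynomial.eval z A / MvPolynomial.eval z B)) := by
  intro H
  have h1 := H Pool.Agent.Helper41.Dautov.PA Pool.Agent.Helper41.Dautov.PB
    Pool.Agent.Helper41.Dautov.relPrime Pool.Agent.Helper41.Dautov.zeros
    Pool.Agent.Helper41.Dautov.h (fun z hz => Pool.Agent.Helper41.Dautov.hasSum_h hz)
  exact Pool.Agent.Helper41.Dautov.not_summable
    (h1.mpr ⟨Pool.Agent.Helper41.Dautov.F, Pool.Agent.Helper41.Dautov.continuousOn_F,
      fun z _ => rfl⟩)

end Pool.Agent.S06808
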