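import Pool.Statements.S07687
import Pool.Agent.Helper57.ChromMain

set_option autoImplicit false
open Pool Pool.MP_248d64_co

namespace Pool.Agent.S07687

open Finset Pool.Agent.Helper57

/-- The family of edge sets of a family of graphs. -/
noncomputable def edgeFam (n : ℕ) (F : Finset (SimpleGraph (Fin n))) :
    Finset (Finset (Sym2 (Fin n))) := by
  classical
  exact F.image (fun G => G.edgeSet.toFinset)

theorem edgeFam_spec (n : ℕ) (F : Finset (SimpleGraph (Fin n))) (t : ℕ)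
    (hF : ∀ G ∈ F, ∀ H ∈ F, (t : ℕ∞) ≤ (G ⊓ H).chromaticNumber) :
    #(edgeFam n F) = #F ∧
    (∀ x ∈ edgeFam n F, x ⊆ (univ : Finset (Sym2 (Fin n))).filter (fun e => ¬ e.IsDiag)) ∧
    (∀ x ∈ edgeFam n F, ∀ y ∈ edgeFam n F, t ≤ chi (x ∩ y)) := by
  classical
  refine ⟨?_, ?_, ?_⟩
  · unfold edgeFam
    apply Finset.card_image_of_injective
    intro G H hGH
    simp only at hGH
    rw [← SimpleGraph.edgeSet_inj]
    exact Set.toFinset_inj.mp hGH
  · intro x hx
    unfold edgeFam at hx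
    rw [Finset.mem_image] at hx
    obtain ⟨G, _, rfl⟩ := hx
    intro e he
    rw [Set.mem_toFinset] at he
    rw [Finset.mem_filter]
    exact ⟨Finset.mem_univ _, G.not_isDiag_of_mem_edgeSet he⟩
  · intro x hx y hy
    unfold edgeFam at hx hy
    rw [Finset.mem_image] at hx hy
    obtain ⟨G, hG, rfl⟩ := hx
    obtain ⟨H, hH, rfl⟩ := hy
    have h1 := hF G hG H hH
    have h2 : (SimpleGraph.fromEdgeSet
        ((G.edgeSet.toFinset ∩ H.edgeSet.toFinset : Finset (Sym2 (Fin n))) :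
          Set (Sym2 (Fin n)))) = G ⊓ H := by
      ext u v
      rw [SimpleGraph.fromEdgeSet_adj, SimpleGraph.inf_adj]
      simp only [Finset.coe_inter, Set.coe_toFinset, Set.mem_inter_iff, SimpleGraph.mem_edgeSet]
      constructor
      · rintro ⟨h, _⟩; exact h
      · rintro h; exact ⟨h, h.1.ne⟩
    have h3 := colorable_chi (G.edgeSet.toFinset ∩ H.edgeSet.toFinset)
    rw [h2] at h3
    have h4 := h3.chromaticNumber_le
    exact_mod_cast h1.trans h4

theorem card_nondiag (n : ℕ) :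
    #((univ : Finset (Sym2 (Fin n))).filter (fun e => ¬ e.IsDiag)) = n.choose 2 := by
  have := Sym2.card_subtype_not_diag (α := Fin n)
  rw [Fintype.card_subtype, Fintype.card_fin] at this
  exact this

/-- There is c>0 such that for all t≥3 and n, any finite family of graphs on n labelled vertices in which every pair (G,H), G=H allowed, has G∩H of chromatic number at least t has size at most 2^(C(n,2) − c t²). -/
theorem result :
    ∃ c : ℝ, 0 < c ∧ ∀ t : ℕ, 3 ≤ t → ∀ n : ℕ, ∀ F : Finset (SimpleGraph (Fin n)),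
      (∀ G ∈ F, ∀ H ∈ F, (t : ℕ∞) ≤ (G ⊓ H).chromaticNumber) →
        (F.card : ℝ) ≤ (2 : ℝ) ^ ((n.choose 2 : ℝ) - c * (t : ℝ) ^ 2) := by
  refine ⟨1 / 48, by norm_num, ?_⟩
  intro t ht n F hF
  obtain ⟨hcard, hsub, hchi⟩ := edgeFam_spec n F t hF
  set S := (univ : Finset (Sym2 (Fin n))).filter (fun e => ¬ e.IsDiag) with hSdef
  have hS : ∀ e ∈ S, ¬ e.IsDiag := fun e he => (Finset.mem_filter.mp he).2
  have hSc : #S = n.choose 2 := card_nondiag n
  have hc0 : (0 : ℝ) ≤ F.card := by positivity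
  -- it suffices to bound the square
  have suff : ∀ E : ℝ, (1 / 24) * (t : ℝ) ^ 2 ≤ E →
      (F.card : ℝ) * F.card * (2 : ℝ) ^ E ≤ 4 ^ (n.choose 2) →
      (F.card : ℝ) ≤ (2 : ℝ) ^ ((n.choose 2 : ℝ) - 1 / 48 * (t : ℝ) ^ 2) := by
    intro E hE hb
    apply le_of_sq_le_sq _ (by positivity)
    have h1 : ((2 : ℝ) ^ ((n.choose 2 : ℝ) - 1 / 48 * (t : ℝ) ^ 2)) ^ 2 =
        (2 : ℝ) ^ (2 * (n.choose 2 : ℝ) - 1 / 24 * (t : ℝ) ^ 2) := by
      rw [← Real.rpow_natCast, ← Real.rpow_mul (by norm_num)]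
      congr 1
      push_cast
      ring
    rw [h1]
    have h2 : (2 : ℝ) ^ (2 * (n.choose 2 : ℝ) - E) ≤
        (2 : ℝ) ^ (2 * (n.choose 2 : ℝ) - 1 / 24 * (t : ℝ) ^ 2) :=
      Real.rpow_le_rpow_of_exponent_le (by norm_num) (by linarith)
    refine le_trans ?_ h2
    have h3 : (4 : ℝ) ^ (n.choose 2) = (2 : ℝ) ^ (2 * (n.choose 2 : ℝ)) := by
      rw [Real.rpow_mul (by norm_num), Real.rpow_natCast]
      norm_num
    rw [Real.rpow_sub (by norm_num), le_div_iff₀ (by positivity), ← h3, sq]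
    exact hb
  rcases Nat.lt_or_ge t 6 with h6 | h6
  · -- small t: the linear bound
    have hlin := cross_linear S hS (edgeFam n F) (edgeFam n F) hsub hsub (t - 1)
      (fun x hx y hy => by have := hchi x hx y hy; omega)
    rw [hcard, hSc] at hlin
    apply suff (2 * ((t - 1 : ℕ) : ℝ))
    · interval_cases t <;> norm_num
    · have h4 : (2 : ℝ) ^ (2 * ((t - 1 : ℕ) : ℝ)) = 4 ^ (t - 1) := by
        rw [Real.rpow_mul (by norm_num), Real.rpow_natCast]
        norm_num
      rw [h4]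
      exact hlin
  · -- large t: the quadratic bound with s = t / 6
    have hspos : 0 < t / 6 := Nat.div_pos h6 (by norm_num)
    set s := t / 6 with hs
    have hquad := cross_quadratic S hS (edgeFam n F) (edgeFam n F) hsub hsub t s hspos hchi
    rw [hcard, hSc] at hquad
    have h6s : 6 * s ≤ t := by omega
    have h12s : t ≤ 12 * s := by omega
    apply suff ((((t - 3 * s) * s : ℕ)) : ℝ)
    · have e1 : (t : ℝ) ≤ 12 * s := by exact_mod_cast h12s
      have e2 : (6 : ℝ) * s ≤ t := by exact_mod_cast h6s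
      have e3 : ((t - 3 * s : ℕ) : ℝ) = (t : ℝ) - 3 * s := by
        rw [Nat.cast_sub (by omega)]; push_cast; ring
      rw [Nat.cast_mul, e3]
      have e4 : (0 : ℝ) ≤ s := by positivity
      nlinarith [mul_nonneg e4 e4]
    · rw [Real.rpow_natCast]
      have e5 : ((2 : ℝ) ^ t) ^ s = (8 ^ s) ^ s * 2 ^ ((t - 3 * s) * s) := by
        have : (8 : ℝ) = 2 ^ 3 := by norm_num
        rw [this, ← pow_mul, ← pow_mul, ← pow_mul, ← pow_add]
        congr 1
        obtain ⟨r, hr⟩ : ∃ r, t = 3 * s + r := ⟨t - 3 * s, by omega⟩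
        rw [hr]
        have : 3 * s + r - 3 * s = r := by omega
        rw [this]
        ring
      rw [e5] at hquad
      have h8 : (0 : ℝ) < (8 ^ s) ^ s := by positivity
      have : (8 ^ s) ^ s * ((F.card : ℝ) * F.card * 2 ^ ((t - 3 * s) * s)) ≤
          (8 ^ s) ^ s * 4 ^ (n.choose 2) := by
        calc _ = (F.card : ℝ) * F.card * ((8 ^ s) ^ s * 2 ^ ((t - 3 * s) * s)) := by ring
          _ ≤ _ := hquad
      exact le_of_mul_le_mul_left this h8

end Pool.Agent.S07687
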