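import Pool.Statements.S07793
import Pool.Agent.Helper55.MLA.Final

set_option autoImplicit false
open Filter Topology Classical
open Pool Pool.MP_29e8a2_co

namespace Pool.Agent.S07793

/-- For each c>0, the probability that the random graph G(n,c/n) has maximum likelihood threshold equal to its generic completion rank tends to 1 as n grows. -/
theorem result :
    ∀ c : ℝ, 0 < c →
      Tendsto
        (fun n : ℕ =>
          ∑ S : Finset (Sym2 (Fin n)),
            if (∀ e ∈ S, ¬ e.IsDiag) ∧
                sInf {d : ℕ | ∀ᵐ X : Fin d → Fin n → ℝ,
                    ∃ K : Matrix (Fin n) (Fin n) ℝ, K.PosDef ∧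
                      ∀ i j : Fin n,
                        (i = j ∨ (SimpleGraph.fromEdgeSet (↑S : Set (Sym2 (Fin n)))).Adj i j) →
                        K i j = ∑ k, X k i * X k j}
                = sInf {r : ℕ | (interior (Set.range
                    (fun Y : Fin n → Fin r → ℝ =>
                      fun q : {q : Fin n × Fin n // q.1 ≤ q.2 ∧
                          (q.1 = q.2 ∨
                            (SimpleGraph.fromEdgeSet (↑S : Set (Sym2 (Fin n)))).Adj q.1 q.2)} =>
                        ∑ k, Y q.1.1 k * Y q.1.2 k))).Nonempty}
            then (c / (n : ℝ)) ^ S.card * (1 - c / (n : ℝ)) ^ (n.choose 2 - S.card)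
            else 0)
        atTop (𝓝 1) := by
  intro c hc
  exact Pool.Agent.Helper55.ML.final hc

end Pool.Agent.S07793
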