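-- Proof of frozen statement S07894: the disproof of the conjecture for the groups F_2^n with
-- n = k + 2^k / k, k a large power of two.
import Pool.Statements.S07894
import Pool.Agent.Helper64.Final

set_option autoImplicit false
open Classical
open Pool Pool.MP_2e39f7_co

namespace Pool.Agent.S07894

open Pool.Agent.Helper64.Cayley in
/-- The negation of the preceding statement: For every ε>0, for all large enough finite abelian groups G of order N, at least a (1−ε) fraction of subsets A give a Cayley sum graph (x~y iff x≠y, x+y∈A) whose chromatic number times clique number is within factor 1±ε of N. -/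
theorem result :
    ¬ (∀ ε : ℝ, 0 < ε → ∃ N₀ : ℕ, ∀ (G : Type) [AddCommGroup G] [Fintype G],
      N₀ ≤ Fintype.card G →
      (1 - ε) * (2 : ℝ) ^ (Fintype.card G) ≤
        ((Finset.univ.filter (fun A : Finset G =>
            |((SimpleGraph.fromRel (fun x y : G => x + y ∈ A)).chromaticNumber.toNat : ℝ) *
              ((SimpleGraph.fromRel (fun x y : G => x + y ∈ A)).cliqueNum : ℝ) /
              (Fintype.card G : ℝ) - 1| ≤ ε)).card : ℝ)) := by
  intro hmain
  obtain ⟨N₀, hN₀⟩ := hmain (1 / 2 ^ 19) (by positivity)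
  obtain ⟨k, w, q, n, s, p, hq, hkw, hn, hk31, hs, hsk, hbig, hw, hp, hlast, hNn⟩ :=
    exists_params N₀
  have hE : Fintype.card (Fin k → ZMod 2) = 2 ^ k := by
    rw [Fintype.card_fun, ZMod.card, Fintype.card_fin]
  have hF : Fintype.card (Fin w → ZMod 2) = 2 ^ w := by
    rw [Fintype.card_fun, ZMod.card, Fintype.card_fin]
  have hG : Fintype.card ((Fin k → ZMod 2) × (Fin w → ZMod 2)) = 2 ^ n := by
    rw [Fintype.card_prod, hE, hF, ← pow_add, hn]
  have hgood := card_good (E := Fin k → ZMod 2) (F := Fin w → ZMod 2) k w q n s (127 * p + 127)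
    hE hF hq hkw hn hk31 hs hsk hbig hw (by omega) (by omega) hlast
  have hNG : N₀ ≤ Fintype.card ((Fin k → ZMod 2) × (Fin w → ZMod 2)) := by
    rw [hG]
    exact hNn.trans (Nat.lt_two_pow_self).le
  have hbound := hN₀ ((Fin k → ZMod 2) × (Fin w → ZMod 2)) hNG
  set G := (Fin k → ZMod 2) × (Fin w → ZMod 2) with hGdef
  set GE := graphEvent (Fin k → ZMod 2) (Fin w → ZMod 2) ∩
    noIndep (G := (Fin k → ZMod 2) × (Fin w → ZMod 2)) (127 * p + 127) with hGE
  set Fil := Finset.univ.filter (fun A : Finset G =>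
            |((SimpleGraph.fromRel (fun x y : G => x + y ∈ A)).chromaticNumber.toNat : ℝ) *
              ((SimpleGraph.fromRel (fun x y : G => x + y ∈ A)).cliqueNum : ℝ) /
              (Fintype.card G : ℝ) - 1| ≤ 1 / 2 ^ 19) with hFil
  have hdisj : Disjoint GE Fil := by
    rw [Finset.disjoint_left]
    intro A hA hA'
    rw [hGE, Finset.mem_inter] at hA
    rw [hFil, Finset.mem_filter] at hA'
    have h1 := cliqueNum_ge A hA.1
    rw [hE] at h1
    have h2 := card_le_of_noIndep (127 * p + 126) A hA.2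
    have h3 := hA'.2
    have hcard0 : (0 : ℝ) < (Fintype.card G : ℝ) := by
      exact_mod_cast Fintype.card_pos
    set χ := (SimpleGraph.fromRel (fun x y : G => x + y ∈ A)).chromaticNumber.toNat with hχ
    set ω := (SimpleGraph.fromRel (fun x y : G => x + y ∈ A)).cliqueNum with hω
    have h1' : ((128 * (p + 1) : ℕ) : ℝ) ≤ (ω : ℝ) := by
      rw [← hp, hq]; exact_mod_cast h1
    have h2' : (Fintype.card G : ℝ) ≤ (χ : ℝ) * ((127 * p + 126 : ℕ) : ℝ) := by
      exact_mod_cast h2
    have h4 : (128 / 127 : ℝ) * (Fintype.card G : ℝ) ≤ (χ : ℝ) * (ω : ℝ) := by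
      have hχ0 : (0 : ℝ) ≤ (χ : ℝ) := Nat.cast_nonneg _
      have e1 : (χ : ℝ) * ((128 * (p + 1) : ℕ) : ℝ) ≤ (χ : ℝ) * (ω : ℝ) :=
        mul_le_mul_of_nonneg_left h1' hχ0
      push_cast at e1 h2'
      nlinarith
    have h5 : (128 / 127 : ℝ) ≤ (χ : ℝ) * (ω : ℝ) / (Fintype.card G : ℝ) := by
      rw [le_div_iff₀ hcard0]; exact h4
    have h6 := (abs_le.1 h3).2
    norm_num at h6
    linarith
  have hsum : GE.card + Fil.card ≤ 2 ^ Fintype.card G := by
    rw [← Finset.card_union_of_disjoint hdisj, ← Fintype.card_finset, ← Finset.card_univ]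
    exact Finset.card_le_card (Finset.subset_univ _)
  have hsum' : (GE.card : ℝ) + (Fil.card : ℝ) ≤ (2 : ℝ) ^ Fintype.card G := by
    exact_mod_cast hsum
  have hgood' : (2 : ℝ) ^ Fintype.card G ≤ 2 ^ 18 * (GE.card : ℝ) := by
    exact_mod_cast hgood
  have hpos : (0 : ℝ) < (2 : ℝ) ^ Fintype.card G := by positivity
  have e19 : (1 - 1 / 2 ^ 19 : ℝ) * 2 ^ Fintype.card G =
      2 ^ Fintype.card G - 2 ^ Fintype.card G / 2 ^ 19 := by ring
  rw [e19] at hbound
  norm_num at hbound hgood'
  linarith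

end Pool.Agent.S07894
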