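import Pool.Statements.S09391
import Pool.Agent.Helper90.ST.Core
import Pool.Agent.Helper90.ST.Higman
import Pool.Agent.Helper55.ST.GEOM

set_option autoImplicit false
open Pool Pool.MP_6ecf75_co

namespace Pool.Agent.S09391

/-- In every finite thick generalized quadrangle of order (s,t) with an elation group G at x, where x is a center of symmetry and all symmetries about x lie in G, every symmetry about x commutes with every element of G. -/
theorem result : ∀ (P L : Type) [Finite P] [Finite L] (I : P → L → Prop) (s t : ℕ),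
    1 < s → 1 < t →
    (∀ l : L, {p : P | I p l}.ncard = s + 1) →
    (∀ p : P, {l : L | I p l}.ncard = t + 1) →
    (∀ (p q : P) (l m : L), p ≠ q → I p l → I q l → I p m → I q m → l = m) →
    (∀ (p : P) (l : L), ¬ I p l → ∃! q : P, I q l ∧ ∃ m : L, I p m ∧ I q m) →
    ∀ (x : P) (G : Subgroup (Equiv.Perm P × Equiv.Perm L)),
    (∀ g ∈ G, ∀ (p : P) (l : L), I (g.1 p) (g.2 l) ↔ I p l) →
    (∀ g ∈ G, g.1 x = x ∧ ∀ l : L, I x l → g.2 l = l) →
    (∀ p q : P, (¬ ∃ l : L, I x l ∧ I p l) → (¬ ∃ l : L, I x l ∧ I q l) →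
      ∃! g : Equiv.Perm P × Equiv.Perm L, g ∈ G ∧ g.1 p = q) →
    (∃ S : Subgroup (Equiv.Perm P × Equiv.Perm L),
      (∀ σ ∈ S, (∀ (p : P) (l : L), I (σ.1 p) (σ.2 l) ↔ I p l) ∧
        ∀ p : P, (∃ l : L, I x l ∧ I p l) → σ.1 p = p) ∧
      ∀ v w : P, (∃ l : L, I x l ∧ I v l) → (∃ l : L, I x l ∧ I w l) →
        (¬ ∃ l : L, I v l ∧ I w l) →
        ∀ a b : P, a ≠ x → b ≠ x →
          (∃ l : L, I a l ∧ I v l) → (∃ l : L, I a l ∧ I w l) →
          (∃ l : L, I b l ∧ I v l) → (∃ l : L, I b l ∧ I w l) →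
          ∃ σ ∈ S, σ.1 a = b) →
    (∀ σ : Equiv.Perm P × Equiv.Perm L, (∀ (p : P) (l : L), I (σ.1 p) (σ.2 l) ↔ I p l) →
      (∀ p : P, (∃ l : L, I x l ∧ I p l) → σ.1 p = p) → σ ∈ G) →
    ∀ σ : Equiv.Perm P × Equiv.Perm L, (∀ (p : P) (l : L), I (σ.1 p) (σ.2 l) ↔ I p l) →
      (∀ p : P, (∃ l : L, I x l ∧ I p l) → σ.1 p = p) →
      ∀ g ∈ G, σ * g = g * σ := by
  intro P L hP hL I s t hs ht h1 h2 h3 h4 x G hI hx hreg hS hall σ hσ hσx g hg
  have := Fintype.ofFinite P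
  have := Fintype.ofFinite L
  have H : Pool.Agent.Helper55.GQ.IsGQ I s t := ⟨h1, h2, h3, h4⟩
  have hσG := hall σ hσ hσx
  by_cases hst : s = t ^ 2
  · exact Pool.Agent.Helper55.GQ.main H hst ht x G hI hx hreg σ hσG hσx g hg
  · obtain ⟨l, hl⟩ := Pool.Agent.Helper55.GQ.exists_line H x
    have : Nonempty L := ⟨l⟩
    obtain ⟨ι, A, S, hKF, hSS⟩ :=
      Pool.Agent.Helper90.ST.geom H hs ht x G hI hx hreg hS hall
    have hc := Pool.Agent.Helper90.ST.kf_central hKF hs ht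
      (Pool.Agent.Helper90.ST.higman H ht) hst ⟨σ, hσG⟩ (hSS _ hσx) ⟨g, hg⟩
    exact congrArg Subtype.val hc

end Pool.Agent.S09391
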