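import Pool.Statements.S09493
import Pool.Agent.Helper66.MC.Assembly
import Pool.Agent.Helper66.MC.Reduction

set_option autoImplicit false
open Pool Pool.MP_73c0e1_co

namespace Pool.Agent.S09493

/-- For every finite Coxeter group, Coxeter element c and k ≥ 1, every minimal non-face of the subword complex of the word c^k followed by the c-sorting word of the longest element has exactly k+1 elements. -/
theorem result :
  ∀ (B : Type) (W : Type) [Group W] [Finite W] (M : CoxeterMatrix B) (cs : CoxeterSystem M W)
    (ω : List B), ω.Nodup → (∀ b : B, b ∈ ω) →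
    ∀ w0 : W, (∀ w : W, cs.length w ≤ cs.length w0) →
    ∀ (k : ℕ), 1 ≤ k →
    ∀ (s : List B), s = (List.replicate (Nat.card W) ω).flatten →
    ∀ (P : Finset (Fin s.length)),
      cs.wordProd (((List.finRange s.length).filter (fun i => decide (i ∈ P))).map s.get) = w0 →
      P.card = cs.length w0 →
      (∀ P' : Finset (Fin s.length),
        cs.wordProd (((List.finRange s.length).filter (fun i => decide (i ∈ P'))).map s.get) = w0 →
        P'.card = cs.length w0 → P' ≠ P →
        ∃ x ∈ P, x ∉ P' ∧ ∀ y, y < x → (y ∈ P ↔ y ∈ P')) →
    ∀ (Q : List B),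
      Q = (List.replicate k ω).flatten
            ++ ((List.finRange s.length).filter (fun i => decide (i ∈ P))).map s.get →
    ∀ I : Finset (Fin Q.length),
      (¬ ∃ J : Finset (Fin Q.length), Disjoint I J ∧
          cs.wordProd (((List.finRange Q.length).filter (fun i => decide (i ∈ J))).map Q.get) = w0 ∧
          J.card = cs.length w0) →
      (∀ x ∈ I, ∃ J : Finset (Fin Q.length), Disjoint (I.erase x) J ∧
          cs.wordProd (((List.finRange Q.length).filter (fun i => decide (i ∈ J))).map Q.get) = w0 ∧
          J.card = cs.length w0) →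
      I.card = k + 1 := by
  classical
  intro B W _ _ M cs ω hnd hall w0 h0 k hk s hs P hP1 hP2 hP3 Q hQ I hI1 hI2
  have : Fintype B := ⟨⟨ω, hnd⟩, fun b => hall b⟩
  rcases Nat.eq_zero_or_pos ω.length with hn | hn
  · -- rank 0: the word `Q` is empty and the empty set is a face
    exfalso
    have hω : ω = [] := List.length_eq_zero_iff.1 hn
    have hw0 : w0 = 1 := by
      obtain ⟨V, -, hV⟩ := cs.exists_isReduced w0
      have : V = [] := by
        cases V with
        | nil => rfl
        | cons b V => exact absurd (hall b) (by simp [hω])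
      rw [hV, this]
      simp
    apply hI1
    refine ⟨∅, Finset.disjoint_empty_right _, ?_, ?_⟩
    · simp [hw0]
    · simp [hw0]
  · exact Helper66.MC.reduction B W M cs ω hnd hall hn w0 h0
      (fun w hw => by
        have hne : w⁻¹ * w0 ≠ 1 := fun h => hw (inv_mul_eq_one.1 h)
        obtain ⟨i, hi⟩ := cs.exists_leftDescent_of_ne_one hne
        rw [cs.isLeftDescent_iff] at hi
        have h1 := Helper66.MC.longest_add' cs h0 w
        have h2 := cs.length_mul_le (w * cs.simple i) (cs.simple i * (w⁻¹ * w0))
        have h3 : w * cs.simple i * (cs.simple i * (w⁻¹ * w0)) = w0 := by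
          rw [mul_assoc, cs.simple_mul_simple_cancel_left]
          group
        rw [h3] at h2
        refine ⟨i, fun hd => ?_⟩
        rw [cs.isRightDescent_iff] at hd
        omega)
      (fun t ht => Helper66.MC.nested cs ω hn hnd hall h0 t ht)
      (fun U hU => Helper66.MC.key cs ω hn hnd hall h0 U hU)
      k hk s hs P hP1 hP2 hP3 Q hQ I hI1 hI2

end Pool.Agent.S09493
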