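import Pool.Statements.S10777
import Pool.Agent.Helper63.LinExt.Main

set_option autoImplicit false
open Pool Pool.MP_ae076f_co

namespace Pool.Agent.S10777

open Pool.Agent.Helper63.LinExt in
theorem card_le_LE {n : ℕ} (le : Fin n → Fin n → Prop) :
    Nat.card {σ : Equiv.Perm (Fin n) // ∀ a b, le a b → σ a ≤ σ b} ≤
      (LE (fun a b => le a b ∧ a ≠ b) (Finset.univ : Finset (Fin n))).card := by
  classical
  rw [← Fintype.card_coe, ← Nat.card_eq_fintype_card]
  apply Nat.card_le_card_of_injective
    (f := fun σ : {σ : Equiv.Perm (Fin n) // ∀ a b, le a b → σ a ≤ σ b} =>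
      (⟨List.ofFn (fun i => σ.1.symm i), by
        rw [mem_LE]
        refine ⟨?_, ?_, ?_⟩
        · rw [List.nodup_ofFn]
          exact σ.1.symm.injective
        · ext y
          simp only [List.mem_toFinset, List.mem_ofFn, Finset.mem_univ, iff_true]
          exact ⟨σ.1 y, by simp⟩
        · rw [List.pairwise_ofFn]
          intro i j hij h
          have h1 := σ.2 _ _ h.1
          rw [Equiv.apply_symm_apply, Equiv.apply_symm_apply] at h1
          exact absurd hij (not_lt.2 h1)⟩ :
        {l : List (Fin n) // l ∈ LE (fun a b => le a b ∧ a ≠ b) (Finset.univ : Finset (Fin n))}))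
  intro σ τ h
  rw [Subtype.mk.injEq] at h
  have h1 := List.ofFn_injective h
  apply Subtype.ext
  have h2 : σ.1.symm = τ.1.symm := by
    ext i
    exact congrArg Fin.val (congrFun h1 i)
  have h3 := congrArg Equiv.symm h2
  simpa using h3

open Pool.Agent.Helper63.LinExt in
theorem card_eq_K {n : ℕ} (le : Fin n → Fin n → Prop) :
    K (fun a b => le a b ∧ a ≠ b) (Finset.univ : Finset (Fin n)) =
      Nat.card {p : Fin n × Fin n // le p.1 p.2 ∧ p.1 ≠ p.2} := by
  classical
  unfold K
  rw [Nat.card_eq_fintype_card, Fintype.card_subtype]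
  congr 1
  ext p
  simp

/-- For all n and s ≤ n, every partial order on n points with exactly s(n−s) comparable pairs has at most s!(n−s)! linear extensions, i.e. the complete bipartite height-two poset attains the maximum. -/
theorem result :
    ∀ (n s : ℕ), s ≤ n →
      ∀ (le : Fin n → Fin n → Prop),
        (∀ a, le a a) →
        (∀ a b, le a b → le b a → a = b) →
        (∀ a b c, le a b → le b c → le a c) →
        Nat.card {p : Fin n × Fin n // le p.1 p.2 ∧ p.1 ≠ p.2} = s * (n - s) →
        Nat.card {σ : Equiv.Perm (Fin n) // ∀ a b, le a b → σ a ≤ σ b}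
          ≤ Nat.factorial s * Nat.factorial (n - s) := by
  intro n s hs le _ _ _ hcard
  refine (card_le_LE le).trans ?_
  apply Pool.Agent.Helper63.LinExt.count_le hs Finset.univ _ (fun x h => h.2 rfl)
    (Finset.card_fin n)
  rw [card_eq_K, hcard]

end Pool.Agent.S10777
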