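import Pool.Statements.S10936
-- import your own Pool.Agent.* helpers here

set_option autoImplicit false
open Pool Pool.MP_b4c394_co

namespace Pool.Agent.S10936

/-! Counterexample to minor reconstructibility of matroids.

The two 3-uniform hypergraphs on the vertex set `{0,...,5}` with edge sets
`012, 013, 035, 045, 125, 134, 234` and `014, 015, 023, 035, 123, 134, 245`
are not isomorphic, but for every vertex `v` the two vertex-deleted hypergraphs are isomorphic and
the two links of `v` are isomorphic.  Replacing every vertex `v` by the two clones `2v, 2v+1`, one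
gets two families of seven 6-subsets of a 12-element set, pairwise meeting in at most 4 elements,
hence the circuit-hyperplanes of two sparse paving matroids of rank 6 on 12 elements. -/

/-- Incidence matrix of the blocks (circuit-hyperplanes) of the first matroid. -/
def mX : Fin 7 → Fin 12 → Fin 2 :=
  ![![1, 1, 1, 1, 1, 1, 0, 0, 0, 0, 0, 0],
    ![1, 1, 1, 1, 0, 0, 1, 1, 0, 0, 0, 0],
    ![1, 1, 0, 0, 0, 0, 1, 1, 0, 0, 1, 1],
    ![1, 1, 0, 0, 0, 0, 0, 0, 1, 1, 1, 1],
    ![0, 0, 1, 1, 1, 1, 0, 0, 0, 0, 1, 1],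
    ![0, 0, 1, 1, 0, 0, 1, 1, 1, 1, 0, 0],
    ![0, 0, 0, 0, 1, 1, 1, 1, 1, 1, 0, 0]]

/-- Incidence matrix of the blocks (circuit-hyperplanes) of the second matroid. -/
def mY : Fin 7 → Fin 12 → Fin 2 :=
  ![![1, 1, 1, 1, 0, 0, 0, 0, 1, 1, 0, 0],
    ![1, 1, 1, 1, 0, 0, 0, 0, 0, 0, 1, 1],
    ![1, 1, 0, 0, 1, 1, 1, 1, 0, 0, 0, 0],
    ![1, 1, 0, 0, 0, 0, 1, 1, 0, 0, 1, 1],
    ![0, 0, 1, 1, 1, 1, 1, 1, 0, 0, 0, 0],
    ![0, 0, 1, 1, 0, 0, 1, 1, 1, 1, 0, 0],
    ![0, 0, 0, 0, 1, 1, 0, 0, 1, 1, 1, 1]]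

/-- The blocks given by an incidence matrix. -/
def blk (m : Fin 7 → Fin 12 → Fin 2) (i : Fin 7) : Finset (Fin 12) :=
  Finset.univ.filter fun x => m i x = 1

theorem mem_blk (m : Fin 7 → Fin 12 → Fin 2) (i : Fin 7) (x : Fin 12) :
    x ∈ blk m i ↔ m i x = 1 := by simp [blk]

/-- The sparse paving matroid of rank 6 on `Fin 12` with seven given circuit-hyperplanes. -/
def sp (b : Fin 7 → Finset (Fin 12)) (h1 : ∀ i, (b i).card = 6)
    (h2 : ∀ i j, i ≠ j → (b i ∩ b j).card ≤ 4) : Matroid (Fin 12) :=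
  (IndepMatroid.ofFinset Set.univ (fun I => I.card ≤ 6 ∧ ∀ i, I ≠ b i)
    ⟨by simp, fun i h => by have := h1 i; rw [← h] at this; simp at this⟩
    (by
      intro I J hJ hIJ
      have hc := Finset.card_le_card hIJ
      refine ⟨hc.trans hJ.1, fun i hI => ?_⟩
      have h6 := h1 i
      rw [← hI] at h6
      have : I = J := Finset.eq_of_subset_of_card_le hIJ (by rw [h6]; exact hJ.1)
      exact hJ.2 i (this ▸ hI))
    (by
      intro I J hI hJ hlt
      obtain ⟨e, heJ, heI⟩ : ∃ e ∈ J, e ∉ I := by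
        by_contra hcon
        push Not at hcon
        exact absurd (Finset.card_le_card (fun x hx => hcon x hx)) (by omega)
      by_cases hins : ∃ i, insert e I = b i
      · obtain ⟨i, hi⟩ := hins
        have hI6 : I.card = 5 := by
          have := h1 i
          rw [← hi, Finset.card_insert_of_notMem heI] at this
          omega
        have hJ6 : J.card = 6 := by have := hJ.1; omega
        obtain ⟨e', heJ', heI'⟩ : ∃ e' ∈ J, e' ∉ insert e I := by
          by_contra hcon
          push Not at hcon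
          have hsub : J ⊆ insert e I := fun x hx => hcon x hx
          have heq : J = insert e I := Finset.eq_of_subset_of_card_le hsub (by
            rw [hi, h1, hJ6])
          exact hJ.2 i (heq.trans hi)
        have heI'' : e' ∉ I := fun h => heI' (Finset.mem_insert_of_mem h)
        refine ⟨e', heJ', heI'', ?_, fun j hj => ?_⟩
        · rw [Finset.card_insert_of_notMem heI'']; omega
        · have hneq : i ≠ j := by
            rintro rfl
            have : e' ∈ insert e I := by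
              rw [hi, ← hj]
              exact Finset.mem_insert_self _ _
            exact heI' this
          have hle := h2 i j hneq
          rw [← hi, ← hj] at hle
          have hsub : I ⊆ insert e I ∩ insert e' I :=
            Finset.subset_inter (Finset.subset_insert _ _) (Finset.subset_insert _ _)
          have := Finset.card_le_card hsub
          omega
      · push Not at hins
        refine ⟨e, heJ, heI, ?_, hins⟩
        rw [Finset.card_insert_of_notMem heI]
        have := hJ.1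
        omega)
    (fun _ _ => Set.subset_univ _)).matroid

theorem sp_E (b : Fin 7 → Finset (Fin 12)) (h1 : ∀ i, (b i).card = 6)
    (h2 : ∀ i j, i ≠ j → (b i ∩ b j).card ≤ 4) : (sp b h1 h2).E = Set.univ := rfl

theorem sp_indep (b : Fin 7 → Finset (Fin 12)) (h1 : ∀ i, (b i).card = 6)
    (h2 : ∀ i j, i ≠ j → (b i ∩ b j).card ≤ 4) (I : Finset (Fin 12)) :
    (sp b h1 h2).Indep (I : Set (Fin 12)) ↔ I.card ≤ 6 ∧ ∀ i, I ≠ b i := by
  unfold sp
  rw [IndepMatroid.matroid_indep_iff, IndepMatroid.ofFinset_indep]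

set_option maxRecDepth 20000

theorem X1 : ∀ i, (blk mX i).card = 6 := by decide
theorem Y1 : ∀ i, (blk mY i).card = 6 := by decide
theorem X2 : ∀ i j, i ≠ j → (blk mX i ∩ blk mX j).card ≤ 4 := by decide
theorem Y2 : ∀ i j, i ≠ j → (blk mY i ∩ blk mY j).card ≤ 4 := by decide

/-- Which pairs of distinct blocks of the second matroid meet in 4 elements. -/
def nY : Fin 7 → Fin 7 → Fin 2 :=
  ![![0, 1, 0, 0, 0, 1, 0],
    ![1, 0, 0, 1, 0, 0, 0],
    ![0, 0, 0, 1, 1, 0, 0],
    ![0, 1, 1, 0, 0, 0, 0],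
    ![0, 0, 1, 0, 0, 1, 0],
    ![1, 0, 0, 0, 1, 0, 0],
    ![0, 0, 0, 0, 0, 0, 0]]

theorem Y3 : ∀ i j, (blk mY i ∩ blk mY j).card = 4 → nY i j = 1 := by decide

theorem Y4 : ∀ i j, nY i j = 1 → ∀ k, nY i k = 1 → j ≠ k → ∀ l, nY i l = 1 → j = l ∨ k = l := by
  decide

theorem X4 : (blk mX 1 ∩ blk mX 0).card = 4 ∧ (blk mX 1 ∩ blk mX 2).card = 4 ∧
    (blk mX 1 ∩ blk mX 5).card = 4 := by decide

/-- The isomorphisms between deletions. -/
def fd : Fin 6 → Fin 12 → Fin 12 :=
  ![![0, 1, 4, 5, 8, 9, 2, 3, 6, 7, 10, 11],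
    ![0, 1, 2, 3, 8, 9, 4, 5, 10, 11, 6, 7],
    ![0, 1, 8, 9, 4, 5, 2, 3, 6, 7, 10, 11],
    ![8, 9, 0, 1, 2, 3, 6, 7, 4, 5, 10, 11],
    ![0, 1, 6, 7, 4, 5, 10, 11, 8, 9, 2, 3],
    ![4, 5, 6, 7, 0, 1, 2, 3, 8, 9, 10, 11]]

/-- The isomorphisms between contractions. -/
def fc : Fin 6 → Fin 12 → Fin 12 :=
  ![![0, 1, 2, 3, 8, 9, 10, 11, 4, 5, 6, 7],
    ![8, 9, 2, 3, 0, 1, 6, 7, 4, 5, 10, 11],
    ![0, 1, 6, 7, 4, 5, 8, 9, 10, 11, 2, 3],
    ![0, 1, 4, 5, 8, 9, 6, 7, 2, 3, 10, 11],
    ![4, 5, 0, 1, 6, 7, 2, 3, 8, 9, 10, 11],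
    ![0, 1, 4, 5, 8, 9, 2, 3, 6, 7, 10, 11]]

/-- The vertex of which `e` is a clone. -/
def vtx : Fin 12 → Fin 6 := ![0, 0, 1, 1, 2, 2, 3, 3, 4, 4, 5, 5]

theorem fd_inj : ∀ v, Function.Injective (fd v) := by decide
theorem fc_inj : ∀ v, Function.Injective (fc v) := by decide
theorem fd_fix : ∀ e, fd (vtx e) e = e := by decide
theorem fc_fix : ∀ e, fc (vtx e) e = e := by decide

theorem fd_fwd : ∀ e i, mX i e = 0 → ∃ j, ∀ x, mY j (fd (vtx e) x) = mX i x := by decide
theorem fd_bwd : ∀ e j, mY j e = 0 → ∃ i, ∀ x, mY j (fd (vtx e) x) = mX i x := by decide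
theorem fc_fwd : ∀ e i, mX i e = 1 → ∃ j, ∀ x, mY j (fc (vtx e) x) = mX i x := by decide
theorem fc_bwd : ∀ e j, mY j e = 1 → ∃ i, ∀ x, mY j (fc (vtx e) x) = mX i x := by decide

theorem img (f : Fin 12 → Fin 12) (hf : Function.Injective f) (i j : Fin 7)
    (h : ∀ x, mY j (f x) = mX i x) : (blk mX i).image f = blk mY j := by
  ext y
  obtain ⟨x, rfl⟩ := (Finite.injective_iff_bijective.1 hf).2 y
  rw [hf.mem_finset_image, mem_blk, mem_blk, h]

theorem bij (f : Fin 12 → Fin 12) (hf : Function.Injective f) (e : Fin 12) (he : f e = e) :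
    Set.BijOn f (Set.univ \ {e}) (Set.univ \ {e}) := by
  have hb := Finite.injective_iff_bijective.1 hf
  refine ⟨fun x hx => ?_, hf.injOn, fun y hy => ?_⟩
  · simp only [Set.mem_sdiff, Set.mem_univ, true_and, Set.mem_singleton_iff] at hx ⊢
    intro h
    exact hx (hf (h.trans he.symm))
  · obtain ⟨x, rfl⟩ := hb.2 y
    refine ⟨x, ?_, rfl⟩
    simp only [Set.mem_sdiff, Set.mem_univ, true_and, Set.mem_singleton_iff] at hy ⊢
    rintro rfl
    exact hy he

theorem zero_of_ne_one : ∀ a : Fin 2, a ≠ 1 → a = 0 := by decide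

/-- The first matroid. -/
def MX : Matroid (Fin 12) := sp (blk mX) X1 X2

/-- The second matroid. -/
def MY : Matroid (Fin 12) := sp (blk mY) Y1 Y2

theorem MX_E : MX.E = Set.univ := sp_E (blk mX) X1 X2
theorem MY_E : MY.E = Set.univ := sp_E (blk mY) Y1 Y2

theorem MX_indep (I : Finset (Fin 12)) :
    MX.Indep (I : Set (Fin 12)) ↔ I.card ≤ 6 ∧ ∀ i, I ≠ blk mX i := sp_indep (blk mX) X1 X2 I
theorem MY_indep (I : Finset (Fin 12)) :
    MY.Indep (I : Set (Fin 12)) ↔ I.card ≤ 6 ∧ ∀ i, I ≠ blk mY i := sp_indep (blk mY) Y1 Y2 I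

theorem noniso : ¬ ∃ f : Fin 12 → Fin 12, Set.BijOn f MX.E MY.E ∧
    ∀ I ⊆ MX.E, (MX.Indep I ↔ MY.Indep (f '' I)) := by
  rintro ⟨f, hf, hI⟩
  have hinj : Function.Injective f := by
    have := hf.injOn
    rwa [MX_E, Set.injOn_univ] at this
  have hblk : ∀ i, ∃ j, (blk mX i).image f = blk mY j := by
    intro i
    have h := hI (blk mX i : Set (Fin 12)) (by rw [MX_E]; exact Set.subset_univ _)
    rw [← Finset.coe_image, MX_indep, MY_indep, Finset.card_image_of_injective _ hinj,
      X1 i] at h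
    by_contra hcon
    push Not at hcon
    exact (h.2 ⟨le_rfl, hcon⟩).2 i rfl
  choose g hg using hblk
  have hint : ∀ i j, (blk mY (g i) ∩ blk mY (g j)).card = (blk mX i ∩ blk mX j).card := by
    intro i j
    rw [← hg, ← hg, ← Finset.image_inter _ _ hinj, Finset.card_image_of_injective _ hinj]
  have hne : ∀ i j, i ≠ j → g i ≠ g j := by
    intro i j hij h
    have h1 := hint i j
    rw [h, Finset.inter_self, Y1] at h1
    have h2 := X2 i j hij
    omega
  have a0 := Y3 _ _ ((hint 1 0).trans X4.1)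
  have a2 := Y3 _ _ ((hint 1 2).trans X4.2.1)
  have a5 := Y3 _ _ ((hint 1 5).trans X4.2.2)
  rcases Y4 _ _ a0 _ a2 (hne 0 2 (by decide)) _ a5 with h | h
  · exact hne 0 5 (by decide) h
  · exact hne 2 5 (by decide) h

theorem delIso (e : Fin 12) : ∃ f : Fin 12 → Fin 12,
    Set.BijOn f (MX.delete {e}).E (MY.delete {e}).E ∧
      ∀ I ⊆ (MX.delete {e}).E, ((MX.delete {e}).Indep I ↔ (MY.delete {e}).Indep (f '' I)) := by
  refine ⟨fd (vtx e), ?_, fun I hI => ?_⟩
  · rw [Matroid.delete_ground, Matroid.delete_ground, MX_E, MY_E]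
    exact bij _ (fd_inj _) e (fd_fix e)
  lift I to Finset (Fin 12) using Set.toFinite I
  rw [Matroid.delete_ground, MX_E] at hI
  have heI : e ∉ I := fun h => (hI (Finset.mem_coe.2 h)).2 rfl
  have heI' : e ∉ I.image (fd (vtx e)) := by
    intro h
    obtain ⟨x, hx, hxe⟩ := Finset.mem_image.1 h
    exact heI ((fd_inj _ (hxe.trans (fd_fix e).symm)) ▸ hx)
  rw [Matroid.delete_indep_iff, Matroid.delete_indep_iff, ← Finset.coe_image, MX_indep,
    MY_indep, Finset.card_image_of_injective _ (fd_inj _), Set.disjoint_singleton_right,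
    Set.disjoint_singleton_right, Finset.mem_coe, Finset.mem_coe]
  have : (∀ i, I ≠ blk mX i) ↔ (∀ i, I.image (fd (vtx e)) ≠ blk mY i) := by
    constructor
    · intro h j hj
      rw [hj, mem_blk] at heI'
      obtain ⟨i, hi⟩ := fd_bwd e j (zero_of_ne_one _ heI')
      rw [← img _ (fd_inj _) i j hi] at hj
      exact h i (Finset.image_injective (fd_inj _) hj)
    · intro h i hi
      rw [hi, mem_blk] at heI
      obtain ⟨j, hj⟩ := fd_fwd e i (zero_of_ne_one _ heI)
      exact h j (by rw [hi, img _ (fd_inj _) i j hj])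
  rw [this]
  exact ⟨fun h => ⟨h.1, heI'⟩, fun h => ⟨h.1, heI⟩⟩

theorem conIso (e : Fin 12) : ∃ f : Fin 12 → Fin 12,
    Set.BijOn f (MX.contract {e}).E (MY.contract {e}).E ∧
      ∀ I ⊆ (MX.contract {e}).E,
        ((MX.contract {e}).Indep I ↔ (MY.contract {e}).Indep (f '' I)) := by
  refine ⟨fc (vtx e), ?_, fun I hI => ?_⟩
  · rw [Matroid.contract_ground, Matroid.contract_ground, MX_E, MY_E]
    exact bij _ (fc_inj _) e (fc_fix e)
  lift I to Finset (Fin 12) using Set.toFinite I
  rw [Matroid.contract_ground, MX_E] at hI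
  have heI : e ∉ I := fun h => (hI (Finset.mem_coe.2 h)).2 rfl
  have heI' : e ∉ I.image (fc (vtx e)) := by
    intro h
    obtain ⟨x, hx, hxe⟩ := Finset.mem_image.1 h
    exact heI ((fc_inj _ (hxe.trans (fc_fix e).symm)) ▸ hx)
  have hX : MX.IsNonloop e := by
    rw [← Matroid.indep_singleton, ← Finset.coe_singleton, MX_indep]
    refine ⟨by simp, fun i h => ?_⟩
    have := X1 i
    rw [← h] at this
    simp at this
  have hY : MY.IsNonloop e := by
    rw [← Matroid.indep_singleton, ← Finset.coe_singleton, MY_indep]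
    refine ⟨by simp, fun i h => ?_⟩
    have := Y1 i
    rw [← h] at this
    simp at this
  rw [hX.contractElem_indep_iff, hY.contractElem_indep_iff, ← Finset.coe_image,
    ← Finset.coe_insert, ← Finset.coe_insert, MX_indep, MY_indep, Finset.mem_coe,
    Finset.mem_coe, Finset.card_insert_of_notMem heI, Finset.card_insert_of_notMem heI',
    Finset.card_image_of_injective _ (fc_inj _)]
  have himg : insert e (I.image (fc (vtx e))) = (insert e I).image (fc (vtx e)) := by
    rw [Finset.image_insert, fc_fix]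
  have : (∀ i, insert e I ≠ blk mX i) ↔
      (∀ i, insert e (I.image (fc (vtx e))) ≠ blk mY i) := by
    rw [himg]
    constructor
    · intro h j hj
      have hm : e ∈ blk mY j := by
        rw [← hj, ← himg]; exact Finset.mem_insert_self _ _
      obtain ⟨i, hi⟩ := fc_bwd e j ((mem_blk _ _ _).1 hm)
      rw [← img _ (fc_inj _) i j hi] at hj
      exact h i (Finset.image_injective (fc_inj _) hj)
    · intro h i hi
      have hm : e ∈ blk mX i := by
        rw [← hi]; exact Finset.mem_insert_self _ _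
      obtain ⟨j, hj⟩ := fc_fwd e i ((mem_blk _ _ _).1 hm)
      exact h j (by rw [hi, img _ (fc_inj _) i j hj])
  rw [this]
  exact ⟨fun h => ⟨heI', h.2⟩, fun h => ⟨heI, h.2⟩⟩

theorem MX_card : 2 ≤ MX.E.ncard := by
  rw [MX_E, Set.ncard_univ, Nat.card_eq_fintype_card, Fintype.card_fin]
  norm_num

/-- The negation of the preceding statement: Every finite matroid M with at least two elements is minor reconstructible: any matroid N on the same ground set with N\e isomorphic to M\e and N/e isomorphic to M/e for every element e is isomorphic to M. -/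
theorem result :
    ¬ (∀ (α : Type) (M N : Matroid α), M.Finite → N.E = M.E → 2 ≤ M.E.ncard →
      (∀ e ∈ M.E,
        (∃ f : α → α, Set.BijOn f (M.delete {e}).E (N.delete {e}).E ∧
          ∀ I ⊆ (M.delete {e}).E, ((M.delete {e}).Indep I ↔ (N.delete {e}).Indep (f '' I))) ∧
        (∃ f : α → α, Set.BijOn f (M.contract {e}).E (N.contract {e}).E ∧
          ∀ I ⊆ (M.contract {e}).E, ((M.contract {e}).Indep I ↔ (N.contract {e}).Indep (f '' I)))) →
      ∃ f : α → α, Set.BijOn f M.E N.E ∧ ∀ I ⊆ M.E, (M.Indep I ↔ N.Indep (f '' I))) := by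
  intro hall
  exact noniso (hall (Fin 12) MX MY ⟨Set.toFinite _⟩ (MY_E.trans MX_E.symm) MX_card
    fun e _ => ⟨delIso e, conIso e⟩)

end Pool.Agent.S10936
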