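import Pool.Statements.S11236
-- import your own Pool.Agent.* helpers here

set_option autoImplicit false
open Pool Pool.MP_c19f90_co

namespace Pool.Agent.S11236

open Finset

/-- the vector `(a,b,c)` of `(Z_18)^3` -/
def vec (a b c : ZMod 18) : Fin 3 → ZMod 18 := ![a, b, c]

/-- third coordinates of the sixteen elements `(1,0,c)` -/
def Fset : Finset (ZMod 18) := univ.filter (fun c => c ≠ 0 ∧ c ≠ 9)
/-- third coordinates of the sixteen elements `(0,1,c)` -/
def Gset : Finset (ZMod 18) := univ.filter (fun c => c ≠ 0 ∧ c ≠ 10)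

def spec : Fin 9 → (Fin 3 → ZMod 18) :=
  ![vec 1 1 1, vec 1 1 10, vec 1 (-1) 0, vec (-1) 1 1, vec 0 0 9, vec 0 0 1, vec 0 0 10,
    vec 0 0 2, vec 0 0 11]

def AF : Finset (Fin 3 → ZMod 18) := Fset.image (vec 1 0)
def AG : Finset (Fin 3 → ZMod 18) := Gset.image (vec 0 1)
def AR : Finset (Fin 3 → ZMod 18) := univ.image spec
def A : Finset (Fin 3 → ZMod 18) := (AF ∪ AG) ∪ AR

theorem vec_inj (a b : ZMod 18) : Function.Injective (vec a b) := by
  intro c d h
  have := congrFun h 2
  simpa [vec] using this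

theorem spec_inj : Function.Injective spec := by decide

theorem disj1 : Disjoint AF AG := by
  rw [Finset.disjoint_left]
  intro x hx hy
  simp only [AF, AG, mem_image] at hx hy
  obtain ⟨c, _, rfl⟩ := hx
  obtain ⟨d, _, h⟩ := hy
  have := congrFun h 0
  simp only [vec, Matrix.cons_val_zero] at this
  exact absurd this (by decide)

theorem disj2 : Disjoint (AF ∪ AG) AR := by
  rw [Finset.disjoint_left]
  intro x hx hy
  simp only [AR, mem_image, mem_univ, true_and] at hy
  obtain ⟨i, rfl⟩ := hy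
  have key : ∀ i : Fin 9, ¬ (spec i 0 = 1 ∧ spec i 1 = 0) ∧ ¬ (spec i 0 = 0 ∧ spec i 1 = 1) := by
    decide
  rcases mem_union.1 hx with h | h
  · simp only [AF, mem_image] at h
    obtain ⟨c, _, h⟩ := h
    refine (key i).1 ⟨?_, ?_⟩
    · rw [← h]; simp [vec]
    · rw [← h]; simp [vec]
  · simp only [AG, mem_image] at h
    obtain ⟨c, _, h⟩ := h
    refine (key i).2 ⟨?_, ?_⟩
    · rw [← h]; simp [vec]
    · rw [← h]; simp [vec]

theorem card_F : Fset.card = 16 := by decide
theorem card_G : Gset.card = 16 := by decide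
theorem sum_F : ∑ c ∈ Fset, c = 0 := by decide
theorem sum_G : ∑ c ∈ Gset, c = 17 := by decide

theorem card_A : A.card = 41 := by
  unfold A
  rw [card_union_of_disjoint disj2, card_union_of_disjoint disj1]
  unfold AF AG AR
  rw [card_image_of_injective _ (vec_inj _ _), card_image_of_injective _ (vec_inj _ _),
    card_image_of_injective _ spec_inj, card_F, card_G]
  simp

set_option maxRecDepth 100000 in
/-- The finite check.  `m`, `n` are the numbers of chosen elements `(1,0,c)`, `(0,1,c)`. -/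
theorem check : ∀ b : Fin 9 → Bool,
    (∑ i, (if b i then spec i 0 else 0)) = 1 ∨ (∑ i, (if b i then spec i 1 else 0)) = 1 ∨
    ((∑ i, (if b i then spec i 0 else 0)) = 0 ∧ (∑ i, (if b i then spec i 1 else 0)) = 0 ∧
      ((∑ i, (if b i then spec i 2 else 0)) ≠ 0 ∨ ∀ i, b i = false)) ∨
    ((∑ i, (if b i then spec i 0 else 0)) = 2 ∧ (∑ i, (if b i then spec i 1 else 0)) = 0 ∧
      ((∑ i, (if b i then spec i 2 else 0)) ≠ 0)) ∨
    ((∑ i, (if b i then spec i 0 else 0)) = 0 ∧ (∑ i, (if b i then spec i 1 else 0)) = 2 ∧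
      ((∑ i, (if b i then spec i 2 else 0)) + 17 ≠ 0)) ∨
    ((∑ i, (if b i then spec i 0 else 0)) = 2 ∧ (∑ i, (if b i then spec i 1 else 0)) = 2 ∧
      ((∑ i, (if b i then spec i 2 else 0)) + 17 ≠ 0)) := by
  decide

theorem small1 : ∀ m : Fin 17, ((m : ℕ) : ZMod 18) + 1 ≠ 0 := by decide
theorem small0 : ∀ m : Fin 17, ((m : ℕ) : ZMod 18) + 0 = 0 → m = 0 := by decide
theorem small2 : ∀ m : Fin 17, ((m : ℕ) : ZMod 18) + 2 = 0 → m = 16 := by decide

theorem zsf (B : Finset (Fin 3 → ZMod 18)) (hB : B ⊆ A) (hne : B.Nonempty) :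
    ∑ x ∈ B, x ≠ 0 := by
  intro h0
  classical
  obtain ⟨b, hb⟩ : ∃ b : Fin 9 → Bool, ∀ i, b i = true ↔ spec i ∈ B :=
    ⟨fun i => decide (spec i ∈ B), fun i => by simp⟩
  obtain ⟨BF, hBF⟩ : ∃ BF : Finset (ZMod 18), BF = Fset.filter (fun c => vec 1 0 c ∈ B) := ⟨_, rfl⟩
  obtain ⟨BG, hBG⟩ : ∃ BG : Finset (ZMod 18), BG = Gset.filter (fun c => vec 0 1 c ∈ B) := ⟨_, rfl⟩
  have hsum : ∑ x ∈ B, x = (∑ c ∈ BF, vec 1 0 c + ∑ c ∈ BG, vec 0 1 c)
      + ∑ i, (if b i then spec i else 0) := by
    have h1 : ∑ x ∈ B, x = ∑ x ∈ A, if x ∈ B then x else 0 := by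
      rw [← Finset.sum_filter, Finset.filter_mem_eq_inter, inter_eq_right.2 hB]
    rw [h1]
    unfold A
    rw [sum_union disj2, sum_union disj1]
    unfold AF AG AR
    rw [sum_image (fun x _ y _ h => vec_inj _ _ h), sum_image (fun x _ y _ h => vec_inj _ _ h),
      sum_image (fun x _ y _ h => spec_inj h), hBF, hBG, sum_filter, sum_filter]
    congr 1
    apply sum_congr rfl
    intro i _
    by_cases hi : spec i ∈ B
    · rw [if_pos hi, if_pos ((hb i).2 hi)]
    · rw [if_neg hi, if_neg (fun h => hi ((hb i).1 h))]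
  rw [hsum] at h0
  have e0 : (BF.card : ZMod 18) + ∑ i, (if b i then spec i 0 else 0) = 0 := by
    have := congrFun h0 0
    simpa [vec, Finset.sum_apply, ite_apply] using this
  have e1 : (BG.card : ZMod 18) + ∑ i, (if b i then spec i 1 else 0) = 0 := by
    have := congrFun h0 1
    simpa [vec, Finset.sum_apply, ite_apply] using this
  have e2 : ∑ c ∈ BF, c + ∑ c ∈ BG, c + ∑ i, (if b i then spec i 2 else 0) = 0 := by
    have := congrFun h0 2
    simpa [vec, Finset.sum_apply, ite_apply] using this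
  have hFs : BF ⊆ Fset := by rw [hBF]; exact filter_subset _ _
  have hGs : BG ⊆ Gset := by rw [hBG]; exact filter_subset _ _
  have hFc : BF.card < 17 := by have := card_le_card hFs; rw [card_F] at this; omega
  have hGc : BG.card < 17 := by have := card_le_card hGs; rw [card_G] at this; omega
  have F0 : ∑ i, (if b i then spec i 0 else 0) = 0 → BF = ∅ := by
    intro h
    rw [h] at e0
    have := small0 ⟨BF.card, hFc⟩ e0
    have h2 : BF.card = 0 := by simpa using congrArg Fin.val this
    exact card_eq_zero.1 h2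
  have G0 : ∑ i, (if b i then spec i 1 else 0) = 0 → BG = ∅ := by
    intro h
    rw [h] at e1
    have := small0 ⟨BG.card, hGc⟩ e1
    have h2 : BG.card = 0 := by simpa using congrArg Fin.val this
    exact card_eq_zero.1 h2
  have F2 : ∑ i, (if b i then spec i 0 else 0) = 2 → BF = Fset := by
    intro h
    rw [h] at e0
    have := small2 ⟨BF.card, hFc⟩ e0
    have h2 : BF.card = 16 := by simpa using congrArg Fin.val this
    exact eq_of_subset_of_card_le hFs (by rw [card_F, h2])
  have G2 : ∑ i, (if b i then spec i 1 else 0) = 2 → BG = Gset := by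
    intro h
    rw [h] at e1
    have := small2 ⟨BG.card, hGc⟩ e1
    have h2 : BG.card = 16 := by simpa using congrArg Fin.val this
    exact eq_of_subset_of_card_le hGs (by rw [card_G, h2])
  rcases check b with h | h | ⟨h, h', h''⟩ | ⟨h, h', h''⟩ | ⟨h, h', h''⟩ | ⟨h, h', h''⟩
  · rw [h] at e0; exact small1 ⟨BF.card, hFc⟩ e0
  · rw [h] at e1; exact small1 ⟨BG.card, hGc⟩ e1
  · rw [F0 h, G0 h'] at e2
    rcases h'' with h'' | h''
    · exact h'' (by simpa using e2)
    · obtain ⟨x, hx⟩ := hne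
      have hxA := hB hx
      rcases mem_union.1 hxA with hx1 | hx1
      · rcases mem_union.1 hx1 with hx2 | hx2
        · obtain ⟨c, hc, rfl⟩ := mem_image.1 hx2
          have : c ∈ BF := by rw [hBF]; exact mem_filter.2 ⟨hc, hx⟩
          rw [F0 h] at this
          simp at this
        · obtain ⟨c, hc, rfl⟩ := mem_image.1 hx2
          have : c ∈ BG := by rw [hBG]; exact mem_filter.2 ⟨hc, hx⟩
          rw [G0 h'] at this
          simp at this
      · obtain ⟨i, _, rfl⟩ := mem_image.1 hx1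
        have := (hb i).2 hx
        rw [h'' i] at this
        exact absurd this (by simp)
  · rw [F2 h, G0 h', sum_F] at e2
    exact h'' (by simpa using e2)
  · rw [F0 h, G2 h', sum_G] at e2
    apply h''
    rw [add_comm]
    simpa using e2
  · rw [F2 h, G2 h', sum_F, sum_G] at e2
    apply h''
    rw [add_comm]
    simpa using e2

theorem floor_val : ⌊(Real.sqrt (8 * ((18 : ℕ) : ℝ) - 31) - 1) / 2⌋₊ = 4 := by
  have h1 : (10 : ℝ) < Real.sqrt (8 * ((18 : ℕ) : ℝ) - 31) := by
    apply Real.lt_sqrt_of_sq_lt; norm_num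
  have h2 : Real.sqrt (8 * ((18 : ℕ) : ℝ) - 31) < 11 := by
    rw [Real.sqrt_lt' (by norm_num)]; norm_num
  generalize Real.sqrt (8 * ((18 : ℕ) : ℝ) - 31) = s at h1 h2
  have h3 : (0 : ℝ) ≤ (s - 1) / 2 := by linarith
  rw [Nat.floor_eq_iff h3]
  constructor
  · push_cast; linarith
  · push_cast; linarith

/-- The negation of the preceding statement: For all r ≥ 3 and k ≥ 2, the largest subset of (Z_k)^r with no nonempty subset summing to zero has exactly the size given by the stated lower-bound formula (separate cases for r = 3 and r ≥ 4). -/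
theorem result :
    ¬ (∀ r k : ℕ, 3 ≤ r → 2 ≤ k → ∀ n : ℕ,
      n = (if r = 3 then
              (if k ≤ 3 then 3 * (k - 1)
               else 2 * k + ⌊(Real.sqrt (8 * (k : ℝ) - 31) - 1) / 2⌋₊)
           else
              (if k ≤ r + 1 then r * (k - 1)
               else (r - 1) * k + ⌊(Real.sqrt (8 * ((k : ℝ) - (r : ℝ)) + 1) - 1) / 2⌋₊)) →
      (∃ A : Finset (Fin r → ZMod k), A.card = n ∧
          ∀ B : Finset (Fin r → ZMod k), B ⊆ A → B.Nonempty → ∑ x ∈ B, x ≠ 0) ∧
      (∀ A : Finset (Fin r → ZMod k),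
          (∀ B : Finset (Fin r → ZMod k), B ⊆ A → B.Nonempty → ∑ x ∈ B, x ≠ 0) →
          A.card ≤ n)) := by
  intro H
  have h := (H 3 18 (le_refl 3) (by norm_num) _ rfl).2 A (fun B hB hne => zsf B hB hne)
  rw [card_A, if_pos rfl, if_neg (by norm_num), floor_val] at h
  omega

end Pool.Agent.S11236
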