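import Pool.Statements.S11955
import Pool.Agent.Helper71.GPColor

set_option autoImplicit false
open Pool Pool.MP_dfca13_co

namespace Pool.Agent.S11955

/-- There is a constant C such that every finite planar point set of size n with no more than √n points on a line can be coloured with at most C√n colours so that no three distinct points of one colour are collinear. -/
theorem result :
    ∃ C : ℝ, ∀ P : Finset (EuclideanSpace ℝ (Fin 2)),
      (∀ S : Finset (EuclideanSpace ℝ (Fin 2)), S ⊆ P →
          Collinear ℝ (S : Set (EuclideanSpace ℝ (Fin 2))) →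
          (S.card : ℝ) ≤ Real.sqrt (P.card : ℝ)) →
      ∃ (k : ℕ) (c : EuclideanSpace ℝ (Fin 2) → ℕ),
        (k : ℝ) ≤ C * Real.sqrt (P.card : ℝ) ∧
        (∀ p ∈ P, c p < k) ∧
        ∀ a ∈ P, ∀ b ∈ P, ∀ d ∈ P, a ≠ b → a ≠ d → b ≠ d →
          c a = c b → c a = c d →
          ¬ Collinear ℝ ({a, b, d} : Set (EuclideanSpace ℝ (Fin 2))) :=
  Pool.Agent.Helper71.GPColor.s11955_of_weighted Pool.Agent.Helper60.GP.weighted

end Pool.Agent.S11955
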