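import Pool.Statements.S12003
import Pool.Agent.Helper71.CruxMain

set_option autoImplicit false
open Pool Pool.MP_e1d64d_co

namespace Pool.Agent.S12003

/-- There are constants c>0 and d0 such that every n-vertex graph of average degree at least d0 has at least n·2^(c·t) vertex sets spanning a cycle of G, where t is the crux: the least size of a vertex set whose induced average degree is at least one fifth of G's. -/
theorem result :
    ∃ c : ℝ, 0 < c ∧ ∃ d₀ : ℝ, ∀ (V : Type) [Fintype V] [DecidableEq V] (G : SimpleGraph V),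
      (2 * (G.edgeSet.ncard : ℝ)) / (Fintype.card V : ℝ) ≥ d₀ →
      ∀ t : ℕ,
        (∀ S : Finset V, S.Nonempty →
          5 * ((2 * ({e ∈ G.edgeSet | ∀ v ∈ e, v ∈ S}.ncard : ℝ)) / (S.card : ℝ))
            ≥ (2 * (G.edgeSet.ncard : ℝ)) / (Fintype.card V : ℝ) →
          t ≤ S.card) →
        ((Set.ncard {U : Finset V | ∃ u : V, ∃ p : G.Walk u u,
            p.IsCycle ∧ p.support.toFinset = U} : ℕ) : ℝ)
          ≥ (Fintype.card V : ℝ) * (2 : ℝ) ^ (c * (t : ℝ)) := by
  classical
  refine ⟨1 / 1843200, by norm_num, 5 * 10 ^ 25, ?_⟩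
  intro V _ _ G hd t ht
  set n : ℝ := (Fintype.card V : ℝ) with hn
  have hd' : (5 * 10 ^ 25 : ℝ) ≤ (2 * (G.edgeSet.ncard : ℝ)) / n := hd
  have hnpos : 0 < n := by
    have hn0 : (0 : ℝ) ≤ n := Nat.cast_nonneg (Fintype.card V)
    rcases hn0.eq_or_lt with h | h
    · rw [← h, div_zero] at hd'
      norm_num at hd'
    · exact h
  have hE : ∀ S : Finset V, (2 * ({e ∈ G.edgeSet | ∀ v ∈ e, v ∈ S}.ncard : ℝ))
      = Helper71.Crux.adjp G S := by
    intro S
    exact_mod_cast Helper71.Crux.two_mul_ncard G S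
  have hEuniv : (2 * (G.edgeSet.ncard : ℝ)) = Helper71.Crux.adjp G Finset.univ := by
    rw [← hE Finset.univ]
    congr 3
    ext e
    simp
  rw [hEuniv] at hd'
  set d : ℝ := (Helper71.Crux.adjp G Finset.univ : ℝ) / n with hddef
  have hdn : d * n = Helper71.Crux.adjp G Finset.univ := by rw [hddef]; field_simp
  have hd0 : 0 < d := lt_of_lt_of_le (by norm_num) hd'
  have hcard : ((Finset.univ : Finset V).card : ℝ) = n := by rw [Finset.card_univ]
  have huniv : (Finset.univ : Finset V).Nonempty := by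
    rw [← Finset.card_pos]
    have : (0 : ℝ) < (Finset.univ : Finset V).card := by rw [hcard]; exact hnpos
    exact_mod_cast this
  have key := Helper71.Crux.main_ind G (d / 5) t (by linarith)
    (by
      intro F hF hFd
      have hFpos : (0 : ℝ) < F.card := by exact_mod_cast Finset.card_pos.2 hF
      apply ht F hF
      rw [hE F, hEuniv]
      change d ≤ 5 * ((Helper71.Crux.adjp G F : ℝ) / F.card)
      have : d / 5 ≤ (Helper71.Crux.adjp G F : ℝ) / F.card := by
        rw [le_div_iff₀ hFpos]; exact hFd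
      linarith)
    _ Finset.univ rfl huniv (by rw [hcard, ← hdn]; exact le_of_eq (by ring))
  have hcyc : (Set.ncard {U : Finset V | ∃ u : V, ∃ p : G.Walk u u,
            p.IsCycle ∧ p.support.toFinset = U}) = (Helper71.Crux.cyc G Finset.univ).card := by
    rw [← Set.ncard_coe_finset]
    congr 1
    ext U
    rw [Finset.mem_coe, Helper71.Crux.mem_cyc]
    simp
  rw [hcyc]
  refine le_trans ?_ key
  rw [hcard, ← hdn, mul_div_assoc, div_self hnpos.ne', mul_one]
  have h1 : d * n * (d / (d / 5)) = 5 * d * n := by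
    field_simp
  rw [h1]
  have h2 : (2 : ℝ) ^ (1 / 1843200 * (t : ℝ)) ≤ Real.exp (t / 1843200) := by
    rw [Real.rpow_def_of_pos (by norm_num)]
    apply Real.exp_le_exp.2
    have h3 : Real.log 2 ≤ 1 := by linarith [Real.log_two_lt_d9]
    have h4 : (0 : ℝ) ≤ 1 / 1843200 * (t : ℝ) := by positivity
    nlinarith
  apply mul_le_mul _ h2 (by positivity) (by positivity)
  nlinarith

end Pool.Agent.S12003
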