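import Pool.Statements.S12282
import Pool.Agent.Helper63.Chrom.Final

set_option autoImplicit false
open Filter Topology Classical
open Pool Pool.MP_ee3012_co

namespace Pool.Agent.S12282

/-- The negation of the preceding statement: There is a 4-chromatic graph H and edge probability p with n^(-1/m2(H)) ≪ p ≪ n^(-1/2) and some d < 2/3, C such that, a.a.s., every H-free spanning subgraph of G(n,p) with min degree ≥ dpn is C-colourable. -/
theorem result :
    ¬ (∃ k : ℕ, ∃ H : SimpleGraph (Fin k), H.chromaticNumber = 4 ∧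
      ∃ p : ℕ → ℝ, (∀ n, 0 < p n ∧ p n ≤ 1) ∧
        (∀ F : H.Subgraph, 3 ≤ F.verts.ncard → 2 ≤ F.edgeSet.ncard →
          Tendsto (fun n : ℕ => (n : ℝ) ^ (-(((F.verts.ncard : ℝ) - 2) /
            ((F.edgeSet.ncard : ℝ) - 1))) / p n) atTop (nhds 0)) ∧
        Tendsto (fun n : ℕ => p n * Real.sqrt n) atTop (nhds 0) ∧
        ∃ d : ℝ, d < 2 / 3 ∧ ∃ C : ℕ,
          Tendsto (fun n : ℕ => ∑ Γ : SimpleGraph (Fin n),
            if (∀ G : SimpleGraph (Fin n), G ≤ Γ → ¬ H.IsContained G →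
                (∀ v, d * p n * n ≤ ((G.neighborSet v).ncard : ℝ)) → G.Colorable C)
            then p n ^ Γ.edgeSet.ncard * (1 - p n) ^ (n.choose 2 - Γ.edgeSet.ncard)
            else 0) atTop (nhds 1)) := by
  rintro ⟨k, H, hχ, p, hp, hF, hsq, d, hd, C, hlim⟩
  have hH : ¬ H.Colorable 3 := by
    intro h
    have h1 := h.chromaticNumber_le
    rw [hχ] at h1
    exact absurd h1 (by decide)
  obtain ⟨F, ℓ, hℓ, hv, he⟩ := Pool.Agent.Helper63.Chrom.exists_cycle_subgraph H
    (fun h => hH (h.mono (by norm_num)))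
  have hten := hF F (by rw [hv]; exact hℓ) (by rw [he]; omega)
  rw [hv, he] at hten
  have hℓ' : (3 : ℝ) ≤ ℓ := by exact_mod_cast hℓ
  set β : ℝ := ((ℓ : ℝ) - 2) / ((ℓ : ℝ) - 1) with hβ
  have hβ1 : β < 1 := by
    rw [hβ, div_lt_one (by linarith)]; linarith
  set α : ℝ := 1 - β with hα
  have hα0 : 0 < α := by rw [hα]; linarith
  obtain ⟨p₀, hp₀, X, b, hb, hfin⟩ := Pool.Agent.Helper63.Chrom.finite_bound H hH
    (C := max C 2) (le_max_right _ _) (d := max d 0) (le_max_right _ _)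
    (max_lt hd (by norm_num))
  -- eventually small
  have ev1 : ∀ᶠ n : ℕ in atTop, p n ≤ p₀ := by
    have h1 : ∀ᶠ n : ℕ in atTop, p n * Real.sqrt n < p₀ := hsq.eventually_lt_const hp₀
    filter_upwards [h1, eventually_ge_atTop 1] with n hn hn1
    have h2 : 1 ≤ Real.sqrt n := by
      rw [Real.one_le_sqrt]
      exact_mod_cast hn1
    have h3 := (hp n).1
    nlinarith
  have ev2 : ∀ᶠ n : ℕ in atTop, (n : ℝ) ^ α ≤ p n * n := by
    have h1 : ∀ᶠ n : ℕ in atTop, (n : ℝ) ^ (-β) / p n < 1 := hten.eventually_lt_const one_pos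
    filter_upwards [h1, eventually_ge_atTop 1] with n hn hn1
    have hn0 : (0 : ℝ) < n := by exact_mod_cast hn1
    have h3 := (hp n).1
    rw [div_lt_one h3] at hn
    have h4 : (n : ℝ) ^ α = (n : ℝ) ^ (-β) * n := by
      rw [hα, sub_eq_neg_add, Real.rpow_add hn0, Real.rpow_one]
    rw [h4]
    exact mul_le_mul_of_nonneg_right hn.le hn0.le
  have hpow : Tendsto (fun n : ℕ => (n : ℝ) ^ α) atTop atTop :=
    (tendsto_rpow_atTop hα0).comp tendsto_natCast_atTop_atTop
  have ev3 : ∀ᶠ n : ℕ in atTop, X ≤ (n : ℝ) ^ α := hpow.eventually_ge_atTop X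
  have ev4 : ∀ᶠ n : ℕ in atTop, (n : ℝ) * Real.exp (- (b * (n : ℝ) ^ α)) ≤ 1 / 16 := by
    have h1 := (tendsto_rpow_mul_exp_neg_mul_atTop_nhds_zero (1 / α) b hb).comp hpow
    have h2 : ∀ᶠ n : ℕ in atTop, ((n : ℝ) ^ α) ^ (1 / α) * Real.exp (-b * (n : ℝ) ^ α) < 1 / 16 :=
      h1.eventually_lt_const (by norm_num)
    filter_upwards [h2] with n hn
    rw [← Real.rpow_mul (by positivity), mul_one_div, div_self hα0.ne', Real.rpow_one,
      neg_mul] at hn
    exact hn.le
  have ev5 := hlim.eventually_const_lt (show (1 / 2 : ℝ) < 1 by norm_num)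
  obtain ⟨n, h1, h2, h3, h4, h5⟩ := (ev1.and (ev2.and (ev3.and (ev4.and ev5)))).exists
  have hp0 := (hp n).1
  have hp1 := (hp n).2
  have hbad := hfin n (p n) hp0 hp1 h1 (h3.trans h2) (by
    refine le_trans ?_ h4
    apply mul_le_mul_of_nonneg_left _ (by positivity)
    rw [Real.exp_le_exp]
    have := mul_le_mul_of_nonneg_left h2 hb.le
    linarith)
  rw [Pool.Agent.Helper63.Chrom.sum_graph] at h5
  have hcompl := Pool.Agent.Helper63.Chrom.PP_compl (p n)
    (Pool.Agent.Helper63.Chrom.ins (Finset.univ : Finset (Fin n)))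
    (fun S => Pool.Agent.Helper63.Chrom.Bad H (max d 0 * p n * n) (max C 2)
      (SimpleGraph.fromEdgeSet (S : Set (Sym2 (Fin n)))))
  have hle : Pool.Agent.Helper63.Chrom.PP (p n)
      (Pool.Agent.Helper63.Chrom.ins (Finset.univ : Finset (Fin n)))
      (fun S => ∀ G : SimpleGraph (Fin n), G ≤ (SimpleGraph.fromEdgeSet (S : Set (Sym2 (Fin n)))) →
        ¬ H.IsContained G →
        (∀ v, d * p n * n ≤ ((G.neighborSet v).ncard : ℝ)) → G.Colorable C) ≤
      Pool.Agent.Helper63.Chrom.PP (p n)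
      (Pool.Agent.Helper63.Chrom.ins (Finset.univ : Finset (Fin n)))
      (fun S => ¬ Pool.Agent.Helper63.Chrom.Bad H (max d 0 * p n * n) (max C 2)
      (SimpleGraph.fromEdgeSet (S : Set (Sym2 (Fin n))))) := by
    apply Pool.Agent.Helper63.Chrom.PP_mono hp0.le hp1
    rintro S _ hgood ⟨G, hG1, hG2, hG3, hG4⟩
    apply hG4
    have h6 := hgood G hG1 hG2 (by
      intro v
      refine le_trans ?_ (hG3 v)
      have : d ≤ max d 0 := le_max_left _ _
      have h7 : 0 ≤ p n * n := by positivity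
      have h8 := mul_le_mul_of_nonneg_right this h7
      linarith)
    exact h6.mono (le_max_left _ _)
  rw [hcompl] at hle
  linarith

end Pool.Agent.S12282
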