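import Pool.Statements.S14435
import Pool.Agent.Helper89.MEF.H89_Rigid

set_option autoImplicit false
open Pool Pool.MP_1ac1d4_lc

namespace Pool.Agent.S14435

/-- Every automorphism of the degrees of mass problems of partial functions under enumeration reducibility sends each degree containing a mass problem of total functions to another degree containing one, i.e. the embedded Medvedev lattice is automorphism invariant. -/
theorem result :
  ∀ R : Set (ℕ →. ℕ) → Set (ℕ →. ℕ) → Prop,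
    (∀ A B, R A B ↔ ∃ g : ℕ × List ℕ →. Unit, Partrec g ∧
       ∀ f ∈ B, ∃ h ∈ A, ∀ n : ℕ,
         ((∃ l : List ℕ, (g (n, l)).Dom ∧
              ∀ y ∈ l, (Nat.unpair y).2 ∈ f (Nat.unpair y).1) ↔
           (Nat.unpair n).2 ∈ h (Nat.unpair n).1)) →
    ∀ F : Set (ℕ →. ℕ) → Set (ℕ →. ℕ),
      (∀ A B, R (F A) (F B) ↔ R A B) →
      (∀ B, ∃ A, R (F A) B ∧ R B (F A)) →
      ∀ A : Set (ℕ →. ℕ),
        (∃ A' : Set (ℕ →. ℕ), (∀ f ∈ A', ∀ x, (f x).Dom) ∧ R A A' ∧ R A' A) →
        ∃ C : Set (ℕ →. ℕ), (∀ f ∈ C, ∀ x, (f x).Dom) ∧ R (F A) C ∧ R C (F A) := by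
  exact ME.S14435_of_rigid ME.rigid

end Pool.Agent.S14435
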