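import Pool.Statements.S14443
import Pool.Agent.SNIP.Final

set_option autoImplicit false
open Pool Pool.MP_1cfd08_lc

namespace Pool.Agent.S14443

/-- Every ordered field that is strongly NIP (no depth-ω ICT pattern of parameter-free definable sets in one variable) and dense in its real closure is real closed: positive elements are squares and odd-degree polynomials have roots. -/
theorem result :
    ∀ (K : Type) [Field K] [LinearOrder K] [IsStrictOrderedRing K],
      (¬ ∃ (k : ℕ → ℕ) (S : (i : ℕ) → Set (Fin (k i + 1) → K)),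
          (∀ i : ℕ, ∀ F : (n : ℕ) → Set (Set (Fin n → K)),
              (∀ (n : ℕ) (p : MvPolynomial (Fin n) ℤ),
                  {x : Fin n → K | MvPolynomial.eval₂ (Int.castRingHom K) x p = 0} ∈ F n) →
              (∀ (n : ℕ) (p : MvPolynomial (Fin n) ℤ),
                  {x : Fin n → K | 0 < MvPolynomial.eval₂ (Int.castRingHom K) x p} ∈ F n) →
              (∀ (n : ℕ) (s : Set (Fin n → K)), s ∈ F n → sᶜ ∈ F n) →
              (∀ (n : ℕ) (s t : Set (Fin n → K)), s ∈ F n → t ∈ F n → s ∩ t ∈ F n) →
              (∀ (n : ℕ) (s : Set (Fin (n + 1) → K)), s ∈ F (n + 1) →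
                  {x : Fin n → K | ∃ a : K, Fin.snoc (α := fun _ => K) x a ∈ s} ∈ F n) →
              S i ∈ F (k i + 1)) ∧
          ∀ n m : ℕ, ∃ a : (i : Fin n) → Fin m → (Fin (k i.val) → K),
            ∀ η : Fin n → Fin m, ∃ c : K, ∀ (i : Fin n) (j : Fin m),
              (Fin.cons (α := fun _ => K) c (a i j) ∈ S i.val ↔ j = η i)) →
      (∀ (R : Type) [Field R] [LinearOrder R] [IsStrictOrderedRing R] (f : K →+* R),
          StrictMono (f : K → R) →
          (∀ r : R, ∃ p : Polynomial K, p ≠ 0 ∧ p.eval₂ f r = 0) →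
          (∀ r : R, 0 < r → ∃ s : R, s * s = r) →
          (∀ p : Polynomial R, Odd p.natDegree → ∃ r : R, p.IsRoot r) →
          ∀ a b : R, a < b → ∃ c : K, a < f c ∧ f c < b) →
      (∀ x : K, 0 < x → ∃ y : K, y * y = x) ∧
        (∀ p : Polynomial K, Odd p.natDegree → ∃ x : K, p.IsRoot x) := by
  exact Pool.Agent.SNIP.final

end Pool.Agent.S14443
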