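import Pool.Statements.S14933
import Pool.Agent.Helper22.MainPoint

set_option autoImplicit false
open Filter Topology
open Pool Pool.MP_7a0c2d_lc

namespace Pool.Agent.S14933

open Pool.Agent.Helper22 in
/-- The Weyl condition as a countable intersection of F-sigma sets. -/
theorem weyl_pi03 (α : ℝ) : ∃ F : ℕ → ℕ → Set ℝ, (∀ i j, IsClosed (F i j)) ∧
    {ξ : ℝ | WeylCond (fun n => ξ * α ^ n)} = ⋂ i, ⋃ j, F i j := by
  refine ⟨fun i j => {ξ : ℝ | ∀ N ≥ j, ‖∑ n ∈ Finset.range N,
    ee ((((Nat.unpair i).1 + 1 : ℕ) : ℝ) * (ξ * α ^ n))‖ ≤ (N : ℝ) / ((Nat.unpair i).2 + 1)}, ?_, ?_⟩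
  · intro i j
    have h1 : {ξ : ℝ | ∀ N ≥ j, ‖∑ n ∈ Finset.range N,
        ee ((((Nat.unpair i).1 + 1 : ℕ) : ℝ) * (ξ * α ^ n))‖ ≤ (N : ℝ) / ((Nat.unpair i).2 + 1)} =
        ⋂ N ≥ j, {ξ : ℝ | ‖∑ n ∈ Finset.range N,
        ee ((((Nat.unpair i).1 + 1 : ℕ) : ℝ) * (ξ * α ^ n))‖ ≤ (N : ℝ) / ((Nat.unpair i).2 + 1)} := by
      ext ξ; simp
    show IsClosed {ξ : ℝ | ∀ N ≥ j, ‖∑ n ∈ Finset.range N,
        ee ((((Nat.unpair i).1 + 1 : ℕ) : ℝ) * (ξ * α ^ n))‖ ≤ (N : ℝ) / ((Nat.unpair i).2 + 1)}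
    rw [h1]
    apply isClosed_iInter; intro N
    apply isClosed_iInter; intro _
    apply isClosed_le _ continuous_const
    apply Continuous.norm
    apply continuous_finsetSum
    intro n _
    exact continuous_ee.comp (by fun_prop)
  · ext ξ
    rw [Set.mem_iInter]
    constructor
    · intro hW i
      have hW' : WeylCond (fun n => ξ * α ^ n) := hW
      have h1 := hW' ((Nat.unpair i).1 + 1) (Nat.succ_pos _)
      rw [Metric.tendsto_atTop] at h1
      obtain ⟨N0, hN0⟩ := h1 (1 / ((Nat.unpair i).2 + 1)) (by positivity)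
      rw [Set.mem_iUnion]
      refine ⟨max N0 1, fun N hN => ?_⟩
      have h2 := hN0 N ((le_max_left _ _).trans hN)
      have hNpos : (0:ℝ) < N := by
        have : 1 ≤ N := (le_max_right _ _).trans hN
        exact_mod_cast this
      rw [dist_zero_right, norm_div, Complex.norm_natCast, div_lt_iff₀ hNpos] at h2
      refine h2.le.trans (le_of_eq ?_)
      ring
    · intro hF
      show WeylCond (fun n => ξ * α ^ n)
      intro h h0
      rw [Metric.tendsto_atTop]
      intro ε hε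
      obtain ⟨k, hk⟩ := exists_nat_one_div_lt hε
      have h1 := hF (Nat.pair (h - 1) k)
      rw [Set.mem_iUnion] at h1
      obtain ⟨j, hj⟩ := h1
      refine ⟨max j 1, fun N hN => ?_⟩
      have h2 : ‖∑ n ∈ Finset.range N, ee ((((Nat.unpair (Nat.pair (h - 1) k)).1 + 1 : ℕ) : ℝ) *
        (ξ * α ^ n))‖ ≤ (N : ℝ) / ((Nat.unpair (Nat.pair (h - 1) k)).2 + 1) :=
        hj N ((le_max_left _ _).trans hN)
      rw [Nat.unpair_pair] at h2
      simp only at h2
      rw [Nat.sub_add_cancel h0] at h2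
      have hNpos : (0:ℝ) < N := by
        have : 1 ≤ N := (le_max_right _ _).trans hN
        exact_mod_cast this
      rw [dist_zero_right, norm_div, Complex.norm_natCast, div_lt_iff₀ hNpos]
      refine lt_of_le_of_lt h2 ?_
      rw [div_eq_mul_one_div, mul_comm]
      exact mul_lt_mul_of_pos_right hk hNpos

/-- For every real α with ∣α∣>1, the set of reals ξ with ξαⁿ uniformly distributed mod 1 is a countable intersection of F-sigma sets, and every such set in Baire space is its continuous preimage. -/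
theorem result :
    ∀ α : ℝ, 1 < |α| →
      ∀ A : Set ℝ,
        A = {ξ : ℝ | ∀ a b : ℝ, 0 ≤ a → a ≤ b → b ≤ 1 →
              Tendsto
                (fun N : ℕ =>
                  (((Finset.range N).filter
                      (fun n => a ≤ Int.fract (ξ * α ^ n) ∧ Int.fract (ξ * α ^ n) < b)).card : ℝ)
                    / (N : ℝ))
                atTop (𝓝 (b - a))} →
        (∃ F : ℕ → ℕ → Set ℝ, (∀ i j, IsClosed (F i j)) ∧ A = ⋂ i, ⋃ j, F i j) ∧
        (∀ B : Set (ℕ → ℕ),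
          (∃ G : ℕ → ℕ → Set (ℕ → ℕ), (∀ i j, IsClosed (G i j)) ∧ B = ⋂ i, ⋃ j, G i j) →
          ∃ f : (ℕ → ℕ) → ℝ, Continuous f ∧ f ⁻¹' A = B) := by
  intro α hα A hA
  have hAW : A = {ξ : ℝ | Pool.Agent.Helper22.WeylCond (fun n => ξ * α ^ n)} := by
    rw [hA]
    ext ξ
    constructor
    · intro h
      exact Pool.Agent.Helper22.weyl_of_freq_tendsto (u := fun n => ξ * α ^ n) h
    · intro h a b ha hab hb
      exact Pool.Agent.Helper22.freq_tendsto_of_weyl (u := fun n => ξ * α ^ n) h ha hab hb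
  refine ⟨?_, ?_⟩
  · rw [hAW]; exact weyl_pi03 α
  · rintro B ⟨G, hG, rfl⟩
    obtain ⟨lab, hlab, hpos, hneg⟩ := Pool.Agent.Helper22.exists_labels G hG
    obtain ⟨f, hf, hfpos, hfneg⟩ := Pool.Agent.Helper22.exists_point hα
    refine ⟨fun x => f (lab x), hf.comp hlab, ?_⟩
    rw [hAW]
    ext x
    constructor
    · intro hx
      by_contra hcon
      exact hfneg (lab x) (hneg x hcon) hx
    · intro hx
      exact hfpos (lab x) (hpos x hx)

end Pool.Agent.S14933
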