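import Pool.Statements.S16290
import Pool.Agent.Helper9.SeqFreq
import Pool.Agent.Helper9.CFTails
import Pool.Agent.Helper9.GaussKuzmin

set_option autoImplicit false
open Filter Topology
open scoped Classical
open Pool Pool.MP_219c9f_nt

namespace Pool.Agent.S16290

open Pool.Agent.Helper9

/-- Target frequencies for the free digits. -/
noncomputable def Q (k : ℕ) : ℝ :=
  (25 * gk k - 10 * (if k = 1 then 1 else 0) - 4 * (if k = 2 then 1 else 0)
    - (if k = 4 then 1 else 0)) / 10

theorem Q_zero : Q 0 = 0 := by simp [Q, gk_zero]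

theorem Q_nonneg (k : ℕ) : 0 ≤ Q k := by
  unfold Q
  have h1 := gk_one
  have h2 := gk_two
  have h4 := gk_four
  by_cases e1 : k = 1
  · subst e1; norm_num; linarith
  by_cases e2 : k = 2
  · subst e2; norm_num; linarith
  by_cases e4 : k = 4
  · subst e4; norm_num; linarith
  · rw [if_neg e1, if_neg e2, if_neg e4]
    have := gk_nonneg k
    linarith

theorem Q_hasSum : HasSum Q 1 := by
  have h1 : HasSum (fun k : ℕ => (if k = 1 then (1:ℝ) else 0)) 1 := hasSum_ite_eq 1 1
  have h2 : HasSum (fun k : ℕ => (if k = 2 then (1:ℝ) else 0)) 1 := hasSum_ite_eq 2 1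
  have h4 : HasSum (fun k : ℕ => (if k = 4 then (1:ℝ) else 0)) 1 := hasSum_ite_eq 4 1
  have h := ((((gk_hasSum.mul_left 25).sub (h1.mul_left 10)).sub (h2.mul_left 4)).sub h4).div_const 10
  have e : ((25 * 1 - 10 * 1 - 4 * 1 - 1) / 10 : ℝ) = 1 := by norm_num
  rw [e] at h
  exact h

theorem Q_shift_hasSum : HasSum (fun k => Q (k + 1)) 1 := by
  rw [hasSum_nat_add_iff (f := Q) 1]
  simpa [Q_zero] using Q_hasSum

theorem exists_free : ∃ f : ℕ → ℕ, (∀ n, 1 ≤ f n) ∧ ∀ k, 1 ≤ k → Tendsto
      (fun n : ℕ => (((Finset.range n).filter (fun i => f i = k)).card : ℝ) / (n : ℝ))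
      atTop (𝓝 (Q k)) := by
  obtain ⟨g, hg⟩ := exists_seq_freq (fun k => Q (k + 1)) (fun k => Q_nonneg _) Q_shift_hasSum
  refine ⟨fun n => g n + 1, fun n => Nat.le_add_left 1 (g n), fun k hk => ?_⟩
  obtain ⟨m, rfl⟩ : ∃ m, k = m + 1 := ⟨k - 1, by omega⟩
  simpa using hg m

/-- The digit pattern `(f, 1, 1, f, e)`, with `e = 4` in every fifth block and `e = 2`
otherwise; the free digits `f` are constant on each block of length `25`. -/
def dig (f : ℕ → ℕ) (n : ℕ) : ℕ :=
  if n % 5 = 0 ∨ n % 5 = 3 then f (n / 25)
  else if n % 5 = 4 then (if n % 25 = 24 then 4 else 2) else 1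

theorem dig_pos (f : ℕ → ℕ) (hf : ∀ n, 1 ≤ f n) (n : ℕ) : 1 ≤ dig f n := by
  unfold dig
  have := hf (n / 25)
  split_ifs <;> omega

theorem sum_dig (f : ℕ → ℕ) (k N : ℕ) :
    ((Finset.range (25 * N)).filter (fun i => dig f i = k)).card =
      10 * ((Finset.range N).filter (fun i => f i = k)).card
        + (10 * (if k = 1 then 1 else 0) + 4 * (if k = 2 then 1 else 0)
          + (if k = 4 then 1 else 0)) * N := by
  induction N with
  | zero => simp
  | succ N ih =>
    have hr : ∀ r < 25, dig f (25 * N + r) =
        if r % 5 = 0 ∨ r % 5 = 3 then f N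
        else if r % 5 = 4 then (if r = 24 then 4 else 2) else 1 := by
      intro r hr
      unfold dig
      have e1 : (25 * N + r) % 5 = r % 5 := by omega
      have e2 : (25 * N + r) / 25 = N := by omega
      have e3 : (25 * N + r) % 25 = r := by omega
      rw [e1, e2, e3]
    have e : 25 * (N + 1) = 25 * N + 25 := by ring
    rw [Finset.card_filter] at ih ⊢
    rw [e, Finset.sum_range_add, ih]
    have : ∑ x ∈ Finset.range 25, (if dig f (25 * N + x) = k then 1 else 0) =
        10 * (if f N = k then 1 else 0) + (10 * (if k = 1 then 1 else 0)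
          + 4 * (if k = 2 then 1 else 0) + (if k = 4 then 1 else 0)) := by
      have : ∑ x ∈ Finset.range 25, (if dig f (25 * N + x) = k then 1 else 0) =
        ∑ x ∈ Finset.range 25, (if (if x % 5 = 0 ∨ x % 5 = 3 then f N
        else if x % 5 = 4 then (if x = 24 then 4 else 2) else 1) = k then 1 else 0) := by
        refine Finset.sum_congr rfl (fun x hx => ?_)
        rw [hr x (Finset.mem_range.mp hx)]
      rw [this]
      simp only [Finset.sum_range_succ, Finset.sum_range_zero]
      norm_num
      simp only [eq_comm (a := k)]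
      split_ifs <;> norm_num
    rw [this, Finset.card_filter, Finset.card_filter, Finset.sum_range_succ]
    ring

theorem dig_freq (f : ℕ → ℕ) (k : ℕ)
    (h : Tendsto
      (fun n : ℕ => (((Finset.range n).filter (fun i => f i = k)).card : ℝ) / (n : ℝ))
      atTop (𝓝 (Q k))) :
    Tendsto
      (fun n : ℕ => (((Finset.range n).filter (fun i => dig f i = k)).card : ℝ) / (n : ℝ))
      atTop (𝓝 (gk k)) := by
  apply tendsto_div_of_monotone_of_exists_subseq_tendsto_div
    (fun n : ℕ => (((Finset.range n).filter (fun i => dig f i = k)).card : ℝ))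
  · intro m n hmn
    simp only
    have : ((Finset.range m).filter (fun i => dig f i = k)).card ≤
        ((Finset.range n).filter (fun i => dig f i = k)).card := by
      apply Finset.card_le_card
      apply Finset.filter_subset_filter
      exact Finset.range_subset_range.mpr hmn
    exact_mod_cast this
  · intro a ha
    refine ⟨fun N => 25 * N, ?_, ?_, ?_⟩
    · have h1 : Tendsto (fun N : ℕ => (a - 1) * (25 * (N : ℝ))) atTop atTop := by
        refine Tendsto.const_mul_atTop (by linarith) ?_
        exact Tendsto.const_mul_atTop (by norm_num) tendsto_natCast_atTop_atTop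
      filter_upwards [h1.eventually_ge_atTop 25] with N hN
      push_cast
      linarith
    · exact tendsto_id.const_mul_atTop' (by norm_num)
    · have hk : gk k = (10 * Q k + (10 * (if k = 1 then 1 else 0)
          + 4 * (if k = 2 then 1 else 0) + (if k = 4 then 1 else 0))) / 25 := by
        unfold Q
        ring
      rw [hk]
      have h2 := ((h.const_mul 10).add_const (10 * (if k = 1 then 1 else 0)
          + 4 * (if k = 2 then 1 else 0) + (if k = 4 then (1:ℝ) else 0))).div_const 25
      refine h2.congr' ?_
      filter_upwards [eventually_gt_atTop 0] with N hN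
      simp only [sum_dig]
      have hN' : (0:ℝ) < N := by exact_mod_cast hN
      push_cast
      field_simp

theorem digits_count_freq (y : ℝ) (c : ℕ → ℕ)
    (hy : ∀ i, (GenContFract.of y).partDens.get? i = some ((c i : ℕ) : ℝ)) (k n : ℕ) :
    ((Finset.range n).filter
      (fun i => (GenContFract.of y).partDens.get? i = some (k : ℝ))).card =
    ((Finset.range n).filter (fun i => c i = k)).card := by
  congr 1
  apply Finset.filter_congr
  intro i _
  rw [hy i]
  simp

/-- The negation of the preceding statement: If every digit k ≥ 1 appears among the continued fraction partial quotients of x with frequency log2(1+1/(k(k+2))), then the same holds for qx+r, for all rationals q ≠ 0 and r. -/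
theorem result :
    ¬ (∀ x : ℝ,
      (∀ k : ℕ, 1 ≤ k →
        Tendsto
          (fun n : ℕ =>
            (((Finset.range n).filter
                (fun i => (GenContFract.of x).partDens.get? i = some (k : ℝ))).card : ℝ) / (n : ℝ))
          atTop (𝓝 (Real.logb 2 (1 + 1 / ((k : ℝ) * ((k : ℝ) + 2)))))) →
      ∀ q r : ℚ, q ≠ 0 →
        (∀ k : ℕ, 1 ≤ k →
          Tendsto
            (fun n : ℕ =>
              (((Finset.range n).filter
                  (fun i => (GenContFract.of ((q : ℝ) * x + (r : ℝ))).partDens.get? i
                    = some (k : ℝ))).card : ℝ) / (n : ℝ))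
            atTop (𝓝 (Real.logb 2 (1 + 1 / ((k : ℝ) * ((k : ℝ) + 2))))))) := by
  intro H
  obtain ⟨f, hf1, hf⟩ := exists_free
  obtain ⟨t, ht1, ht⟩ := exists_tails (dig f) (dig_pos f hf1)
  -- the number `x = 1 / t 0 = [0; a_0, a_1, ...]`
  have hx : ∀ i, (GenContFract.of (1 / t 0)).partDens.get? i = some ((dig f i : ℕ) : ℝ) := by
    intro i
    let T : ℕ → ℝ := fun n => Nat.casesOn n (1 / t 0) (fun m => t m)
    let C : ℕ → ℕ := fun n => Nat.casesOn n 0 (fun m => dig f m)
    have := partDens_of_tails T C (fun n => ht1 n) (fun n => by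
      cases n with
      | zero => simp [T, C]
      | succ n => exact ht n) i
    exact this
  -- the output digits
  let c : ℕ → ℕ := fun n =>
    if n % 3 = 0 then 2 * dig f (5 * (n / 3)) + 1
    else if n % 3 = 1 then 2 * dig f (5 * (n / 3) + 3) + 1
    else dig f (5 * (n / 3) + 4) / 2
  let s : ℕ → ℝ := fun n =>
    if n % 3 = 0 then 2 * t (5 * (n / 3))
    else if n % 3 = 1 then 2 * t (5 * (n / 3) + 3) + 1
    else t (5 * (n / 3) + 4) / 2
  have hdig1 : ∀ j, dig f (5 * j + 1) = 1 := by
    intro j
    unfold dig
    rw [if_neg (by omega), if_neg (by omega)]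
  have hdig2 : ∀ j, dig f (5 * j + 2) = 1 := by
    intro j
    unfold dig
    rw [if_neg (by omega), if_neg (by omega)]
  have hdig4 : ∀ j, dig f (5 * j + 4) = 2 ∨ dig f (5 * j + 4) = 4 := by
    intro j
    unfold dig
    rw [if_neg (by omega), if_pos (by omega)]
    split_ifs
    · right; rfl
    · left; rfl
  have hs1 : ∀ n, 1 < s n := by
    intro n
    simp only [s]
    split_ifs
    · linarith [ht1 (5 * (n / 3))]
    · linarith [ht1 (5 * (n / 3) + 3)]
    · have h1 := ht (5 * (n / 3) + 4)
      have h2 := ht1 (5 * (n / 3) + 4 + 1)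
      have h3 : 0 < 1 / t (5 * (n / 3) + 4 + 1) := by positivity
      have h4 : (2:ℝ) ≤ (dig f (5 * (n / 3) + 4) : ℝ) := by
        rcases hdig4 (n / 3) with h | h <;> rw [h] <;> norm_num
      linarith
  have hs : ∀ n, s n = (c n : ℝ) + 1 / s (n + 1) := by
    intro n
    obtain ⟨j, r, hr, rfl⟩ : ∃ j r, r < 3 ∧ n = 3 * j + r :=
      ⟨n / 3, n % 3, Nat.mod_lt _ (by norm_num), (Nat.div_add_mod n 3).symm⟩
    interval_cases r
    · -- position 0
      have e1 : s (3 * j + 0) = 2 * t (5 * j) := by
        simp only [s]
        rw [if_pos (by omega)]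
        congr 2
        omega
      have e2 : s (3 * j + 0 + 1) = 2 * t (5 * j + 3) + 1 := by
        simp only [s]
        rw [if_neg (by omega), if_pos (by omega)]
        congr 3
        omega
      have e3 : c (3 * j + 0) = 2 * dig f (5 * j) + 1 := by
        simp only [c]
        rw [if_pos (by omega)]
        congr 3
        omega
      rw [e1, e2, e3, ht (5 * j), ht (5 * j + 1), ht (5 * j + 1 + 1)]
      have d1 := hdig1 j
      have d2 : dig f (5 * j + 1 + 1) = 1 := hdig2 j
      rw [d1, d2]
      have e4 : 5 * j + 1 + 1 + 1 = 5 * j + 3 := by ring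
      rw [e4]
      have hpos : 0 < t (5 * j + 3) := by linarith [ht1 (5 * j + 3)]
      push_cast
      field_simp
      ring
    · -- position 1
      have e1 : s (3 * j + 1) = 2 * t (5 * j + 3) + 1 := by
        simp only [s]
        rw [if_neg (by omega), if_pos (by omega)]
        congr 3
        omega
      have e2 : s (3 * j + 1 + 1) = t (5 * j + 4) / 2 := by
        simp only [s]
        rw [if_neg (by omega), if_neg (by omega)]
        congr 2
        omega
      have e3 : c (3 * j + 1) = 2 * dig f (5 * j + 3) + 1 := by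
        simp only [c]
        rw [if_neg (by omega), if_pos (by omega)]
        congr 3
        omega
      rw [e1, e2, e3, ht (5 * j + 3)]
      have e4 : 5 * j + 3 + 1 = 5 * j + 4 := by ring
      rw [e4]
      have hpos : 0 < t (5 * j + 4) := by linarith [ht1 (5 * j + 4)]
      push_cast
      field_simp
      ring
    · -- position 2
      have e1 : s (3 * j + 2) = t (5 * j + 4) / 2 := by
        simp only [s]
        rw [if_neg (by omega), if_neg (by omega)]
        congr 2
        omega
      have e2 : s (3 * j + 2 + 1) = 2 * t (5 * j + 5) := by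
        simp only [s]
        rw [if_pos (by omega)]
        congr 2
        omega
      have e3 : c (3 * j + 2) = dig f (5 * j + 4) / 2 := by
        simp only [c]
        rw [if_neg (by omega), if_neg (by omega)]
        congr 2
        omega
      rw [e1, e2, e3, ht (5 * j + 4)]
      have e4 : 5 * j + 4 + 1 = 5 * j + 5 := by ring
      rw [e4]
      have hpos : 0 < t (5 * j + 5) := by linarith [ht1 (5 * j + 5)]
      rcases hdig4 j with h | h
      · rw [h]
        norm_num
        field_simp
      · rw [h]
        norm_num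
        field_simp
        ring
  have hy : ∀ i, (GenContFract.of (((1/2 : ℚ) : ℝ) * (1 / t 0) + ((0 : ℚ) : ℝ))).partDens.get? i
      = some ((c i : ℕ) : ℝ) := by
    intro i
    have hs0 : s 0 = 2 * t 0 := by simp [s]
    have e : (((1/2 : ℚ) : ℝ) * (1 / t 0) + ((0 : ℚ) : ℝ)) = 1 / s 0 := by
      rw [hs0]
      push_cast
      have := ht1 0
      field_simp
      ring
    rw [e]
    let T : ℕ → ℝ := fun n => Nat.casesOn n (1 / s 0) (fun m => s m)
    let C : ℕ → ℕ := fun n => Nat.casesOn n 0 (fun m => c m)
    have := partDens_of_tails T C (fun n => hs1 n) (fun n => by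
      cases n with
      | zero => simp [T, C]
      | succ n => exact hs n) i
    exact this
  have hxn : ∀ k : ℕ, 1 ≤ k →
        Tendsto
          (fun n : ℕ =>
            (((Finset.range n).filter
                (fun i => (GenContFract.of (1 / t 0)).partDens.get? i = some (k : ℝ))).card : ℝ)
                  / (n : ℝ))
          atTop (𝓝 (Real.logb 2 (1 + 1 / ((k : ℝ) * ((k : ℝ) + 2))))) := by
    intro k hk
    have h := dig_freq f k (hf k hk)
    refine h.congr (fun n => ?_)
    rw [digits_count_freq (1 / t 0) (dig f) hx k n]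
  have hyn := H (1 / t 0) hxn (1/2) 0 (by norm_num) 1 le_rfl
  -- but the digit `1` only occurs at positions `2 mod 3`
  have hc1 : ∀ i, c i = 1 → i % 3 = 2 := by
    intro i hi
    by_contra hne
    simp only [c] at hi
    have h1 := dig_pos f hf1 (5 * (i / 3))
    have h2 := dig_pos f hf1 (5 * (i / 3) + 3)
    split_ifs at hi <;> omega
  have hcount : ∀ n, ((Finset.range n).filter (fun i => i % 3 = 2)).card = n / 3 := by
    intro n
    induction n with
    | zero => simp
    | succ n ih =>
      rw [Finset.range_add_one, Finset.filter_insert]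
      split_ifs with h
      · rw [Finset.card_insert_of_notMem (by simp), ih]
        omega
      · rw [ih]
        omega
  have hle : Real.logb 2 (1 + 1 / (((1:ℕ) : ℝ) * (((1:ℕ) : ℝ) + 2))) ≤ 1 / 3 := by
    refine le_of_tendsto hyn (Eventually.of_forall (fun n => ?_))
    rw [digits_count_freq _ c hy 1 n]
    rcases Nat.eq_zero_or_pos n with hn | hn
    · subst hn; simp
    · have hn' : (0:ℝ) < n := by exact_mod_cast hn
      rw [div_le_iff₀ hn']
      have h1 : ((Finset.range n).filter (fun i => c i = 1)).card ≤ n / 3 := by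
        rw [← hcount n]
        apply Finset.card_le_card
        intro i hi
        rw [Finset.mem_filter] at hi ⊢
        exact ⟨hi.1, hc1 i hi.2⟩
      have h2 : 3 * ((Finset.range n).filter (fun i => c i = 1)).card ≤ n := by omega
      have h3 : (3:ℝ) * (((Finset.range n).filter (fun i => c i = 1)).card : ℝ) ≤ n := by
        exact_mod_cast h2
      linarith
  have := gk_one'
  unfold gk at this
  linarith

end Pool.Agent.S16290
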