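-- Proof of frozen statement S16315 (MP_241678_nt, Q1, positive answer).
import Pool.Statements.S16315
import Pool.Agent.Helper93.Final

set_option autoImplicit false
open Pool Pool.MP_241678_nt

namespace Pool.Agent.S16315

/-- Every positive integer congruent to 0 or 1 mod 3 can be reached from 1 by repeatedly either tripling a number or sending an odd number 2n+1 to n. -/
theorem result :
    ∀ m : ℕ, 0 < m → (m % 3 = 0 ∨ m % 3 = 1) →
      Relation.ReflTransGen (fun a b : ℕ => b = 3 * a ∨ a = 2 * b + 1) 1 m := by
  intro m hm h
  exact Pool.Agent.Helper93.main m hm h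

end Pool.Agent.S16315
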