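import Pool.Statements.S16663
import Pool.Agent.Helper94.GSpMain

set_option autoImplicit false
open Pool Pool.MP_3e7cbe_nt

namespace Pool.Agent.S16663

/-- For every prime p and rank m ≥ 1, each irreducible admissible infinite-dimensional complex representation of GSp_2m(Q_p) has a nonzero vector fixed by all g in GSp congruent mod p^n to diag(1,…,1,a,…,a), for some level n and unit a. -/
theorem result :
  ∀ (p : ℕ) [Fact (Nat.Prime p)] (m : ℕ), 1 ≤ m →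
  ∀ (V : Type) [AddCommGroup V] [Module ℂ V]
    (ρ : Matrix (Fin m ⊕ Fin m) (Fin m ⊕ Fin m) (Padic p) → (V →ₗ[ℂ] V)),
    ρ 1 = LinearMap.id →
    (∀ g h : Matrix (Fin m ⊕ Fin m) (Fin m ⊕ Fin m) (Padic p),
      (∃ c : Padic p, c ≠ 0 ∧
        Matrix.transpose g * Matrix.J (Fin m) (Padic p) * g = c • Matrix.J (Fin m) (Padic p)) →
      (∃ c : Padic p, c ≠ 0 ∧
        Matrix.transpose h * Matrix.J (Fin m) (Padic p) * h = c • Matrix.J (Fin m) (Padic p)) →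
      ρ (g * h) = ρ g ∘ₗ ρ h) →
    (∀ v : V, ∃ k : ℕ, ∀ g : Matrix (Fin m ⊕ Fin m) (Fin m ⊕ Fin m) (Padic p),
      (∃ c : Padic p, c ≠ 0 ∧
        Matrix.transpose g * Matrix.J (Fin m) (Padic p) * g = c • Matrix.J (Fin m) (Padic p)) →
      (∀ i j, ‖(g - 1) i j‖ ≤ (p : ℝ) ^ (-(k : ℤ))) → ρ g v = v) →
    (∀ k : ℕ, ∃ s : Finset V, ∀ v : V,
      (∀ g : Matrix (Fin m ⊕ Fin m) (Fin m ⊕ Fin m) (Padic p),
        (∃ c : Padic p, c ≠ 0 ∧
          Matrix.transpose g * Matrix.J (Fin m) (Padic p) * g = c • Matrix.J (Fin m) (Padic p)) →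
        (∀ i j, ‖(g - 1) i j‖ ≤ (p : ℝ) ^ (-(k : ℤ))) → ρ g v = v) →
      v ∈ Submodule.span ℂ (s : Set V)) →
    Nontrivial V →
    (∀ W : Submodule ℂ V,
      (∀ g : Matrix (Fin m ⊕ Fin m) (Fin m ⊕ Fin m) (Padic p),
        (∃ c : Padic p, c ≠ 0 ∧
          Matrix.transpose g * Matrix.J (Fin m) (Padic p) * g = c • Matrix.J (Fin m) (Padic p)) →
        ∀ w ∈ W, ρ g w ∈ W) →
      W = ⊥ ∨ W = ⊤) →
    ¬ Module.Finite ℂ V →
    ∃ n : ℕ, ∃ v : V, v ≠ 0 ∧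
      ∀ g : Matrix (Fin m ⊕ Fin m) (Fin m ⊕ Fin m) (Padic p),
        (∃ c : Padic p, c ≠ 0 ∧
          Matrix.transpose g * Matrix.J (Fin m) (Padic p) * g = c • Matrix.J (Fin m) (Padic p)) →
        (∃ a : Padic p, ‖a‖ = 1 ∧ ∀ i j,
          ‖(g - Matrix.diagonal (Sum.elim (fun _ : Fin m => (1 : Padic p)) (fun _ : Fin m => a))) i j‖
            ≤ (p : ℝ) ^ (-(n : ℤ))) →
        ρ g v = v := by
  intro p hp m hm V _ _ ρ h1 hmul hsm hadm hnt hirr hinf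
  have hρ : Pool.Agent.Helper94.GSpLemmaC.IsRep ρ :=
    ⟨h1, fun c d g h hg hh => hmul g h ⟨c, hg⟩ ⟨d, hh⟩⟩
  obtain ⟨n, v, hv, hfix⟩ := Pool.Agent.Helper94.GSpMain.main hm hρ
    (fun v => by
      obtain ⟨k, hk⟩ := hsm v
      exact ⟨k, fun g c hg hcl => hk g ⟨c, hg⟩ hcl⟩)
    (fun k => by
      obtain ⟨s, hs⟩ := hadm k
      refine ⟨s, fun v hv => hs v ?_⟩
      rintro g ⟨c, hg⟩ hcl
      exact hv g c hg hcl)
    hnt
    (fun W hW => hirr W (by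
      rintro g ⟨c, hg⟩ w hw
      exact hW g c hg w hw))
    hinf
  refine ⟨n, v, hv, ?_⟩
  rintro g ⟨c, hg⟩ ha
  exact hfix g c hg ha

end Pool.Agent.S16663
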