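import Pool.Statements.S17050
import Pool.Agent.Helper96.QuinticFinal

set_option autoImplicit false
open Pool Pool.MP_59b56e_nt

namespace Pool.Agent.S17050

/-- The negation of the preceding statement: Every real polynomial of degree n ≥ 1 having n distinct rational roots admits a nonzero real t such that p(x) − t also has n distinct rational roots. -/
theorem result :
    ¬ (∀ p : Polynomial ℝ, 0 < p.natDegree →
      (∃ s : Finset ℚ, s.card = p.natDegree ∧ ∀ q ∈ s, p.eval (q : ℝ) = 0) →
      ∃ t : ℝ, t ≠ 0 ∧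
        ∃ s : Finset ℚ, s.card = p.natDegree ∧
          ∀ q ∈ s, (p - Polynomial.C t).eval (q : ℝ) = 0) := by
  intro H
  have hdeg : ((Polynomial.X : Polynomial ℝ) ^ 5 - 13 * Polynomial.X ^ 3 + 36 * Polynomial.X).natDegree = 5 := by
    compute_degree!
  obtain ⟨t, ht, s, hcard, hs⟩ := H
    ((Polynomial.X : Polynomial ℝ) ^ 5 - 13 * Polynomial.X ^ 3 + 36 * Polynomial.X)
    (by rw [hdeg]; norm_num)
    ⟨{0, 2, -2, 3, -3}, by rw [hdeg]; rfl, by
      intro q hq
      simp only [Finset.mem_insert, Finset.mem_singleton] at hq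
      rcases hq with rfl | rfl | rfl | rfl | rfl <;> simp <;> norm_num⟩
  rw [hdeg] at hcard
  -- the five roots
  set x : Fin 5 → ℚ := fun i => s.orderEmbOfFin hcard i with hx
  have hinj : Function.Injective x := (s.orderEmbOfFin hcard).injective
  have hmem : ∀ i, x i ∈ s := fun i => Finset.orderEmbOfFin_mem s hcard i
  have hroot : ∀ i, ((Pool.Agent.Helper96.quint (x i) : ℚ) : ℝ) = t := by
    intro i
    have h := hs (x i) (hmem i)
    simp only [Polynomial.eval_sub, Polynomial.eval_add, Polynomial.eval_mul, Polynomial.eval_pow,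
      Polynomial.eval_X, Polynomial.eval_C, Polynomial.eval_ofNat] at h
    unfold Pool.Agent.Helper96.quint
    push_cast
    linarith
  have hq : ∀ i, Pool.Agent.Helper96.quint (x i) = Pool.Agent.Helper96.quint (x 0) := by
    intro i
    have h : ((Pool.Agent.Helper96.quint (x i) : ℚ) : ℝ) = (Pool.Agent.Helper96.quint (x 0) : ℚ) := by
      rw [hroot i, hroot 0]
    exact_mod_cast h
  have hne : ∀ i j : Fin 5, i ≠ j → x i ≠ x j := fun i j hij h => hij (hinj h)
  have h0 := Pool.Agent.Helper96.no_shift (hne 0 1 (by decide)) (hne 0 2 (by decide))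
    (hne 0 3 (by decide)) (hne 0 4 (by decide)) (hne 1 2 (by decide)) (hne 1 3 (by decide))
    (hne 1 4 (by decide)) (hne 2 3 (by decide)) (hne 2 4 (by decide)) (hne 3 4 (by decide))
    (hq 0) (hq 1) (hq 2) (hq 3) (hq 4)
  apply ht
  rw [← hroot 0, h0]
  simp

end Pool.Agent.S17050
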