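import Pool.Statements.S19167
import Pool.Agent.Helper79.PB.Law

set_option autoImplicit false
open MeasureTheory ProbabilityTheory
open Pool Pool.MP_13b103_pr

namespace Pool.Agent.S19167

/-- In FPP on Z^d (d≥2) with i.i.d. nonnegative edge weights of an atomless law, almost surely there are infinitely many self-avoiding lattice paths from 0 whose every finite segment is a minimal-passage-time path. -/
theorem result :
  ∀ (d : ℕ), 2 ≤ d →
  ∀ (μ : Measure ℝ), IsProbabilityMeasure μ → NoAtoms μ → μ (Set.Iio 0) = 0 →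
  ∀ (Ω : Type) (mΩ : MeasurableSpace Ω) (P : Measure Ω), IsProbabilityMeasure P →
  ∀ (t : Sym2 (Fin d → ℤ) → Ω → ℝ),
    (∀ e, Measurable (t e)) →
    iIndepFun
      (fun e : {e : Sym2 (Fin d → ℤ) //
          ∃ x y : Fin d → ℤ, e = s(x, y) ∧ ∑ i, |x i - y i| = 1} => t e.1)
      P →
    (∀ x y : Fin d → ℤ, ∑ i, |x i - y i| = 1 →
      Measure.map (t s(x, y)) P = μ) →
    ∀ᵐ ω ∂P,
      Set.Infinite {γ : ℕ → (Fin d → ℤ) |
        γ 0 = 0 ∧ Function.Injective γ ∧
        (∀ k, ∑ i, |γ k i - γ (k + 1) i| = 1) ∧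
        ∀ m n : ℕ, m ≤ n →
          ∀ (L : ℕ) (q : ℕ → (Fin d → ℤ)), q 0 = γ m → q L = γ n →
            (∀ k < L, ∑ i, |q k i - q (k + 1) i| = 1) →
            ∑ k ∈ Finset.range (n - m), t s(γ (m + k), γ (m + k + 1)) ω ≤
              ∑ k ∈ Finset.range L, t s(q k, q (k + 1)) ω} := by
  intro d hd
  exact Pool.Agent.Helper79.PB.finB hd (Pool.Agent.Helper79.PB.lawA hd)

end Pool.Agent.S19167
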