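import Pool.Statements.S19194

set_option autoImplicit false
open MeasureTheory ProbabilityTheory
open Pool Pool.MP_1c00b2_pr

namespace Pool.Agent.S19194

/-- A fair coin on `Bool`. -/
noncomputable def coin : Measure Bool :=
  (2⁻¹ : ENNReal) • Measure.dirac true + (2⁻¹ : ENNReal) • Measure.dirac false

instance : IsProbabilityMeasure coin := by
  constructor
  simp only [coin, Measure.coe_add, Measure.coe_smul, Pi.add_apply, Pi.smul_apply, measure_univ,
    smul_eq_mul, mul_one]
  exact ENNReal.inv_two_add_inv_two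

/-- The two service times 17 and 21. -/
def sv (b : Bool) : ℝ := if b then 21 else 17

/-- Some index at which a vector attains its minimum. -/
lemma exists_argmin (v : Fin 5 → ℝ) : ∃ j, ∀ i, v j ≤ v i := by
  obtain ⟨j, -, hj⟩ := Finset.exists_min_image Finset.univ v Finset.univ_nonempty
  exact ⟨j, fun i => hj i (Finset.mem_univ i)⟩

open Classical in
/-- The server chosen by customer `n` in state `v`: server `n % 5` if it is a least loaded one,
and any least loaded one otherwise. -/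
noncomputable def pick (n : ℕ) (v : Fin 5 → ℝ) : Fin 5 :=
  if ∀ i, v ⟨n % 5, Nat.mod_lt _ (by norm_num)⟩ ≤ v i then ⟨n % 5, Nat.mod_lt _ (by norm_num)⟩
  else Classical.choose (exists_argmin v)

lemma pick_spec (n : ℕ) (v : Fin 5 → ℝ) : ∀ i, v (pick n v) ≤ v i := by
  unfold pick
  split_ifs with h
  · exact h
  · exact Classical.choose_spec (exists_argmin v)

/-- The workload vectors. -/
noncomputable def V : ℕ → (ℕ → Bool) → Fin 5 → ℝ
  | 0, _, _ => 0
  | n + 1, ω, i => max 0 (V n ω i + (if i = pick n (V n ω) then sv (ω n) else 0) - 4)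

lemma sv_cases (b : Bool) : sv b = 21 ∨ sv b = 17 := by
  cases b <;> simp [sv]

lemma V_nonneg (n : ℕ) (ω : ℕ → Bool) (i : Fin 5) : 0 ≤ V n ω i := by
  cases n with
  | zero => simp [V]
  | succ n => rw [V]; exact le_max_left _ _

lemma pick_eq (n : ℕ) (hn : n < 5) (ω : ℕ → Bool) (h : V n ω ⟨n, hn⟩ = 0) :
    pick n (V n ω) = ⟨n, hn⟩ := by
  have e : (⟨n % 5, Nat.mod_lt _ (by norm_num)⟩ : Fin 5) = ⟨n, hn⟩ := by
    apply Fin.ext; exact Nat.mod_eq_of_lt hn
  unfold pick
  rw [if_pos]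
  · exact e
  · intro i
    rw [e, h]
    exact V_nonneg n ω i

lemma V_zero (n : ℕ) (ω : ℕ → Bool) (i : Fin 5) (hi : n ≤ i.val) : V n ω i = 0 := by
  induction n generalizing i with
  | zero => rfl
  | succ n ih =>
    have hn : n < 5 := by omega
    have hp := pick_eq n hn ω (ih ⟨n, hn⟩ le_rfl)
    have hne : i ≠ ⟨n, hn⟩ := by
      intro h; rw [h] at hi; simp at hi
    rw [V, hp, if_neg hne, ih i (by omega)]
    norm_num

lemma V_first (n : ℕ) (hn : n < 5) (ω : ℕ → Bool) : sv (ω n) - 4 ≤ V (n + 1) ω ⟨n, hn⟩ := by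
  have h0 := V_zero n ω ⟨n, hn⟩ le_rfl
  rw [V, pick_eq n hn ω h0, h0, if_pos rfl]
  refine le_trans (le_of_eq ?_) (le_max_right _ _)
  ring

lemma sv_pos (b : Bool) : 17 ≤ sv b := by
  rcases sv_cases b with h | h <;> rw [h] <;> norm_num

lemma V_step (n : ℕ) (ω : ℕ → Bool) (i : Fin 5) : V n ω i - 4 ≤ V (n + 1) ω i := by
  rw [V]
  refine le_trans ?_ (le_max_right _ _)
  have := sv_pos (ω n)
  split_ifs <;> linarith

lemma V5 (ω : ℕ → Bool) (i : Fin 5) : (if ω 0 then (1 : ℝ) else 0) ≤ V 5 ω i := by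
  have hle : (if ω 0 then (1 : ℝ) else 0) ≤ 1 := by split_ifs <;> norm_num
  obtain ⟨i, hi⟩ := i
  have c : i = 0 ∨ i = 1 ∨ i = 2 ∨ i = 3 ∨ i = 4 := by omega
  rcases c with rfl | rfl | rfl | rfl | rfl
  · cases hω : ω 0 with
    | false => simpa using V_nonneg 5 ω _
    | true =>
      have h1 := V_first 0 (by norm_num) ω
      have h2 := V_step 1 ω ⟨0, hi⟩
      have h3 := V_step 2 ω ⟨0, hi⟩
      have h4 := V_step 3 ω ⟨0, hi⟩
      have h5 := V_step 4 ω ⟨0, hi⟩
      simp only [hω, sv, if_true] at h1 ⊢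
      norm_num at h1 h2 h3 h4 h5 ⊢
      linarith
  · have h1 := V_first 1 (by norm_num) ω
    have h3 := V_step 2 ω ⟨1, hi⟩
    have h4 := V_step 3 ω ⟨1, hi⟩
    have h5 := V_step 4 ω ⟨1, hi⟩
    have := sv_pos (ω 1)
    norm_num at h1 h3 h4 h5 ⊢
    linarith
  · have h1 := V_first 2 (by norm_num) ω
    have h4 := V_step 3 ω ⟨2, hi⟩
    have h5 := V_step 4 ω ⟨2, hi⟩
    have := sv_pos (ω 2)
    norm_num at h1 h4 h5 ⊢
    linarith
  · have h1 := V_first 3 (by norm_num) ω
    have h5 := V_step 4 ω ⟨3, hi⟩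
    have := sv_pos (ω 3)
    norm_num at h1 h5 ⊢
    linarith
  · have h1 := V_first 4 (by norm_num) ω
    have := sv_pos (ω 4)
    norm_num at h1 ⊢
    linarith

/-- Disproof of the bound by `k = 5`, `T = 4`, `S` uniform on `{17, 21}`: the sixth customer waits `1` with
probability `1/2`, which exceeds the bound `2/5`. -/
theorem result :
    ¬ (∀ (Ω : Type) [MeasurableSpace Ω] (μ : Measure Ω) [IsProbabilityMeasure μ]
    (k : ℕ) (T S : ℕ → Ω → ℝ) (V : ℕ → Ω → Fin k → ℝ) (ρ : ℝ),
    0 < k →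
    (∀ n, Measurable (T n)) → (∀ n, Measurable (S n)) →
    iIndepFun (fun n ω => (T n ω, S n ω)) μ →
    (∀ n, IndepFun (T n) (S n) μ) →
    (∀ n, IdentDistrib (T n) (T 0) μ μ) →
    (∀ n, IdentDistrib (S n) (S 0) μ μ) →
    (∀ n ω, 0 ≤ T n ω) → (∀ n ω, 0 ≤ S n ω) →
    MemLp (T 0) 2 μ → MemLp (S 0) 2 μ →
    0 < ∫ ω, T 0 ω ∂μ →
    ρ = (∫ ω, S 0 ω ∂μ) / ((k : ℝ) * ∫ ω, T 0 ω ∂μ) →
    ρ < 1 →
    (∀ ω i, V 0 ω i = 0) →
    (∀ n ω, ∃ j : Fin k, (∀ i, V n ω j ≤ V n ω i) ∧
        ∀ i, V (n + 1) ω i = max 0 (V n ω i + (if i = j then S n ω else 0) - T n ω)) →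
    ∀ n, ∫⁻ ω, ENNReal.ofReal (⨅ i, V n ω i) ∂μ ≤
      ENNReal.ofReal ((ρ * (2 - ρ) * variance (T 0) μ + variance (S 0) μ / ((k : ℝ) ^ 2)) /
        (2 * (1 - ρ) * ∫ ω, T 0 ω ∂μ))) := by
  intro H
  let μ : Measure (ℕ → Bool) := Measure.infinitePi (fun _ => coin)
  let T : ℕ → (ℕ → Bool) → ℝ := fun _ _ => 4
  let S : ℕ → (ℕ → Bool) → ℝ := fun n ω => sv (ω n)
  have hsv : Measurable sv := measurable_of_finite _
  have hS : ∀ n, Measurable (S n) := fun n => hsv.comp (measurable_pi_apply n)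
  have hmap : ∀ n, μ.map (fun ω => ω n) = coin := fun n => Measure.infinitePi_map_eval _ n
  have hint : ∀ f : Bool → ℝ, ∫ ω, f (ω 0) ∂μ = (f true + f false) / 2 := by
    intro f
    have hf : Measurable f := measurable_of_finite _
    have : ∫ ω, f (ω 0) ∂μ = ∫ b, f b ∂coin := by
      rw [← hmap 0, integral_map (measurable_pi_apply 0).aemeasurable
        hf.aestronglyMeasurable]
    have hi : ∀ b : Bool, Integrable f ((2⁻¹ : ENNReal) • Measure.dirac b) := fun b =>
      (integrable_dirac (by simp)).smul_measure (by simp)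
    rw [this, coin, integral_add_measure (hi true) (hi false), integral_smul_measure,
      integral_smul_measure, integral_dirac, integral_dirac]
    simp
    ring
  have hT0 : ∫ ω, T 0 ω ∂μ = 4 := by simp [T]
  have hS0 : ∫ ω, S 0 ω ∂μ = 19 := by
    have := hint sv
    simp only [S]
    rw [this]; norm_num [sv]
  have hSm : MemLp (S 0) 2 μ := by
    refine MemLp.of_bound (hS 0).aestronglyMeasurable 21 (Filter.Eventually.of_forall fun ω => ?_)
    rcases sv_cases (ω 0) with h | h <;> simp [S, h] <;> norm_num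
  have hvS : variance (S 0) μ = 4 := by
    rw [variance_eq_integral (hS 0).aemeasurable, hS0]
    have := hint (fun b => (sv b - 19) ^ 2)
    simp only [S]
    rw [this]; norm_num [sv]
  have hvT : variance (T 0) μ = 0 := by
    rw [variance_eq_integral (measurable_const).aemeasurable, hT0]
    simp [T]
  have key := H (ℕ → Bool) μ 5 T S V (19 / 20) (by norm_num)
    (fun n => measurable_const) hS
    (iIndepFun_infinitePi (P := fun _ => coin) (X := fun n (b : Bool) => ((4 : ℝ), sv b))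
      (fun n => measurable_const.prodMk hsv))
    (fun n => indepFun_const_left _ _)
    (fun n => IdentDistrib.refl measurable_const.aemeasurable)
    (fun n => ⟨(hS n).aemeasurable, (hS 0).aemeasurable, by
      have e : ∀ m, μ.map (S m) = coin.map sv := by
        intro m
        rw [← hmap m, Measure.map_map hsv (measurable_pi_apply m)]
        rfl
      rw [e n, e 0]⟩)
    (fun n ω => by simp [T])
    (fun n ω => by rcases sv_cases (ω n) with h | h <;> simp [S, h])
    (memLp_const _) hSm (by rw [hT0]; norm_num) (by rw [hT0, hS0]; norm_num) (by norm_num)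
    (fun ω i => rfl)
    (fun n ω => ⟨pick n (V n ω), pick_spec n _, fun i => rfl⟩) 5
  rw [hT0, hvS, hvT] at key
  have lower : ENNReal.ofReal (1 / 2) ≤ ∫⁻ ω, ENNReal.ofReal (⨅ i, V 5 ω i) ∂μ := by
    calc ENNReal.ofReal (1 / 2) = ∫⁻ ω, ENNReal.ofReal (if ω 0 then (1 : ℝ) else 0) ∂μ := by
          have e1 : ∫⁻ ω, ENNReal.ofReal (if ω 0 then (1 : ℝ) else 0) ∂μ
              = ∫⁻ b, ENNReal.ofReal (if b then (1 : ℝ) else 0) ∂coin := by
            rw [← hmap 0, lintegral_map (measurable_of_finite _) (measurable_pi_apply 0)]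
          rw [e1, coin, lintegral_add_measure, lintegral_smul_measure, lintegral_smul_measure,
            lintegral_dirac, lintegral_dirac]
          simp
      _ ≤ ∫⁻ ω, ENNReal.ofReal (⨅ i, V 5 ω i) ∂μ := by
          refine lintegral_mono fun ω => ENNReal.ofReal_le_ofReal ?_
          exact le_ciInf fun i => V5 ω i
  have := lower.trans key
  rw [ENNReal.ofReal_le_ofReal_iff (by norm_num)] at this
  norm_num at this

end Pool.Agent.S19194
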