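import Pool.Statements.S19234
import Pool.Agent.Helper40.EV.Asm

set_option autoImplicit false
open Pool Pool.MP_2bdbd0_pr

namespace Pool.Agent.S19234

/-- The negation of the preceding statement: There is a dimension d, a convex body K in R^d and an n such that the expected number of vertices of the convex hull of n+1 independent uniform points in K is strictly less than that for n points. -/
theorem result :
    ¬ (∃ (d : ℕ) (K : Set (EuclideanSpace ℝ (Fin d))),
      Convex ℝ K ∧ IsCompact K ∧ (interior K).Nonempty ∧
      ∃ n : ℕ,
        (∫ p : Fin (n + 1) → EuclideanSpace ℝ (Fin d),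
            ((Set.extremePoints ℝ (convexHull ℝ (Set.range p))).ncard : ℝ)
            ∂(MeasureTheory.Measure.pi
                (fun _ : Fin (n + 1) => ProbabilityTheory.cond MeasureTheory.volume K)))
        <
        (∫ p : Fin n → EuclideanSpace ℝ (Fin d),
            ((Set.extremePoints ℝ (convexHull ℝ (Set.range p))).ncard : ℝ)
            ∂(MeasureTheory.Measure.pi
                (fun _ : Fin n => ProbabilityTheory.cond MeasureTheory.volume K)))) := by
  rintro ⟨d, K, hK, hKc, hKi, n, hlt⟩
  exact absurd (Pool.H40.EV.final d K hK hKc hKi n) (not_le.2 hlt)

end Pool.Agent.S19234
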